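import Pool.Agent.SYS.Reg.SimC

/-!
# SYS-Reg-Ind: the normalised number of reached regions with an intrinsic property does not depend on the base

PLAN.  Prove for all isomorphic nodes `S₁, d` / `T₁, θ d` (any histories `h`) by induction on `w`: with `N(S₁, d, w) = ncard {q | LRch σ S x W h S₁ d w q.1 q.2 ∧ Φ q.1 q.2}`:
`N(S₁, d, w) * (3 F').descFactorial (3 wvol w) = N'(T₁, θ d, w) * (3 F).descFactorial (3 wvol w)`.  `w = []`: `Φ S₁ d ↔ Φ' T₁ (θ d)`.  `s :: w`: by `fib_card` (`Reg/RchG.lean`; uniqueness by `st_unique`, `rchg_sub`)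
`N(S₁, d, s :: w) = ∑ᶠ over the local steps of N(S₂, σ z, w)`; `sim_sum` with `c q = N(q) * (3 (F' - vol s)).descFactorial (3 wvol w)`, `c' q = N'(q) * (3 (F - vol s)).descFactorial (3 wvol w)` (equal by the induction
hypothesis and `IRul`); `descFactorial (3 (a + b)) = descFactorial (3 a) * (.. - 3 a).descFactorial (3 b)` (see `rchg_card`).  The number of hidden darts of `S₂` is `3 (F - vol s)` (the step reveals
`3 vol s` darts: `face_R`, `FillBy.R`); `vol s ≤ F` is automatic if there is a child; if one of the two sides has no child then by `sim_sum` with `c = 1`... use it as stated, with natural subtraction: if `F < vol s` then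
`(3 F).descFactorial (3 vol s) = 0` and there is no child on that side, so both products are `0`.
-/

namespace SYS
namespace Part

open Classical SST

variable {D E : Type} [Finite D] [Finite E] {S S₁ : Part D} {x d : D} {T T₁ : Part E} {y : E} {W : ℕ} {θ : D → E}
  {σ : List Stp → Part D → D → D} {σ' : List Stp → Part E → E → E}

private theorem ind_three {A : Set D} {t0 t1 t2 : D} (k0 : t0 ∉ A) (k1 : t1 ∉ A) (k2 : t2 ∉ A)
    (h01 : t0 ≠ t1) (h12 : t1 ≠ t2) (h20 : t2 ≠ t0) :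
    (A ∪ {t0, t1, t2}).ncard = A.ncard + 3 := by
  have hd : Disjoint A ({t0, t1, t2} : Set D) := by
    rw [Set.disjoint_left]
    rintro a ha (h | h | h)
    · exact k0 (h ▸ ha)
    · exact k1 (h ▸ ha)
    · exact k2 (h ▸ ha)
  rw [Set.ncard_union_eq hd (Set.toFinite _) (Set.toFinite _)]
  congr 1
  rw [Set.ncard_eq_three]
  exact ⟨t0, t1, t2, h01, h20.symm, h12, rfl⟩

private theorem ind_fill {S S' : Part D} {u : List D} {a : ℕ} (h : S.DiscFill S' u a) :
    S'.R.ncard = S.R.ncard + 3 * a := by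
  rcases h with ⟨_, h1, h2⟩ | ⟨_, V, _, h3⟩
  · rw [h1, h2]
    rfl
  · exact h3.R

/-- a step reveals `3 vol s` darts -/
private theorem ind_R {S S' : Part D} {x z : D} {s : Stp} (h : S.St x s S' z) :
    S'.R.ncard = S.R.ncard + 3 * s.vol := by
  cases s with
  | T =>
    obtain ⟨t0, t1, t2, hx, h0, h1, h2, h01, h12, h20, rfl, rfl⟩ := h
    rw [face_R]
    exact ind_three h0 h1 h2 h01 h12 h20
  | L k a =>
    obtain ⟨y, u, v, w, hx, hy, _, _, _, hf⟩ := h
    have h1 := ind_fill hf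
    rw [glue_R] at h1
    exact h1
  | R k a =>
    obtain ⟨y, u, v, w, hx, hy, _, _, _, hf⟩ := h
    have h1 := ind_fill hf
    rw [glue_R] at h1
    exact h1

private theorem ind_F {S S' : Part D} {x z : D} {s : Stp} (h : S.St x s S' z) {F : ℕ}
    (hF : S.R.ncard + 3 * F = Nat.card D) : S'.R.ncard + 3 * (F - s.vol) = Nat.card D := by
  have h1 := ind_R h
  have h2 : S'.R.ncard ≤ Nat.card D := by
    rw [← Set.ncard_univ]
    exact Set.ncard_le_ncard (Set.subset_univ _) (Set.toFinite _)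
  omega

/-- the first step of a local run -/
private theorem ind_fib (σ : List Stp → Part D → D → D) (Φ : Part D → D → Prop) (S S₁ : Part D) (x d : D) (W : ℕ)
    (hh w : List Stp) (s : Stp) :
    (({q : Part D × D | LRch σ S x W hh S₁ d (s :: w) q.1 q.2 ∧ Φ q.1 q.2}.ncard : ℕ) : ℝ) =
      ∑ᶠ b ∈ {b : Part D × D | LSt S S₁ x W d s b.1 b.2},
        (({q : Part D × D | LRch σ S x W (hh ++ [s]) b.1 (σ (hh ++ [s]) b.1 b.2) w q.1 q.2 ∧ Φ q.1 q.2}.ncard : ℕ) : ℝ) := by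
  have hA := fib_card {q : Part D × D | LRch σ S x W hh S₁ d (s :: w) q.1 q.2 ∧ Φ q.1 q.2}
    {b : Part D × D | LSt S S₁ x W d s b.1 b.2}
    (fun q b => LRch σ S x W (hh ++ [s]) b.1 (σ (hh ++ [s]) b.1 b.2) w q.1 q.2) ?_ ?_
  · rw [hA]
    refine finsum_mem_congr rfl ?_
    rintro ⟨S₂, z⟩ hb
    have hset : {a | a ∈ {q : Part D × D | LRch σ S x W hh S₁ d (s :: w) q.1 q.2 ∧ Φ q.1 q.2} ∧
        LRch σ S x W (hh ++ [s]) S₂ (σ (hh ++ [s]) S₂ z) w a.1 a.2} =
        {q : Part D × D | LRch σ S x W (hh ++ [s]) S₂ (σ (hh ++ [s]) S₂ z) w q.1 q.2 ∧ Φ q.1 q.2} := by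
      ext q
      exact ⟨fun hq => ⟨hq.2, hq.1.2⟩, fun hq => ⟨⟨⟨S₂, z, hb, hq.1⟩, hq.2⟩, hq.1⟩⟩
    show (({a | a ∈ {q : Part D × D | LRch σ S x W hh S₁ d (s :: w) q.1 q.2 ∧ Φ q.1 q.2} ∧
        LRch σ S x W (hh ++ [s]) S₂ (σ (hh ++ [s]) S₂ z) w a.1 a.2}.ncard : ℕ) : ℝ) = _
    rw [hset]
  · rintro q ⟨⟨S₂, z, h1, h2⟩, _⟩
    exact ⟨(S₂, z), h1, h2⟩
  · rintro q - ⟨S₂, z⟩ hb ⟨S₃, z₃⟩ hb' hr hr'
    obtain ⟨h1, h2⟩ := st_unique hb.1 hb'.1 (rchg_sub (lrch_rchg hr)) (rchg_sub (lrch_rchg hr'))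
    exact Prod.ext h1 h2

private theorem ind_mul {α : Type} [Finite α] (B : Set α) (f : α → ℝ) (K : ℝ) :
    (∑ᶠ b ∈ B, f b) * K = ∑ᶠ b ∈ B, f b * K := by
  rw [finsum_mem_eq_finite_toFinset_sum _ (Set.toFinite B), finsum_mem_eq_finite_toFinset_sum _ (Set.toFinite B),
    Finset.sum_mul]

private theorem ind_desc (F v m : ℕ) :
    (((3 * F).descFactorial (3 * (v + m)) : ℕ) : ℝ) =
      (((3 * (F - v)).descFactorial (3 * m) : ℕ) : ℝ) * (((3 * F).descFactorial (3 * v) : ℕ) : ℝ) := by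
  have h2 := Nat.descFactorial_mul_descFactorial (k := 3 * v) (m := 3 * (v + m)) (n := 3 * F) (by omega)
  have h3 : 3 * F - 3 * v = 3 * (F - v) := by omega
  have h4 : 3 * (v + m) - 3 * v = 3 * m := by omega
  rw [h3, h4] at h2
  rw [← h2, Nat.cast_mul]

theorem ind (hI : IRul σ σ' S x T y W) (Φ : Part D → D → Prop) (Φ' : Part E → E → Prop)
    (hΦ : ∀ (S' : Part D) (T' : Part E) (θ : D → E) (x' : D), Sim S S' x T T' y W θ → x' ∈ NW S S' x W → (Φ S' x' ↔ Φ' T' (θ x')))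
    (h : Sim S S₁ x T T₁ y W θ) (hd : d ∈ NW S S₁ x W) (hh w : List Stp) {F F' : ℕ}
    (hF : S₁.R.ncard + 3 * F = Nat.card D) (hF' : T₁.R.ncard + 3 * F' = Nat.card E) :
    (({q : Part D × D | LRch σ S x W hh S₁ d w q.1 q.2 ∧ Φ q.1 q.2}.ncard : ℕ) : ℝ) *
        (((3 * F').descFactorial (3 * wvol w) : ℕ) : ℝ) =
      (({q : Part E × E | LRch σ' T y W hh T₁ (θ d) w q.1 q.2 ∧ Φ' q.1 q.2}.ncard : ℕ) : ℝ) *
        (((3 * F).descFactorial (3 * wvol w) : ℕ) : ℝ) := by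
  induction w generalizing S₁ d T₁ θ hh F F' with
  | nil =>
    have h1 : Φ S₁ d ↔ Φ' T₁ (θ d) := hΦ S₁ T₁ θ d h hd
    have h2 : {q : Part D × D | LRch σ S x W hh S₁ d [] q.1 q.2 ∧ Φ q.1 q.2} =
        if Φ S₁ d then {(S₁, d)} else ∅ := by
      ext ⟨a, b⟩
      by_cases hp : Φ S₁ d
      · rw [if_pos hp]
        constructor
        · rintro ⟨⟨q1, q2⟩, _⟩
          exact Prod.ext q1 q2
        · intro hq
          obtain ⟨q1, q2⟩ := Prod.mk.inj (Set.mem_singleton_iff.1 hq)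
          subst q1
          subst q2
          exact ⟨⟨rfl, rfl⟩, hp⟩
      · rw [if_neg hp]
        constructor
        · rintro ⟨⟨q1, q2⟩, hq⟩
          have q1' : a = S₁ := q1
          have q2' : b = d := q2
          subst q1'
          subst q2'
          exact absurd hq hp
        · intro hq
          exact absurd hq (Set.notMem_empty _)
    have h3 : {q : Part E × E | LRch σ' T y W hh T₁ (θ d) [] q.1 q.2 ∧ Φ' q.1 q.2} =
        if Φ' T₁ (θ d) then {(T₁, θ d)} else ∅ := by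
      ext ⟨a, b⟩
      by_cases hp : Φ' T₁ (θ d)
      · rw [if_pos hp]
        constructor
        · rintro ⟨⟨q1, q2⟩, _⟩
          exact Prod.ext q1 q2
        · intro hq
          obtain ⟨q1, q2⟩ := Prod.mk.inj (Set.mem_singleton_iff.1 hq)
          subst q1
          subst q2
          exact ⟨⟨rfl, rfl⟩, hp⟩
      · rw [if_neg hp]
        constructor
        · rintro ⟨⟨q1, q2⟩, hq⟩
          have q1' : a = T₁ := q1
          have q2' : b = θ d := q2
          subst q1'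
          subst q2'
          exact absurd hq hp
        · intro hq
          exact absurd hq (Set.notMem_empty _)
    rw [h2, h3, wvol_nil, Nat.mul_zero, Nat.descFactorial_zero, Nat.descFactorial_zero]
    by_cases hp : Φ S₁ d
    · rw [if_pos hp, if_pos (h1.1 hp), Set.ncard_singleton, Set.ncard_singleton]
    · rw [if_neg hp, if_neg (fun h' => hp (h1.2 h')), Set.ncard_empty, Set.ncard_empty]
  | cons s w ih =>
    rw [ind_fib, ind_fib, wvol_cons, ind_desc, ind_desc, ← mul_assoc, ← mul_assoc,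
      ind_mul (α := Part D × D) _ _ (((3 * (F' - s.vol)).descFactorial (3 * wvol w) : ℕ) : ℝ),
      ind_mul (α := Part E × E) _ _ (((3 * (F - s.vol)).descFactorial (3 * wvol w) : ℕ) : ℝ)]
    refine sim_sum h hd s hF hF'
      (fun b => (({q : Part D × D | LRch σ S x W (hh ++ [s]) b.1 (σ (hh ++ [s]) b.1 b.2) w q.1 q.2 ∧ Φ q.1 q.2}.ncard : ℕ) : ℝ) *
        (((3 * (F' - s.vol)).descFactorial (3 * wvol w) : ℕ) : ℝ))
      (fun b => (({q : Part E × E | LRch σ' T y W (hh ++ [s]) b.1 (σ' (hh ++ [s]) b.1 b.2) w q.1 q.2 ∧ Φ' q.1 q.2}.ncard : ℕ) : ℝ) *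
        (((3 * (F - s.vol)).descFactorial (3 * wvol w) : ℕ) : ℝ)) ?_
    intro S₂ z T₂ z' θ' hs hs' hsim hz hz'
    subst hz'
    obtain ⟨h1, h2⟩ := hI (hh ++ [s]) S₂ T₂ θ' z hsim hz (st_sub hs.1).2.2
    have h3 := ih hsim h1 (hh ++ [s]) (F := F - s.vol) (F' := F' - s.vol) (ind_F hs.1 hF) (ind_F hs'.1 hF')
    show (({q : Part D × D | LRch σ S x W (hh ++ [s]) S₂ (σ (hh ++ [s]) S₂ z) w q.1 q.2 ∧ Φ q.1 q.2}.ncard : ℕ) : ℝ) *
        (((3 * (F' - s.vol)).descFactorial (3 * wvol w) : ℕ) : ℝ) =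
      (({q : Part E × E | LRch σ' T y W (hh ++ [s]) T₂ (σ' (hh ++ [s]) T₂ (θ' z)) w q.1 q.2 ∧ Φ' q.1 q.2}.ncard : ℕ) : ℝ) *
        (((3 * (F - s.vol)).descFactorial (3 * wvol w) : ℕ) : ℝ)
    rw [h2]
    exact h3

end Part
end SYS
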