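import Pool.Agent.SYS.Reg.LSt

/-!
# SYS-Reg-Loc: short words are local

PLAN.  Invariant of the nodes `S₁, d` of the run after a word `u` with `K = wk u`: (G) `d ∈ S₁.R \ S.R` or `d = bs x m` with `|m| ≤ K`; (U) every `b ∈ S.B` which is not `bs x m` with `|m| ≤ K` is in `S₁.B`.
MOVE: if `e ∈ S₁.B` satisfies (G) with `K`, then `S₁.nx e` satisfies (G) with `K + 1`: `b := S₁.nx e ∈ S₁.B ⊆ NB` (`sub_B`); if `b` is not new, `b ∈ S.B`, put `b' := S.nx⁻¹ b ∈ S.B`.  If `b` is not `bs x m` with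
`|m| ≤ K + 1` then `b'` is not `bs x m` with `|m| ≤ K`, so `b' ∈ S₁.B` by (U), and `S₁.nx b' = b`: `hv b' = S.nx (S₁.a b') = S.nx b' = b ∈ S₁.B` is the first return (`nx_hv`, `ret_eq`, `hv_old`); so `e = b'`
(injectivity of `nx`), contradicting (G) for `e`.  In the same way for `nx⁻¹` (`S₁.nx b = S.nx b` for `b' := S.nx b` ..).  So `nx^i d`, `i ≤ k + 2`, satisfy (G) with `K + i ≤ W`: the step is local.  After the step: `R k a`
glues `d`, `nx^(k+1) d` and fills `nx^i d`, `1 ≤ i ≤ k` (`FillBy.B`: the boundary loses only those): (U) with `K + k + 2`; `z = nx^(k+2) d` satisfies (G) with `K + k + 2`.  `L k a`: `z = nx d`, lost: `d`, `nx^(-i) d`, `i ≤ k + 1`.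
`T`: `z = t1` is new, lost: `d`.  The new gate is `z` or a new dart (`hg`); new darts of `S₁` are new darts of `S₂`.
-/

namespace SYS
namespace Part

open Classical SST

variable {D : Type} [Finite D] {S S' : Part D} {x x' : D} {W : ℕ} {σ : List Stp → Part D → D → D} {h w : List Stp}

private theorem nx_append' {S : Part D} {x d e : D} (hx : x ∈ S.B) {u v : List D} (hw : S.hw x = u ++ d :: e :: v) :
    S.nx d = e := by
  have h := S.hw_chain hx
  rw [hw] at h
  have h2 := (List.isChain_append.1 h).2.1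
  exact (List.isChain_cons_cons.1 h2).1

private theorem nx_last' {S : Part D} {x d : D} (hx : x ∈ S.B) {u : List D} (hw : S.hw x = u ++ [d]) : S.nx d = x := by
  obtain ⟨w, hw'⟩ := S.hw_cons hx
  have hd : d ∈ S.B := by
    have h1 : d ∈ S.hw x := by rw [hw]; simp
    exact ((S.mem_hw hx).1 h1).1
  rcases u with _ | ⟨a, u⟩
  · have h1 : d = x := by
      rw [hw', List.nil_append] at hw
      exact (List.cons_eq_cons.1 hw).1.symm
    have h2 := S.nx_mem.2 hd
    obtain ⟨h3, h4⟩ := nx_pow_same S hd 1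
    rw [pow_one] at h4
    have h5 : S.nx d ∈ S.hw x := by
      rw [S.mem_hw hx]
      exact ⟨h2, by rw [← h1]; exact h4⟩
    rw [hw] at h5
    have h6 : S.nx d = d := by simpa using h5
    rw [h6, h1]
  · have h1 : a = x := by
      rw [hw', List.cons_append] at hw
      exact (List.cons_eq_cons.1 hw).1.symm
    have h2 := S.hw_rot hx (u := a :: u) (v := []) hw
    rw [List.nil_append, h1] at h2
    exact nx_append' hd (u := []) (v := u) h2

/-- positions in the hole word, from the start -/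
private theorem hw_pos {S : Part D} {x : D} {e : D} {u v : List D} (hword : S.hw x = u ++ e :: v) :
    e = (S.nx ^ u.length) x := by
  have h1 : (S.hw x)[u.length]? = some e := by
    rw [hword, List.getElem?_append_right le_rfl, Nat.sub_self]
    rfl
  unfold hw at h1
  rw [List.getElem?_map] at h1
  obtain ⟨i, h2, h3⟩ := Option.map_eq_some_iff.1 h1
  have h4 := List.getElem?_eq_some_iff.1 h2
  obtain ⟨h5, h6⟩ := h4
  rw [List.getElem_range] at h6
  rw [← h3, ← h6]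

/-- positions in the hole word, from the end -/
private theorem hw_neg {S : Part D} {x : D} (hx : x ∈ S.B) (v : List D) : ∀ (e : D) (u : List D), S.hw x = u ++ e :: v →
    e = (S.nx⁻¹ ^ (v.length + 1)) x := by
  induction v with
  | nil =>
    intro e u hw
    have h1 := nx_last' hx hw
    rw [List.length_nil, zero_add, pow_one, Equiv.Perm.eq_inv_iff_eq]
    exact h1
  | cons f v ih =>
    intro e u hw
    have h1 := nx_append' hx hw
    have h2 := ih f (u ++ [e]) (by rw [hw]; simp)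
    rw [List.length_cons, pow_succ', Equiv.Perm.mul_apply, ← h2, Equiv.Perm.eq_inv_iff_eq]
    exact h1

private theorem nw_mono {S S₁ : Part D} {x : D} {K K' : ℕ} (h : K ≤ K') : NW S S₁ x K ⊆ NW S S₁ x K' := by
  rintro d (hd | ⟨m, hm, rfl⟩)
  · exact Or.inl hd
  · exact Or.inr ⟨m, hm.trans (by exact_mod_cast h), rfl⟩

private theorem nw_sub {S S₁ S₂ : Part D} {x : D} {K : ℕ} (h : S₁.Sub S₂) : NW S S₁ x K ⊆ NW S S₂ x K := by
  rintro d (hd | hd)
  · exact Or.inl ⟨h.R_sub hd.1, hd.2⟩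
  · exact Or.inr hd

/-- the successor of an old dart -/
private theorem nx_out {S S₁ : Part D} (hs : S.Sub S₁) {b : D} (hb : b ∈ S.B) (hb1 : b ∈ S₁.B) (hb2 : S.nx b ∈ S₁.B) :
    S₁.nx b = S.nx b := by
  have ha : S₁.a b = b := hb1.2
  have h1 : hv S S₁ b = S.nx b := by
    rw [hv_old hs (sub_B hs hb1) (by rw [ha]; exact hb), ha]
  rw [← nx_hv hs hb1]
  have h2 := ret_eq (hv S S₁) hb1 (j := 0) (by rw [zero_add, pow_one, h1]; exact hb2) (fun i hi => absurd hi (by omega))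
  rw [h2, zero_add, pow_one, h1]

private theorem bs_nx (S : Part D) (x : D) (m : ℤ) : S.nx (S.bs x m) = S.bs x (m + 1) := by
  unfold bs
  rw [← Equiv.Perm.mul_apply, ← zpow_one_add, add_comm]

private theorem bs_nx_inv (S : Part D) (x : D) (m : ℤ) : S.nx⁻¹ (S.bs x m) = S.bs x (m - 1) := by
  rw [Equiv.Perm.inv_eq_iff_eq, bs_nx]
  congr 1
  ring

private theorem in_win {S S₁ : Part D} {x : D} {K : ℕ} {b : D} (hb : b ∈ S.B) (h : b ∈ NW S S₁ x K) :
    ∃ m : ℤ, |m| ≤ K ∧ b = S.bs x m := by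
  rcases h with h | h
  · exact absurd hb.1 h.2
  · exact h

private theorem move_f {S S₁ : Part D} {x : D} {K : ℕ} (hs : S.Sub S₁)
    (hU : ∀ b ∈ S.B, b ∉ NW S S₁ x K → b ∈ S₁.B) {e : D} (he : e ∈ S₁.B) (hG : e ∈ NW S S₁ x K) :
    S₁.nx e ∈ NW S S₁ x (K + 1) := by
  have hb : S₁.nx e ∈ S₁.B := S₁.nx_mem.2 he
  rcases sub_B hs hb with hn | hb0
  · exact Or.inl hn
  by_contra hcon
  obtain ⟨b', hb'⟩ : ∃ b', S.nx b' = S₁.nx e := ⟨S.nx⁻¹ (S₁.nx e), by simp⟩
  have hb'B : b' ∈ S.B := by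
    rw [← S.nx_mem, hb']
    exact hb0
  have hout : b' ∉ NW S S₁ x K := by
    intro h
    obtain ⟨m, hm, hm2⟩ := in_win hb'B h
    apply hcon
    right
    refine ⟨m + 1, ?_, ?_⟩
    · calc |m + 1| ≤ |m| + |1| := abs_add_le m 1
        _ ≤ ((K + 1 : ℕ) : ℤ) := by rw [abs_one]; push_cast; linarith
    · rw [← hb', hm2, bs_nx]
  have h1 := nx_out hs hb'B (hU b' hb'B hout) (by rw [hb']; exact hb)
  rw [hb'] at h1
  have h2 : b' = e := S₁.nx.injective h1
  rw [h2] at hout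
  exact hout hG

private theorem move_b {S S₁ : Part D} {x : D} {K : ℕ} (hs : S.Sub S₁)
    (hU : ∀ b ∈ S.B, b ∉ NW S S₁ x K → b ∈ S₁.B) {e : D} (he : e ∈ S₁.B) (hG : e ∈ NW S S₁ x K) :
    S₁.nx⁻¹ e ∈ NW S S₁ x (K + 1) := by
  obtain ⟨b, hb⟩ : ∃ b, b = S₁.nx⁻¹ e := ⟨_, rfl⟩
  have hbe : S₁.nx b = e := by rw [hb]; simp
  rw [← hb]
  have hbB : b ∈ S₁.B := by
    rw [← S₁.nx_mem, hbe]
    exact he
  rcases sub_B hs hbB with hn | hb0
  · exact Or.inl hn
  by_contra hcon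
  have hnB : S.nx b ∈ S.B := S.nx_mem.2 hb0
  have hout : S.nx b ∉ NW S S₁ x K := by
    intro h
    obtain ⟨m, hm, hm2⟩ := in_win hnB h
    apply hcon
    right
    refine ⟨m - 1, ?_, ?_⟩
    · calc |m - 1| ≤ |m| + |1| := abs_sub m 1
        _ ≤ ((K + 1 : ℕ) : ℤ) := by rw [abs_one]; push_cast; linarith
    · rw [← bs_nx_inv, ← hm2]
      simp
  have h1 := nx_out hs hb0 hbB (hU _ hnB hout)
  rw [hbe] at h1
  rw [← h1] at hout
  exact hout hG

private theorem move_fp {S S₁ : Part D} {x : D} {K : ℕ} (hs : S.Sub S₁)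
    (hU : ∀ b ∈ S.B, b ∉ NW S S₁ x K → b ∈ S₁.B) {e : D} (he : e ∈ S₁.B) (hG : e ∈ NW S S₁ x K) (i : ℕ) :
    (S₁.nx ^ i) e ∈ S₁.B ∧ (S₁.nx ^ i) e ∈ NW S S₁ x (K + i) := by
  induction i with
  | zero => exact ⟨he, hG⟩
  | succ i ih =>
    rw [pow_succ', Equiv.Perm.mul_apply]
    refine ⟨S₁.nx_mem.2 ih.1, ?_⟩
    exact move_f hs (fun b hb h => hU b hb fun h' => h (nw_mono (Nat.le_add_right K i) h')) ih.1 ih.2

private theorem move_bp {S S₁ : Part D} {x : D} {K : ℕ} (hs : S.Sub S₁)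
    (hU : ∀ b ∈ S.B, b ∉ NW S S₁ x K → b ∈ S₁.B) {e : D} (he : e ∈ S₁.B) (hG : e ∈ NW S S₁ x K) (i : ℕ) :
    (S₁.nx⁻¹ ^ i) e ∈ S₁.B ∧ (S₁.nx⁻¹ ^ i) e ∈ NW S S₁ x (K + i) := by
  induction i with
  | zero => exact ⟨he, hG⟩
  | succ i ih =>
    rw [pow_succ', Equiv.Perm.mul_apply]
    refine ⟨?_, ?_⟩
    · rw [← S₁.nx_mem]
      simpa using ih.1
    · exact move_b hs (fun b hb h => hU b hb fun h' => h (nw_mono (Nat.le_add_right K i) h')) ih.1 ih.2

private theorem disc_B {G S₂ : Part D} {u : List D} {a : ℕ} (h : G.DiscFill S₂ u a) : S₂.B = G.B \ {d | d ∈ u} := by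
  rcases h with ⟨h1, -, h2⟩ | ⟨-, V, -, hf⟩
  · rw [h2, h1]
    simp
  · exact hf.B

private theorem ne_xy {S : Part D} {x y : D} (hx : x ∈ S.B) {u v : List D} (hw : S.hw x = x :: (u ++ y :: v)) : x ≠ y := by
  have h := S.hw_nodup hx
  rw [hw, List.nodup_cons] at h
  intro h1
  apply h.1
  rw [← h1]
  simp

private theorem wk_cons (s : Stp) (w : List Stp) : wk (s :: w) =
    (match s with | .T => 0 | .L k _ => k + 2 | .R k _ => k + 2) + wk w := by
  unfold wk
  rw [List.map_cons, List.sum_cons]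
  cases s <;> rfl

/-- one step -/
private theorem loc_st {S S₁ S₂ : Part D} {x d z : D} {K : ℕ} {s : Stp} (hx : x ∈ S.B) (hs : S.Sub S₁)
    (hU : ∀ b ∈ S.B, b ∉ NW S S₁ x K → b ∈ S₁.B) (hd : d ∈ S₁.B) (hG : d ∈ NW S S₁ x K)
    (hK : K + wk [s] ≤ W) (hst : S₁.St d s S₂ z) :
    LocS S S₁ x W d s ∧ z ∈ NW S S₂ x (K + wk [s]) ∧ ∀ b ∈ S.B, b ∉ NW S S₂ x (K + wk [s]) → b ∈ S₂.B := by
  have hsub := (st_sub hst).1
  have hmf := move_fp hs hU hd hG
  have hmb := move_bp hs hU hd hG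
  cases s with
  | T =>
    obtain ⟨t0, t1, t2, hx', h0, h1, h2, h01, h12, h20, hS', hz⟩ := hst
    have hwk : wk [Stp.T] = 0 := rfl
    rw [hwk, add_zero]
    refine ⟨trivial, ?_, ?_⟩
    · have h3 : z ∈ S₂.B := by
        rw [hS', face_B, hz]
        exact Or.inr (Or.inl rfl)
      left
      refine ⟨h3.1, fun h4 => ?_⟩
      rw [hz] at h4
      exact h1 (hs.R_sub h4)
    · intro b hb hout
      have hout1 : b ∉ NW S S₁ x K := fun h => hout (nw_sub hsub h)
      rw [hS', face_B]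
      refine Or.inl ⟨hU b hb hout1, fun h3 => ?_⟩
      have h4 : b = d := h3
      rw [h4] at hout1
      exact hout1 hG
  | R k a =>
    obtain ⟨y, u, v, w, hx', hy, hw, hk, hv, hD⟩ := hst
    have hwk : wk [Stp.R k a] = k + 2 := by rw [wk_cons]; rfl
    rw [hwk] at hK ⊢
    have hpu : ∀ e ∈ u, ∃ i : ℕ, i ≤ k ∧ e = (S₁.nx ^ i) d := by
      intro e he
      obtain ⟨u1, u2, rfl⟩ := List.append_of_mem he
      refine ⟨(d :: u1).length, ?_, hw_pos (u := d :: u1) (v := u2 ++ y :: v) (by rw [hw]; simp)⟩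
      rw [List.length_append, List.length_cons] at hk
      rw [List.length_cons]
      omega
    have hpy : y = (S₁.nx ^ (k + 1)) d := by
      have h1 := hw_pos (u := d :: u) (v := v) (e := y) (by rw [hw]; simp)
      rw [List.length_cons, hk] at h1
      exact h1
    have hpz : z = (S₁.nx ^ (k + 2)) d := by
      have h1 := hw_pos (u := d :: (u ++ [y])) (v := w) (e := z) (by rw [hw, hv]; simp)
      rw [List.length_cons, List.length_append, hk] at h1
      exact h1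
    refine ⟨?_, ?_, ?_⟩
    · intro i hi
      exact nw_mono (by omega) (hmf i).2
    · rw [hpz]
      exact nw_sub hsub (hmf (k + 2)).2
    · intro b hb hout
      have hout1 : ∀ i ≤ k + 2, b ≠ (S₁.nx ^ i) d := by
        intro i hi h
        apply hout
        rw [h]
        exact nw_sub hsub (nw_mono (by omega) (hmf i).2)
      rw [disc_B hD, glue_B S₁ hx' hy (ne_xy hx' hw)]
      refine ⟨⟨hU b hb fun h => hout (nw_sub hsub (nw_mono (by omega) h)), ?_⟩, ?_⟩
      · rintro (h | h)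
        · exact hout1 0 (by omega) h
        · exact hout1 (k + 1) (by omega) (by rw [← hpy]; exact h)
      · intro h
        obtain ⟨i, hi, h1⟩ := hpu b h
        exact hout1 i (by omega) h1
  | L k a =>
    obtain ⟨y, u, v, w, hx', hy, hw, hk, hu, hD⟩ := hst
    have hwk : wk [Stp.L k a] = k + 2 := by rw [wk_cons]; rfl
    rw [hwk] at hK ⊢
    have hpv : ∀ e ∈ v, ∃ i : ℕ, i ≤ k ∧ e = (S₁.nx⁻¹ ^ i) d := by
      intro e he
      obtain ⟨v1, v2, rfl⟩ := List.append_of_mem he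
      refine ⟨v2.length + 1, ?_, hw_neg hx' v2 e (d :: (u ++ y :: v1)) (by rw [hw]; simp)⟩
      rw [List.length_append, List.length_cons] at hk
      omega
    have hpy : y = (S₁.nx⁻¹ ^ (k + 1)) d := by
      have h1 := hw_neg hx' v y (d :: u) (by rw [hw]; simp)
      rw [hk] at h1
      exact h1
    have hpz : z = (S₁.nx ^ 1) d := by
      have h1 := hw_pos (u := [d]) (v := w ++ y :: v) (e := z) (by rw [hw, hu]; simp)
      exact h1
    refine ⟨⟨?_, ?_⟩, ?_, ?_⟩
    · have h1 := (hmf 1).2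
      rw [pow_one] at h1
      exact nw_mono (by omega) h1
    · intro i hi
      exact nw_mono (by omega) (hmb i).2
    · rw [hpz]
      exact nw_sub hsub (nw_mono (by omega) (hmf 1).2)
    · intro b hb hout
      have hout1 : ∀ i ≤ k + 2, b ≠ (S₁.nx⁻¹ ^ i) d := by
        intro i hi h
        apply hout
        rw [h]
        exact nw_sub hsub (nw_mono (by omega) (hmb i).2)
      rw [disc_B hD, glue_B S₁ hx' hy (ne_xy hx' hw)]
      refine ⟨⟨hU b hb fun h => hout (nw_sub hsub (nw_mono (by omega) h)), ?_⟩, ?_⟩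
      · rintro (h | h)
        · exact hout1 0 (by omega) h
        · exact hout1 (k + 1) (by omega) (by rw [← hpy]; exact h)
      · intro h
        obtain ⟨i, hi, h1⟩ := hpv b h
        exact hout1 i (by omega) h1

private theorem loc_aux (hσ : Rul σ) (hg : ∀ h S₁ z, S.Sub S₁ → z ∈ S₁.B → σ h S₁ z = z ∨ σ h S₁ z ∈ S₁.R \ S.R)
    (hx : x ∈ S.B) (w : List Stp) : ∀ (h : List Stp) (S₁ : Part D) (d : D) (K : ℕ), S.Sub S₁ →
    (∀ b ∈ S.B, b ∉ NW S S₁ x K → b ∈ S₁.B) → d ∈ S₁.B → d ∈ NW S S₁ x K → K + wk w ≤ W →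
    RchG σ h S₁ d w S' x' → LRch σ S x W h S₁ d w S' x' := by
  induction w with
  | nil =>
    intro h S₁ d K _ _ _ _ _ hr
    exact hr
  | cons s w ih =>
    intro h S₁ d K hs hU hd hG hK hr
    obtain ⟨S₂, z, hst, hr⟩ := hr
    have hw1 : wk (s :: w) = wk [s] + wk w := by
      rw [wk_cons, wk_cons]
      rfl
    obtain ⟨h1, h2, h3⟩ := loc_st (W := W) hx hs hU hd hG (by omega) hst
    have hsub := (st_sub hst).1
    have hz := (st_sub hst).2.2
    have hss := sub_trans hs hsub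
    refine ⟨S₂, z, ⟨hst, h1⟩, ih (h ++ [s]) S₂ _ (K + wk [s]) hss h3 (hσ (h ++ [s]) S₂ z hz).1 ?_ (by omega) hr⟩
    rcases hg (h ++ [s]) S₂ z hss hz with h4 | h4
    · rw [h4]
      exact h2
    · exact Or.inl h4

theorem loc_run (hσ : Rul σ) (hg : ∀ h S₁ z, S.Sub S₁ → z ∈ S₁.B → σ h S₁ z = z ∨ σ h S₁ z ∈ S₁.R \ S.R) (hx : x ∈ S.B)
    (hW : wk w ≤ W) (hp : 2 * W + 1 < S.per x) (hr : RchG σ h S x w S' x') : LRch σ S x W h S x w S' x' := by
  refine loc_aux hσ hg hx w h S x 0 (sub_refl S) (fun b hb _ => hb) hx (Or.inr ⟨0, by simp, ?_⟩) (by omega) hr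
  show x = (S.nx ^ (0 : ℤ)) x
  rw [zpow_zero]
  rfl

end Part
end SYS
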