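import Pool.Agent.SYS.Reg.LSt

/-!
# SYS-Reg-SimL: transport of a step `L k a`

PLAN.  As in `SYS/Reg/SimR.lean` on the other side.  `hst` gives `e`, `u`, `v`, `w`, `S₁.hw d = d :: (u ++ e :: v)`, `|v| = k`, `u = z :: w`, `(S₁.glue d e).DiscFill S₂ v a`.  The word is cyclic of length `p = per d`
with period `p` of `nx` at `d`: `v` is the list of `nx^(-i) d`, `i = k, .., 1`, `e = nx^(-(k+1)) d`, `z = nx d`; all in `NW` by locality, so `sim_nx_symm` (induction on `i`) and `sim_nx` give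
`T₁.nx^(-i) (θ d) = θ (nx^(-i) d)`, `T₁.nx (θ d) = θ z`.  Hence `T₁.hw (θ d) = θ d :: (u' ++ θ e :: v.map θ)` with `u' = θ z :: w'` (the darts `θ (nx^(-i) d)`, `i ≤ k + 1`, and `θ z` are distinct by injectivity of
`θ` on `NW`, so the hole of `θ d` has perimeter `≥ k + 3`).  `disc_tr` with `χ = pc S₁ S₂ θ ψ` (`hw_glue_split_right`).  The rest is as for `R`.
-/

namespace SYS
namespace Part

open Classical SST

variable {D E : Type} [Finite D] [Finite E] {S S₁ S₂ : Part D} {x d z : D} {T T₁ : Part E} {y : E} {W : ℕ} {θ ψ : D → E}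

private theorem sl_get (S : Part D) (x : D) (i : ℕ) (hi : i < (S.hw x).length) :
    (S.hw x)[i] = (S.nx ^ i) x := by
  simp only [hw, List.getElem_map, List.getElem_range]

private theorem sl_NW_R (h : Sim S S₁ x T T₁ y W θ) {c : D} (hc : c ∈ NW S S₁ x W) : c ∈ S₁.R := by
  rcases hc with hc | ⟨m, _, rfl⟩
  · exact hc.1
  · exact h.sub.R_sub (S.B_sub_R (bs_mem h.hx m))

private theorem sl_NW_R' (h : Sim S S₁ x T T₁ y W θ) {c : E} (hc : c ∈ NW T T₁ y W) : c ∈ T₁.R := by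
  rcases hc with hc | ⟨m, _, rfl⟩
  · exact hc.1
  · exact h.sub'.R_sub (T.B_sub_R (bs_mem h.hy m))

private theorem sl_th (h : Sim S S₁ x T T₁ y W θ) {c : D} (hc : c ∈ NW S S₁ x W) : θ c ∈ NW T T₁ y W := by
  rw [← sim_image h]
  exact ⟨c, hc, rfl⟩

/-- The window part of a hole word is transported. -/
private theorem sl_word (h : Sim S S₁ x T T₁ y W θ) {c : D} {l w : List D} (hc : c ∈ S₁.B)
    (hw' : S₁.hw c = c :: (l ++ w)) (hl : ∀ b ∈ c :: l, b ∈ NW S S₁ x W) :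
    (∃ w', T₁.hw (θ c) = θ c :: (l.map θ ++ w')) ∧
      ∀ i, i < (c :: l).length → (T₁.nx ^ i) (θ c) = θ ((S₁.nx ^ i) c) := by
  have hlen : (S₁.hw c).length = l.length + w.length + 1 := by
    rw [hw', List.length_cons, List.length_append]
  have hget : ∀ i (hi : i < (c :: l).length), (c :: l)[i] = (S₁.nx ^ i) c := by
    intro i hi
    rw [List.length_cons] at hi
    rw [← sl_get S₁ c i (by omega)]
    have h1 : S₁.hw c = (c :: l) ++ w := by rw [hw', List.cons_append]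
    simp only [h1]
    rw [List.getElem_append_left]
  have hNW : ∀ i, i < (c :: l).length → (S₁.nx ^ i) c ∈ NW S S₁ x W := by
    intro i hi
    rw [← hget i hi]
    exact hl _ (List.getElem_mem _)
  have hB : ∀ i : ℕ, (S₁.nx ^ i) c ∈ S₁.B := by
    intro i
    induction i with
    | zero => exact hc
    | succ i ih =>
      rw [pow_succ', Equiv.Perm.mul_apply, nx_mem]
      exact ih
  have hcB : θ c ∈ T₁.B := (sim_B h (hl c List.mem_cons_self)).2 hc
  have hpow : ∀ i, i < (c :: l).length → (T₁.nx ^ i) (θ c) = θ ((S₁.nx ^ i) c) := by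
    intro i
    induction i with
    | zero =>
      intro _
      rfl
    | succ i ih =>
      intro hi
      rw [pow_succ', Equiv.Perm.mul_apply, ih (by omega), pow_succ', Equiv.Perm.mul_apply]
      refine sim_nx h (hNW i (by omega)) (hB i) ?_
      rw [← Equiv.Perm.mul_apply, ← pow_succ']
      exact hNW _ hi
  have hBT : ∀ i : ℕ, (T₁.nx ^ i) (θ c) ∈ T₁.B := by
    intro i
    induction i with
    | zero => exact hcB
    | succ i ih =>
      rw [pow_succ', Equiv.Perm.mul_apply, nx_mem]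
      exact ih
  have hnd : (c :: l).Nodup := by
    have h1 := S₁.hw_nodup hc
    rw [hw', ← List.cons_append] at h1
    exact (List.nodup_append.1 h1).1
  have hnd' : ((c :: l).map θ).Nodup :=
    List.Nodup.map_on (fun a ha b hb hab => h.inj (hl a ha) (hl b hb) hab) hnd
  have hgetT : ∀ i (hi : i < ((c :: l).map θ).length), ((c :: l).map θ)[i] = (T₁.nx ^ i) (θ c) := by
    intro i hi
    rw [List.length_map] at hi
    rw [List.getElem_map, hget i hi, hpow i hi]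
  have hsub : (c :: l).map θ ⊆ T₁.hw (θ c) := by
    intro b hb
    obtain ⟨i, hi, rfl⟩ := List.getElem_of_mem hb
    rw [hgetT i hi, mem_hw T₁ hcB]
    exact ⟨hBT i, (nx_pow_same T₁ hcB i).2⟩
  have hle : ((c :: l).map θ).length ≤ (T₁.hw (θ c)).length :=
    (List.subperm_of_subset hnd' hsub).length_le
  refine ⟨⟨(T₁.hw (θ c)).drop ((c :: l).map θ).length, ?_⟩, hpow⟩
  rw [← List.cons_append, ← List.map_cons]
  conv_lhs => rw [← List.take_append_drop ((c :: l).map θ).length (T₁.hw (θ c))]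
  congr 1
  refine List.ext_getElem ?_ ?_
  · rw [List.length_take]
    exact min_eq_left hle
  · intro i h1 h2
    rw [List.getElem_take, sl_get, hgetT i h2]

omit [Finite D] in
private theorem sl_gx (P : Part D) {b c : D} (hb : b ∈ P.B) (hc : c ∈ P.B) : (P.glue b c hb hc).a b = c := by
  show (P.a * Equiv.swap b c) b = c
  rw [Equiv.Perm.mul_apply, Equiv.swap_apply_left, hc.2]

omit [Finite D] in
private theorem sl_gy (P : Part D) {b c : D} (hb : b ∈ P.B) (hc : c ∈ P.B) : (P.glue b c hb hc).a c = b := by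
  show (P.a * Equiv.swap b c) c = b
  rw [Equiv.Perm.mul_apply, Equiv.swap_apply_right, hb.2]

omit [Finite D] in
private theorem sl_gn (P : Part D) {b c : D} (hb : b ∈ P.B) (hc : c ∈ P.B) {d : D} (h1 : d ≠ b) (h2 : d ≠ c) :
    (P.glue b c hb hc).a d = P.a d := by
  show (P.a * Equiv.swap b c) d = P.a d
  rw [Equiv.Perm.mul_apply, Equiv.swap_apply_of_ne_of_ne h1 h2]

private theorem sl_df_sub {P P' : Part D} {m : List D} {a : ℕ} (hf : P.DiscFill P' m a) : P.Sub P' := by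
  rcases hf with ⟨_, _, rfl⟩ | ⟨_, V, _, hf⟩
  · exact sub_refl _
  · exact hf.sub

private theorem sl_df_a {P P' : Part D} {m : List D} {a : ℕ} (hf : P.DiscFill P' m a) {c : D} (hc : c ∈ P.R)
    (hm : c ∉ m) : P'.a c = P.a c := by
  rcases hf with ⟨_, _, rfl⟩ | ⟨_, V, _, hf⟩
  · rfl
  · by_cases h1 : P.a c = c
    · have h2 : c ∈ P'.B := by
        rw [hf.B]
        exact ⟨⟨hc, h1⟩, hm⟩
      rw [h1]
      exact h2.2
    · exact hf.sub.2 c h1

private theorem sl_df_cl {P P' : Part D} {m : List D} {a : ℕ} (hf : P.DiscFill P' m a) (hm : ∀ c ∈ m, c ∈ P.B) {c : D}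
    (hc : c ∈ (P'.R \ P.R) ∪ {d | d ∈ m}) : P'.a c ∈ (P'.R \ P.R) ∪ {d | d ∈ m} := by
  have hf' := hf
  rcases hf with ⟨rfl, _, rfl⟩ | ⟨_, V, _, hf⟩
  · rcases hc with hc | hc
    · exact absurd hc.1 hc.2
    · exact absurd hc List.not_mem_nil
  · have hR : c ∈ P'.R := hc.elim (fun h1 => h1.1) (fun h1 => hf.sub.R_sub (hm c h1).1)
    have hne : P'.a c ≠ c := by
      intro ha
      have hB : c ∈ P'.B := ⟨hR, ha⟩
      rw [hf.B] at hB
      rcases hc with h1 | h1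
      · exact h1.2 hB.1.1
      · exact hB.2 h1
    by_cases h2 : P'.a c ∈ P.R
    · right
      by_contra h3
      have h4 := sl_df_a hf' h2 h3
      rw [P'.aa] at h4
      have h8 : P.a c = P'.a c := (congrArg P.a h4).trans (P.aa _)
      have h5 : c ∈ P.R := (mem_R_a P c).1 (by rw [h8]; exact h2)
      rcases hc with h6 | h6
      · exact h6.2 h5
      · exact hne (h8.symm.trans (hm c h6).2)
    · exact Or.inl ⟨(mem_R_a P' c).2 hR, h2⟩

/-- Transport of a gluing followed by a filling. -/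
private theorem sl_core {a : ℕ} (h : Sim S S₁ x T T₁ y W θ) {d e : D} (hdB : d ∈ S₁.B) (heB : e ∈ S₁.B) (hde : d ≠ e)
    (hd : d ∈ NW S S₁ x W) (he : e ∈ NW S S₁ x W) (hdB' : θ d ∈ T₁.B) (heB' : θ e ∈ T₁.B) {m : List D}
    (hm : ∀ c ∈ m, c ∈ S₁.B ∧ c ∈ NW S S₁ x W ∧ c ≠ d ∧ c ≠ e)
    (hf : (S₁.glue d e hdB heB).DiscFill S₂ m a) (hψ : Set.InjOn ψ (S₂.R \ S₁.R)) (hn : ∀ e ∈ S₂.R \ S₁.R, ψ e ∉ T₁.R)
    (hu : ∀ z w, m = z :: w → (S₁.glue d e hdB heB).hw z = z :: w)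
    (hu' : ∀ z w, m = z :: w → (T₁.glue (θ d) (θ e) hdB' heB').hw (θ z) = θ z :: w.map θ) :
    ∃ T₂ : Part E, (T₁.glue (θ d) (θ e) hdB' heB').DiscFill T₂ (m.map θ) a ∧ T₂.R \ T₁.R = ψ '' (S₂.R \ S₁.R) ∧
      Sim S S₂ x T T₂ y W (pc S₁ S₂ θ ψ) := by
  have χn : ∀ c ∈ S₂.R \ S₁.R, pc S₁ S₂ θ ψ c = ψ c := fun c hc => if_pos hc
  have χo : ∀ c ∈ S₁.R, pc S₁ S₂ θ ψ c = θ c := fun c hc => if_neg (fun h => h.2 hc)
  have hmm : m.map (pc S₁ S₂ θ ψ) = m.map θ := List.map_congr_left fun c hc => χo c (hm c hc).1.1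
  have hde' : θ d ≠ θ e := fun h' => hde (h.inj hd he h')
  have hs : S₁.Sub S₂ := sub_trans (glue_sub S₁ hdB heB) (sl_df_sub hf)
  have hdis : ∀ c ∈ S₂.R \ S₁.R, ∀ c' ∈ NW S S₁ x W, pc S₁ S₂ θ ψ c ≠ pc S₁ S₂ θ ψ c' := by
    intro c hc c' hc' he'
    rw [χn c hc, χo c' (sl_NW_R h hc')] at he'
    apply hn c hc
    rw [he']
    exact sl_NW_R' h (sl_th h hc')
  have hinj : Set.InjOn (pc S₁ S₂ θ ψ) ((S₂.R \ S₁.R) ∪ NW S S₁ x W) := by
    intro c hc c' hc' hcc
    rcases hc with hc | hc <;> rcases hc' with hc' | hc'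
    · rw [χn c hc, χn c' hc'] at hcc
      exact hψ hc hc' hcc
    · exact absurd hcc (hdis c hc c' hc')
    · exact absurd hcc.symm (hdis c' hc' c hc)
    · rw [χo c (sl_NW_R h hc), χo c' (sl_NW_R h hc')] at hcc
      exact h.inj hc hc' hcc
  have hmB : ∀ c ∈ m, c ∈ (S₁.glue d e hdB heB).B := by
    intro c hc
    have h1 := hm c hc
    rw [glue_B _ _ _ hde]
    refine ⟨h1.1, ?_⟩
    rintro (h2 | h2)
    · exact h1.2.2.1 h2
    · exact h1.2.2.2 h2
  obtain ⟨T₂, hT, hR, hF, hA⟩ := disc_tr (S := S₁.glue d e hdB heB) (S' := S₂) (T := T₁.glue (θ d) (θ e) hdB' heB')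
    (u := m) (a := a) (fun z w hzw => ⟨hmB z (by rw [hzw]; exact List.mem_cons_self), hu z w hzw⟩) hf (pc S₁ S₂ θ ψ)
    (hinj.mono (Set.union_subset_union_right _ (fun c hc => (hm c hc).2.1)))
    (fun c hc => by rw [χn c hc]; exact hn c hc)
    (fun z w hzw => by
      have hz : z ∈ m := by rw [hzw]; exact List.mem_cons_self
      have h1 := hm z hz
      have h2 : w.map (pc S₁ S₂ θ ψ) = w.map θ := List.map_congr_left fun c hc =>
        χo c (hm c (by rw [hzw]; exact List.mem_cons_of_mem _ hc)).1.1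
      rw [χo z h1.1.1, h2]
      refine ⟨?_, hu' z w hzw⟩
      rw [glue_B _ _ _ hde']
      refine ⟨(sim_B h h1.2.1).2 h1.1, ?_⟩
      rintro (h3 | h3)
      · exact h1.2.2.1 (h.inj h1.2.1 hd h3)
      · exact h1.2.2.2 (h.inj h1.2.1 he h3))
  rw [hmm] at hT
  have hR' : T₂.R \ T₁.R = ψ '' (S₂.R \ S₁.R) := by
    have h1 : T₂.R \ T₁.R = pc S₁ S₂ θ ψ '' (S₂.R \ S₁.R) := hR
    rw [h1]
    exact Set.image_congr χn
  have hs' : T₁.Sub T₂ := sub_trans (glue_sub T₁ hdB' heB') (sl_df_sub hT)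
  have hNW : NW S S₂ x W = (S₂.R \ S₁.R) ∪ NW S S₁ x W := by
    ext c
    constructor
    · rintro (hc | hc)
      · by_cases h1 : c ∈ S₁.R
        · exact Or.inr (Or.inl ⟨h1, hc.2⟩)
        · exact Or.inl ⟨hc.1, h1⟩
      · exact Or.inr (Or.inr hc)
    · rintro (hc | hc | hc)
      · exact Or.inl ⟨hc.1, fun h1 => hc.2 (h.sub.R_sub h1)⟩
      · exact Or.inl ⟨hs.R_sub hc.1, hc.2⟩
      · exact Or.inr hc
  have hNW' : NW T T₁ y W ⊆ NW T T₂ y W := by
    rintro c (hc | hc)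
    · exact Or.inl ⟨hs'.R_sub hc.1, hc.2⟩
    · exact Or.inr hc
  have a2d : S₂.a d = e := by
    have h1 : (S₁.glue d e hdB heB).a d = e := sl_gx S₁ hdB heB
    rw [(sl_df_sub hf).2 d (by rw [h1]; exact hde.symm), h1]
  have a2e : S₂.a e = d := by
    have h1 : (S₁.glue d e hdB heB).a e = d := sl_gy S₁ hdB heB
    rw [(sl_df_sub hf).2 e (by rw [h1]; exact hde), h1]
  have t2d : T₂.a (θ d) = θ e := by
    have h1 : (T₁.glue (θ d) (θ e) hdB' heB').a (θ d) = θ e := sl_gx T₁ hdB' heB'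
    rw [(sl_df_sub hT).2 (θ d) (by rw [h1]; exact hde'.symm), h1]
  have t2e : T₂.a (θ e) = θ d := by
    have h1 : (T₁.glue (θ d) (θ e) hdB' heB').a (θ e) = θ d := sl_gy T₁ hdB' heB'
    rw [(sl_df_sub hT).2 (θ e) (by rw [h1]; exact hde'), h1]
  have a2 : ∀ c ∈ S₁.R, c ≠ d → c ≠ e → c ∉ m → S₂.a c = S₁.a c := fun c hc h1 h2 h3 => by
    rw [sl_df_a hf hc h3, sl_gn S₁ hdB heB h1 h2]
  have t2 : ∀ c ∈ T₁.R, c ≠ θ d → c ≠ θ e → c ∉ m.map θ → T₂.a c = T₁.a c := fun c hc h1 h2 h3 => by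
    rw [sl_df_a hT hc h3, sl_gn T₁ hdB' heB' h1 h2]
  refine ⟨T₂, hT, hR', ?_⟩
  refine ⟨sub_trans h.sub hs, sub_trans h.sub' hs', h.hx, h.hy, h.per, h.per', ?_, ?_, ?_, ?_, ?_, ?_, ?_⟩
  · rw [hNW]
    exact hinj
  · ext b
    constructor
    · rintro ⟨c, hc, rfl⟩
      by_cases h1 : c ∈ S₁.R
      · rw [χo c h1]
        have h2 : θ c ∈ T₁.R \ T.R := by
          rw [← h.new]
          exact ⟨c, ⟨h1, hc.2⟩, rfl⟩
        exact ⟨hs'.R_sub h2.1, h2.2⟩
      · rw [χn c ⟨hc.1, h1⟩]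
        have h2 : ψ c ∈ T₂.R \ T₁.R := by
          rw [hR']
          exact ⟨c, ⟨hc.1, h1⟩, rfl⟩
        exact ⟨h2.1, fun h3 => h2.2 (h.sub'.R_sub h3)⟩
    · rintro ⟨h1, h2⟩
      by_cases h3 : b ∈ T₁.R
      · have h4 : b ∈ θ '' (S₁.R \ S.R) := by
          rw [h.new]
          exact ⟨h3, h2⟩
        obtain ⟨c, hc, rfl⟩ := h4
        exact ⟨c, ⟨hs.R_sub hc.1, hc.2⟩, χo c hc.1⟩
      · have h4 : b ∈ ψ '' (S₂.R \ S₁.R) := by
          rw [← hR']
          exact ⟨h1, h3⟩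
        obtain ⟨c, hc, rfl⟩ := h4
        exact ⟨c, ⟨hc.1, fun h5 => hc.2 (h.sub.R_sub h5)⟩, χn c hc⟩
  · intro m' hm'
    rw [χo _ (h.sub.R_sub (S.B_sub_R (bs_mem h.hx m')))]
    exact h.base m' hm'
  · intro c hc
    by_cases h1 : c ∈ S₁.R
    · have h2 : S₂.f c = S₁.f c := hs.1 c h1
      rw [h2, χo c h1, χo _ ((mem_R_f S₁ c).2 h1), h.f c ⟨h1, hc.2⟩]
      exact (hs'.1 _ (sl_NW_R' h (sl_th h (Or.inl ⟨h1, hc.2⟩)))).symm
    · exact (hF c ⟨hc.1, h1⟩).symm
  · intro c hc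
    rw [hNW] at hc ⊢
    by_cases h1 : c ∈ (S₂.R \ S₁.R) ∪ {b | b ∈ m}
    · refine ⟨?_, (hA c h1).symm⟩
      rcases sl_df_cl hf hmB h1 with h2 | h2
      · exact Or.inl h2
      · exact Or.inr (hm _ h2).2.1
    · have h2 : c ∈ NW S S₁ x W := hc.resolve_left (fun h3 => h1 (Or.inl h3))
      have h3 : c ∉ m := fun h4 => h1 (Or.inr h4)
      have h4 : c ∈ S₁.R := sl_NW_R h h2
      by_cases h5 : c = d
      · subst h5
        rw [a2d, χo c h4, t2d, χo e heB.1]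
        exact ⟨Or.inr he, rfl⟩
      by_cases h6 : c = e
      · subst h6
        rw [a2e, χo c h4, t2e, χo d hdB.1]
        exact ⟨Or.inr hd, rfl⟩
      have h7 := h.a c h2
      have h8 : T₂.a (θ c) = T₁.a (θ c) := by
        refine t2 _ (sl_NW_R' h (sl_th h h2)) (fun h9 => h5 (h.inj h2 hd h9)) (fun h9 => h6 (h.inj h2 he h9)) ?_
        intro h9
        obtain ⟨b, hb, hb'⟩ := List.mem_map.1 h9
        have h10 := h.inj (hm b hb).2.1 h2 hb'
        exact h3 (h10 ▸ hb)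
      rw [a2 c h4 h5 h6 h3, χo c h4, χo _ ((mem_R_a S₁ c).2 h4), h8]
      exact ⟨Or.inr h7.1, h7.2⟩
  · intro c hc hcn
    rw [hNW] at hcn
    have h1 : c ∉ NW S S₁ x W := fun h2 => hcn (Or.inr h2)
    rw [a2 c (h.sub.R_sub (S.B_sub_R hc)) (fun h2 => h1 (h2 ▸ hd)) (fun h2 => h1 (h2 ▸ he))
      (fun h2 => h1 (hm c h2).2.1)]
    exact h.off c hc h1
  · intro c hc hcn
    have h1 : c ∉ NW T T₁ y W := fun h2 => hcn (hNW' h2)
    rw [t2 c (h.sub'.R_sub (T.B_sub_R hc)) (fun h2 => h1 (h2 ▸ sl_th h hd)) (fun h2 => h1 (h2 ▸ sl_th h he)) ?_]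
    · exact h.off' c hc h1
    · intro h2
      obtain ⟨b, hb, rfl⟩ := List.mem_map.1 h2
      exact h1 (sl_th h (hm b hb).2.1)

theorem sim_L {k a : ℕ} (h : Sim S S₁ x T T₁ y W θ) (hd : d ∈ NW S S₁ x W) (hst : LSt S S₁ x W d (.L k a) S₂ z)
    (hψ : Set.InjOn ψ (S₂.R \ S₁.R)) (hn : ∀ e ∈ S₂.R \ S₁.R, ψ e ∉ T₁.R) :
    ∃ (T₂ : Part E) (z' : E), LSt T T₁ y W (θ d) (.L k a) T₂ z' ∧ T₂.R \ T₁.R = ψ '' (S₂.R \ S₁.R) ∧
      Sim S S₂ x T T₂ y W (pc S₁ S₂ θ ψ) ∧ z ∈ NW S S₂ x W ∧ z' = pc S₁ S₂ θ ψ z := by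
  obtain ⟨⟨e, u, v, w, hdB, heB, hw', hk, hu, hf⟩, hz1, hloc⟩ := hst
  subst hu
  have hn1 := S₁.hw_nodup hdB
  rw [hw'] at hn1
  obtain ⟨n1, n2⟩ := List.nodup_cons.1 hn1
  obtain ⟨n3, n4, n5⟩ := List.nodup_append.1 n2
  obtain ⟨n6, n7⟩ := List.nodup_cons.1 n4
  have hde : d ≠ e := by
    intro h1
    apply n1
    rw [h1]
    exact List.mem_append.2 (Or.inr List.mem_cons_self)
  have hrot : S₁.hw e = e :: (v ++ (d :: z :: w)) := by
    have h1 : S₁.hw d = (d :: z :: w) ++ e :: v := hw'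
    exact S₁.hw_rot hdB h1
  have hpow : ∀ i, i ≤ k + 1 → (S₁.nx ^ i) e = (S₁.nx⁻¹ ^ (k + 1 - i)) d := by
    have h1 : (S₁.nx ^ (k + 1)) e = d := by
      have hlt : k + 1 < (S₁.hw e).length := by
        rw [hrot]
        simp only [List.length_cons, List.length_append]
        omega
      rw [← sl_get S₁ e (k + 1) hlt]
      simp only [hrot, List.getElem_cons_succ]
      rw [List.getElem_append_right (by omega)]
      simp only [hk, Nat.sub_self, List.getElem_cons_zero]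
    intro i hi
    rw [← h1, inv_pow, ← Equiv.Perm.mul_apply]
    congr 1
    rw [eq_inv_mul_iff_mul_eq, ← pow_add]
    congr 1
    omega
  have hNW1 : ∀ i, i ≤ k + 1 → (S₁.nx ^ i) e ∈ NW S S₁ x W := by
    intro i hi
    rw [hpow i hi]
    exact hloc _ (by omega)
  have hze : S₁.nx d = z := by
    have hlt : 1 < (S₁.hw d).length := by
      rw [hw']
      simp only [List.length_cons, List.length_append]
      omega
    have h1 := sl_get S₁ d 1 hlt
    rw [pow_one] at h1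
    rw [← h1]
    simp only [hw', List.cons_append, List.getElem_cons_succ, List.getElem_cons_zero]
  rw [hze] at hz1
  have hev : ∀ b ∈ e :: (v ++ [d, z]), b ∈ NW S S₁ x W := by
    have h0 : ∀ b ∈ e :: v, b ∈ NW S S₁ x W := by
      intro b hb
      obtain ⟨i, hi, rfl⟩ := List.getElem_of_mem hb
      have hi' : i < (S₁.hw e).length := by
        rw [hrot]
        simp only [List.length_cons, List.length_append] at hi ⊢
        omega
      have h1 : S₁.hw e = (e :: v) ++ (d :: z :: w) := by rw [hrot, List.cons_append]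
      have h2 := sl_get S₁ e i hi'
      simp only [h1] at h2
      rw [List.getElem_append_left hi] at h2
      rw [h2]
      refine hNW1 i ?_
      rw [List.length_cons] at hi
      omega
    intro b hb
    rw [← List.cons_append, List.mem_append] at hb
    rcases hb with hb | hb
    · exact h0 b hb
    · rw [List.mem_cons, List.mem_singleton] at hb
      rcases hb with rfl | rfl
      · exact hd
      · exact hz1
  have he : e ∈ NW S S₁ x W := hev e List.mem_cons_self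
  have hdB' : θ d ∈ T₁.B := (sim_B h hd).2 hdB
  have heB' : θ e ∈ T₁.B := (sim_B h he).2 heB
  obtain ⟨⟨w', hwT⟩, hpT⟩ := sl_word h (c := e) (l := v ++ [d, z]) (w := w) heB
    (by rw [hrot, List.append_assoc]; rfl) hev
  have hwT1 : T₁.hw (θ e) = (θ e :: v.map θ) ++ θ d :: (θ z :: w') := by
    rw [hwT, List.map_append, List.append_assoc, List.cons_append]
    rfl
  have hwT2 : T₁.hw (θ d) = θ d :: ((θ z :: w') ++ θ e :: v.map θ) := T₁.hw_rot heB' hwT1
  have hv : ∀ c ∈ v, c ∈ S₁.B ∧ c ∈ NW S S₁ x W ∧ c ≠ d ∧ c ≠ e := by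
    intro c hc
    refine ⟨?_, hev c (List.mem_cons_of_mem _ (List.mem_append_left _ hc)), ?_, ?_⟩
    · refine ((mem_hw S₁ hdB).1 ?_).1
      rw [hw']
      exact List.mem_cons_of_mem _ (List.mem_append_right _ (List.mem_cons_of_mem _ hc))
    · rintro rfl
      exact n1 (List.mem_append_right _ (List.mem_cons_of_mem _ hc))
    · rintro rfl
      exact n6 hc
  obtain ⟨T₂, hT, hR, hS⟩ := sl_core h hdB heB hde hd he hdB' heB' hv hf hψ hn
    (fun b l hbl => by rw [← hbl]; exact hw_glue_split_right S₁ hdB heB hw' hbl)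
    (fun b l hbl => by
      rw [hw_glue_split_right T₁ hdB' heB' hwT2 (z := θ b) (w := l.map θ) (by rw [hbl, List.map_cons]), hbl, List.map_cons])
  have hzR : z ∈ S₁.R := sl_NW_R h hz1
  refine ⟨T₂, θ z, ⟨⟨θ e, θ z :: w', v.map θ, w', hdB', heB', hwT2, by rw [List.length_map, hk], rfl, hT⟩, ?_, ?_⟩,
    hR, hS, ?_, ?_⟩
  · rw [sim_nx h hd hdB (by rw [hze]; exact hz1), hze]
    exact sl_th h hz1
  · intro i hi
    have h1 : (T₁.nx⁻¹ ^ i) (θ d) = θ ((S₁.nx ^ (k + 1 - i)) e) := by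
      have h2 : k + 1 < (e :: (v ++ [d, z])).length := by
        simp only [List.length_cons, List.length_append, List.length_nil]
        omega
      have h3 := hpT (k + 1) h2
      have h4 : (S₁.nx ^ (k + 1)) e = d := by
        rw [hpow (k + 1) le_rfl, Nat.sub_self, pow_zero, Equiv.Perm.one_apply]
      rw [h4] at h3
      rw [← hpT (k + 1 - i) (by omega), ← h3, inv_pow, ← Equiv.Perm.mul_apply]
      congr 1
      rw [inv_mul_eq_iff_eq_mul, ← pow_add]
      congr 1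
      omega
    rw [h1]
    exact sl_th h (hNW1 _ (by omega))
  · rcases hz1 with h1 | h1
    · exact Or.inl ⟨(sub_trans (glue_sub S₁ hdB heB) (sl_df_sub hf)).R_sub h1.1, h1.2⟩
    · exact Or.inr h1
  · exact (if_neg (fun h1 => h1.2 hzR)).symm

end Part
end SYS
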