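import Pool.Agent.SYS.Reg.LSt

/-!
# SYS-Reg-SimR: transport of a step `R k a`

The darts `nx^i d`, `i ≤ k + 2`, are in `NW`, so `θ` carries the first `k + 3` entries of the hole word over; the
filling of the swallowed hole is carried over by `disc_tr`.
-/

namespace SYS
namespace Part

open Classical SST

variable {D E : Type} [Finite D] [Finite E] {S S₁ S₂ : Part D} {x d z : D} {T T₁ : Part E} {y : E} {W : ℕ} {θ ψ : D → E}

private theorem sr_df {S S' : Part D} {u : List D} {a : ℕ} (hf : S.DiscFill S' u a) :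
    S.Sub S' ∧ S'.B = S.B \ {d | d ∈ u} := by
  rcases hf with ⟨rfl, _, rfl⟩ | ⟨_, V, _, hf⟩
  · refine ⟨sub_refl _, ?_⟩
    ext c
    exact ⟨fun hc => ⟨hc, fun h => absurd h List.not_mem_nil⟩, fun hc => hc.1⟩
  · exact ⟨hf.sub, hf.B⟩

private theorem sr_ga (S : Part D) {x y : D} (hx : x ∈ S.B) (hy : y ∈ S.B) : (S.glue x y hx hy).a x = y := by
  show (S.a * Equiv.swap x y) x = y
  rw [Equiv.Perm.mul_apply, Equiv.swap_apply_left]
  exact hy.2

private theorem sr_gb (S : Part D) {x y : D} (hx : x ∈ S.B) (hy : y ∈ S.B) : (S.glue x y hx hy).a y = x := by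
  show (S.a * Equiv.swap x y) y = x
  rw [Equiv.Perm.mul_apply, Equiv.swap_apply_right]
  exact hx.2

private theorem sr_gn (S : Part D) {x y : D} (hx : x ∈ S.B) (hy : y ∈ S.B) {c : D} (h1 : c ≠ x) (h2 : c ≠ y) :
    (S.glue x y hx hy).a c = S.a c := by
  show (S.a * Equiv.swap x y) c = S.a c
  rw [Equiv.Perm.mul_apply, Equiv.swap_apply_of_ne_of_ne h1 h2]

/-- the other darts are not touched -/
private theorem sr_old {S S' : Part D} {x y : D} (hx : x ∈ S.B) (hy : y ∈ S.B) {u : List D} {a : ℕ}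
    (hf : (S.glue x y hx hy).DiscFill S' u a) {c : D} (hc : c ∈ S.R) (h1 : c ≠ x) (h2 : c ≠ y) (h3 : c ∉ u) :
    S'.a c = S.a c := by
  obtain ⟨hs, hB⟩ := sr_df hf
  rw [← sr_gn S hx hy h1 h2]
  by_cases h4 : (S.glue x y hx hy).a c = c
  · have h5 : c ∈ S'.B := by
      rw [hB]
      exact ⟨⟨hc, h4⟩, h3⟩
    rw [h4]
    exact h5.2
  · exact hs.2 c h4

/-- the new darts and the swallowed hole are glued among themselves -/
private theorem sr_new {S S' : Part D} {x y : D} (hx : x ∈ S.B) (hy : y ∈ S.B) {u : List D} {a : ℕ}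
    (hf : (S.glue x y hx hy).DiscFill S' u a) (hu : ∀ c ∈ u, c ∈ (S.glue x y hx hy).B) {c : D}
    (hc : c ∈ (S'.R \ S.R) ∪ {c | c ∈ u}) : S'.a c ∈ (S'.R \ S.R) ∪ {c | c ∈ u} := by
  obtain ⟨hs, hB⟩ := sr_df hf
  have hcR : c ∈ S'.R := by
    rcases hc with h | h
    · exact h.1
    · exact hs.R_sub (B_sub_R _ (hu c h))
  by_cases h1 : S'.a c ∈ S.R
  · right
    show S'.a c ∈ u
    by_contra h2
    have h3 : (S.glue x y hx hy).a (S'.a c) = S'.a c := by
      by_contra h4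
      have h5 := hs.2 _ h4
      rw [S'.aa] at h5
      have h6 : c ∈ (S.glue x y hx hy).R := by
        rw [h5, mem_R_a]
        exact h1
      rcases hc with h7 | h7
      · exact h7.2 h6
      · have h8 := (hu c h7).2
        apply h4
        have h9 := (S.glue x y hx hy).aa (S'.a c)
        rw [← h5, h8] at h9
        rw [← h9]
        exact h8
    have h4 : S'.a c ∈ S'.B := by
      rw [hB]
      exact ⟨⟨h1, h3⟩, h2⟩
    have h5 := h4.2
    rw [S'.aa] at h5
    rcases hc with h6 | h6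
    · refine h6.2 ?_
      rw [h5]
      exact h1
    · refine h2 ?_
      rw [← h5]
      exact h6
  · left
    exact ⟨(mem_R_a S' c).2 hcR, h1⟩

private theorem sr_hw (S : Part D) {x : D} {k r : ℕ} (h : S.per x = k + 3 + r) :
    S.hw x = x :: ((List.range k).map (fun i => (S.nx ^ (i + 1)) x) ++ (S.nx ^ (k + 1)) x ::
      (S.nx ^ (k + 2)) x :: (List.range r).map fun i => (S.nx ^ (k + 3 + i)) x) := by
  unfold hw
  rw [h, List.range_add, List.map_append, show k + 3 = (k + 2) + 1 from rfl, List.range_succ, List.map_append,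
    List.range_succ, List.map_append, List.range_succ_eq_map, List.map_cons, List.map_map, List.map_map]
  simp only [List.map_cons, List.map_nil, List.cons_append, List.append_assoc, List.nil_append, pow_zero,
    Equiv.Perm.one_apply]
  rfl

private theorem sr_mono {S S₁ S₂ : Part D} {x : D} {W : ℕ} (h1 : S.Sub S₁) (h2 : S₁.Sub S₂) :
    NW S S₂ x W = (S₂.R \ S₁.R) ∪ NW S S₁ x W := by
  unfold NW
  ext c
  constructor
  · rintro (h | h)
    · by_cases hc : c ∈ S₁.R
      · exact Or.inr (Or.inl ⟨hc, h.2⟩)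
      · exact Or.inl ⟨h.1, hc⟩
    · exact Or.inr (Or.inr h)
  · rintro (h | h | h)
    · exact Or.inl ⟨h.1, fun hc => h.2 (h1.R_sub hc)⟩
    · exact Or.inl ⟨h2.R_sub h.1, h.2⟩
    · exact Or.inr h

private theorem sr_NW_R {S S₁ : Part D} {x : D} {W : ℕ} (h1 : S.Sub S₁) (hx : x ∈ S.B) {c : D} (hc : c ∈ NW S S₁ x W) :
    c ∈ S₁.R := by
  rcases hc with h | ⟨m, _, rfl⟩
  · exact h.1
  · exact h1.R_sub (B_sub_R _ (bs_mem hx m))

theorem sim_R {k a : ℕ} (h : Sim S S₁ x T T₁ y W θ) (hd : d ∈ NW S S₁ x W) (hst : LSt S S₁ x W d (.R k a) S₂ z)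
    (hψ : Set.InjOn ψ (S₂.R \ S₁.R)) (hn : ∀ e ∈ S₂.R \ S₁.R, ψ e ∉ T₁.R) :
    ∃ (T₂ : Part E) (z' : E), LSt T T₁ y W (θ d) (.R k a) T₂ z' ∧ T₂.R \ T₁.R = ψ '' (S₂.R \ S₁.R) ∧
      Sim S S₂ x T T₂ y W (pc S₁ S₂ θ ψ) ∧ z ∈ NW S S₂ x W ∧ z' = pc S₁ S₂ θ ψ z := by
  obtain ⟨hst1, hloc⟩ := hst
  have hsub2 := (st_sub hst1).1
  obtain ⟨e, u, v, w, hx, hy, hw, hk, hv, hf⟩ := hst1
  subst hv
  have hloc' : ∀ i : ℕ, i ≤ k + 2 → (S₁.nx ^ i) d ∈ NW S S₁ x W := hloc
  have hB : ∀ i : ℕ, (S₁.nx ^ i) d ∈ S₁.B := fun i => (nx_pow_same S₁ hx i).1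
  have hT : ∀ i : ℕ, i ≤ k + 2 → (T₁.nx ^ i) (θ d) = θ ((S₁.nx ^ i) d) := by
    intro i
    induction i with
    | zero =>
      intro _
      rfl
    | succ i ih =>
      intro hi
      rw [pow_succ', Equiv.Perm.mul_apply, ih (by omega), pow_succ', Equiv.Perm.mul_apply]
      refine sim_nx h (hloc' i (by omega)) (hB i) ?_
      rw [← Equiv.Perm.mul_apply, ← pow_succ']
      exact hloc' (i + 1) hi
  have hnwR : ∀ c ∈ NW S S₁ x W, c ∈ S₁.R := fun c hc => sr_NW_R h.sub h.hx hc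
  have hnwT : ∀ c ∈ NW S S₁ x W, θ c ∈ NW T T₁ y W := by
    intro c hc
    rw [← sim_image h]
    exact ⟨c, hc, rfl⟩
  have hnwTR : ∀ c ∈ NW S S₁ x W, θ c ∈ T₁.R := fun c hc => sr_NW_R h.sub' h.hy (hnwT c hc)
  -- the hole words
  have hper : S₁.per d = k + 3 + w.length := by
    rw [← hw_length S₁ hx, hw]
    simp only [List.length_cons, List.length_append, hk]
    omega
  have hwS := sr_hw S₁ (x := d) hper
  rw [hw, List.cons.injEq] at hwS
  obtain ⟨hu, h2⟩ := List.append_inj hwS.2 (by rw [hk, List.length_map, List.length_range])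
  rw [List.cons.injEq, List.cons.injEq] at h2
  obtain ⟨he, hz, -⟩ := h2
  have heN : e ∈ NW S S₁ x W := by
    rw [he]
    exact hloc' _ (by omega)
  have hzN : z ∈ NW S S₁ x W := by
    rw [hz]
    exact hloc' _ (by omega)
  have huN : ∀ c ∈ u, c ∈ NW S S₁ x W := by
    intro c hc
    rw [hu, List.mem_map] at hc
    obtain ⟨i, hi, rfl⟩ := hc
    rw [List.mem_range] at hi
    exact hloc' _ (by omega)
  have hinj : ∀ i < k + 3, ∀ j < k + 3, (S₁.nx ^ i) d = (S₁.nx ^ j) d → i = j := by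
    have h1 := S₁.hw_nodup hx
    unfold Part.hw at h1
    intro i hi j hj hij
    exact List.inj_on_of_nodup_map h1 (List.mem_range.2 (by omega)) (List.mem_range.2 (by omega)) hij
  have hTB : θ d ∈ T₁.B := (sim_B h hd).2 hx
  have hTe : θ e ∈ T₁.B := (sim_B h heN).2 hy
  have hperT : k + 3 ≤ T₁.per (θ d) := by
    have h1 : (((Finset.range (k + 3)).image fun i : ℕ => (T₁.nx ^ i) (θ d) : Finset E) : Set E) ⊆ T₁.hole (θ d) := by
      intro c hc
      rw [Finset.mem_coe, Finset.mem_image] at hc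
      obtain ⟨i, hi, rfl⟩ := hc
      exact nx_pow_same T₁ hTB i
    have h2 : ((Finset.range (k + 3)).image fun i : ℕ => (T₁.nx ^ i) (θ d)).card = k + 3 := by
      rw [Finset.card_image_of_injOn, Finset.card_range]
      intro i hi j hj hij
      rw [Finset.mem_coe, Finset.mem_range] at hi hj
      beta_reduce at hij
      rw [hT i (by omega), hT j (by omega)] at hij
      exact hinj i hi j hj (h.inj (hloc' i (by omega)) (hloc' j (by omega)) hij)
    have h3 := Set.ncard_le_ncard h1 (Set.toFinite _)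
    rw [Set.ncard_coe_finset, h2] at h3
    exact h3
  obtain ⟨r, hr⟩ : ∃ r, T₁.per (θ d) = k + 3 + r := ⟨T₁.per (θ d) - (k + 3), by omega⟩
  have hwT := sr_hw T₁ (x := θ d) hr
  have hmap : (List.range k).map (fun i => (T₁.nx ^ (i + 1)) (θ d)) = u.map θ := by
    rw [hu, List.map_map]
    refine List.map_congr_left fun i hi => ?_
    rw [List.mem_range] at hi
    exact hT (i + 1) (by omega)
  rw [hmap, hT (k + 1) (by omega), hT (k + 2) (by omega), ← he, ← hz] at hwT
  obtain ⟨w', hw'⟩ : ∃ w' : List E, w' = (List.range r).map fun i => (T₁.nx ^ (k + 3 + i)) (θ d) := ⟨_, rfl⟩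
  rw [← hw'] at hwT
  -- distinctness in the words
  have hnd := S₁.hw_nodup hx
  rw [hw, List.nodup_cons, List.mem_append, List.mem_cons, List.nodup_append, List.nodup_cons] at hnd
  have hde : d ≠ e := fun hc => hnd.1 (Or.inr (Or.inl hc))
  have hdu : d ∉ u := fun hc => hnd.1 (Or.inl hc)
  have heu : e ∉ u := fun hc => hnd.2.2.2 e hc e List.mem_cons_self rfl
  have huB : ∀ c ∈ u, c ∈ (S₁.glue d e hx hy).B := by
    intro c hc
    rw [glue_B _ _ _ hde]
    refine ⟨?_, ?_⟩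
    · have h3 : c ∈ S₁.hw d := by
        rw [hw, List.mem_cons, List.mem_append]
        exact Or.inr (Or.inl hc)
      exact ((mem_hw S₁ hx).1 h3).1
    · rw [Set.mem_insert_iff, Set.mem_singleton_iff]
      rintro (rfl | rfl)
      · exact hdu hc
      · exact heu hc
  have hinjN := h.inj
  have hθde : θ d ≠ θ e := fun hc => hde (hinjN hd heN hc)
  have hθu : ∀ c ∈ NW S S₁ x W, θ c ∈ u.map θ → c ∈ u := by
    intro c hc hcu
    obtain ⟨c', hc', he'⟩ := List.mem_map.1 hcu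
    rw [← hinjN (huN c' hc') hc he']
    exact hc'
  have huBT : ∀ c ∈ u.map θ, c ∈ (T₁.glue (θ d) (θ e) hTB hTe).B := by
    intro c hc
    rw [glue_B _ _ _ hθde]
    refine ⟨?_, ?_⟩
    · have h3 : c ∈ T₁.hw (θ d) := by
        rw [hwT, List.mem_cons, List.mem_append]
        exact Or.inr (Or.inl hc)
      exact ((mem_hw T₁ hTB).1 h3).1
    · rw [Set.mem_insert_iff, Set.mem_singleton_iff]
      rintro (rfl | rfl)
      · exact hdu (hθu d hd hc)
      · exact heu (hθu e heN hc)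
  -- the isomorphism
  obtain ⟨χ, hχ⟩ : ∃ χ : D → E, χ = pc S₁ S₂ θ ψ := ⟨_, rfl⟩
  have hχo : ∀ c ∈ S₁.R, χ c = θ c := by
    intro c hc
    rw [hχ]
    exact if_neg fun h' => h'.2 hc
  have hχn : ∀ c ∈ S₂.R \ S₁.R, χ c = ψ c := by
    intro c hc
    rw [hχ]
    exact if_pos hc
  have hχN : ∀ c ∈ NW S S₁ x W, χ c = θ c := fun c hc => hχo c (hnwR c hc)
  have hum : u.map χ = u.map θ := List.map_congr_left fun c hc => hχN c (huN c hc)
  have hχinj : Set.InjOn χ ((S₂.R \ S₁.R) ∪ NW S S₁ x W) := by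
    rintro c (hc | hc) c' (hc' | hc') hcc
    · rw [hχn c hc, hχn c' hc'] at hcc
      exact hψ hc hc' hcc
    · rw [hχn c hc, hχN c' hc'] at hcc
      refine absurd ?_ (hn c hc)
      rw [hcc]
      exact hnwTR c' hc'
    · rw [hχN c hc, hχn c' hc'] at hcc
      refine absurd ?_ (hn c' hc')
      rw [← hcc]
      exact hnwTR c hc
    · rw [hχN c hc, hχN c' hc'] at hcc
      exact hinjN hc hc' hcc
  obtain ⟨T₂, g1, g2, g3, g4⟩ := disc_tr (S := S₁.glue d e hx hy) (S' := S₂)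
    (T := T₁.glue (θ d) (θ e) hTB hTe) (u := u) (a := a)
    (fun z1 w1 h1 => ⟨huB z1 (by rw [h1]; exact List.mem_cons_self), by
      rw [← h1]
      exact hw_glue_split_left S₁ hx hy hw h1⟩) hf χ
    (hχinj.mono (by
      rintro c (hc | hc)
      · exact Or.inl hc
      · exact Or.inr (huN c hc)))
    (fun c hc => by
      rw [hχn c hc]
      exact hn c hc)
    (fun z1 w1 h1 => ⟨by
      rw [hχN z1 (huN z1 (by rw [h1]; exact List.mem_cons_self))]
      refine huBT _ ?_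
      rw [h1, List.map_cons]
      exact List.mem_cons_self, by
      have h3 : u.map χ = χ z1 :: w1.map χ := by rw [h1, List.map_cons]
      rw [← h3, hum]
      refine hw_glue_split_left T₁ hTB hTe hwT (w := w1.map χ) ?_
      rw [← hum]
      exact h3⟩)
  rw [hum] at g1
  have g2' : T₂.R \ T₁.R = ψ '' (S₂.R \ S₁.R) := by
    have h3 : T₂.R \ T₁.R = χ '' (S₂.R \ S₁.R) := g2
    rw [h3]
    exact Set.image_congr hχn
  have hstT : T₁.St (θ d) (.R k a) T₂ (θ z) :=
    ⟨θ e, u.map θ, θ z :: w', w', hTB, hTe, hwT, by rw [List.length_map, hk], rfl, g1⟩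
  have hsubT2 := (st_sub hstT).1
  have hNS := sr_mono (x := x) (W := W) h.sub hsub2
  have hNT := sr_mono (x := y) (W := W) h.sub' hsubT2
  -- the old darts
  have hSold : ∀ c ∈ S₁.R, c ≠ d → c ≠ e → c ∉ u → S₂.a c = S₁.a c :=
    fun c hc h1 h3 h4 => sr_old hx hy hf hc h1 h3 h4
  have hTold : ∀ c ∈ T₁.R, c ≠ θ d → c ≠ θ e → c ∉ u.map θ → T₂.a c = T₁.a c :=
    fun c hc h1 h3 h4 => sr_old hTB hTe g1 hc h1 h3 h4
  have hSd : S₂.a d = e := by
    rw [(sr_df hf).1.2 d (by rw [sr_ga]; exact hde.symm), sr_ga]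
  have hSe : S₂.a e = d := by
    rw [(sr_df hf).1.2 e (by rw [sr_gb]; exact hde), sr_gb]
  have hTd : T₂.a (θ d) = θ e := by
    rw [(sr_df g1).1.2 (θ d) (by rw [sr_ga]; exact hθde.symm), sr_ga]
  have hTe' : T₂.a (θ e) = θ d := by
    rw [(sr_df g1).1.2 (θ e) (by rw [sr_gb]; exact hθde), sr_gb]
  refine ⟨T₂, θ z, ⟨hstT, ?_⟩, g2', ?_, ?_, ?_⟩
  · show ∀ i : ℕ, i ≤ k + 2 → (T₁.nx ^ i) (θ d) ∈ NW T T₁ y W
    intro i hi
    rw [hT i hi]
    exact hnwT _ (hloc' i hi)
  · rw [← hχ]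
    refine { sub := sub_trans h.sub hsub2, sub' := sub_trans h.sub' hsubT2, hx := h.hx, hy := h.hy, per := h.per,
             per' := h.per', inj := ?_, new := ?_, base := ?_, f := ?_, a := ?_, off := ?_, off' := ?_ }
    · rw [hNS]
      exact hχinj
    · have h3 : S₂.R \ S.R = (S₂.R \ S₁.R) ∪ (S₁.R \ S.R) := by
        ext c
        constructor
        · intro hc
          by_cases hc1 : c ∈ S₁.R
          · exact Or.inr ⟨hc1, hc.2⟩
          · exact Or.inl ⟨hc.1, hc1⟩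
        · rintro (hc | hc)
          · exact ⟨hc.1, fun hc1 => hc.2 (h.sub.R_sub hc1)⟩
          · exact ⟨hsub2.R_sub hc.1, hc.2⟩
      have h4 : T₂.R \ T.R = (T₂.R \ T₁.R) ∪ (T₁.R \ T.R) := by
        ext c
        constructor
        · intro hc
          by_cases hc1 : c ∈ T₁.R
          · exact Or.inr ⟨hc1, hc.2⟩
          · exact Or.inl ⟨hc.1, hc1⟩
        · rintro (hc | hc)
          · exact ⟨hc.1, fun hc1 => hc.2 (h.sub'.R_sub hc1)⟩
          · exact ⟨hsubT2.R_sub hc.1, hc.2⟩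
      rw [h3, h4, Set.image_union, g2', ← h.new]
      congr 1
      · exact Set.image_congr hχn
      · exact Set.image_congr fun c hc => hχo c hc.1
    · intro m hm
      rw [hχN _ (Or.inr ⟨m, hm, rfl⟩)]
      exact h.base m hm
    · intro c hc
      by_cases hc1 : c ∈ S₁.R
      · have h3 : c ∈ S₁.R \ S.R := ⟨hc1, hc.2⟩
        have h4 : θ c ∈ T₁.R \ T.R := by
          rw [← h.new]
          exact ⟨c, h3, rfl⟩
        rw [hsub2.1 c hc1, hχo _ ((mem_R_f S₁ c).2 hc1), hχo c hc1, h.f c h3, hsubT2.1 _ h4.1]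
      · exact (g3 c ⟨hc.1, hc1⟩).symm
    · intro c hc
      rw [hNS] at hc ⊢
      by_cases hc1 : c ∈ (S₂.R \ S₁.R) ∪ {c | c ∈ u}
      · have h3 := sr_new hx hy hf huB hc1
        refine ⟨?_, (g4 c hc1).symm⟩
        rcases h3 with h3 | h3
        · exact Or.inl h3
        · exact Or.inr (huN _ h3)
      · have hcN : c ∈ NW S S₁ x W := by
          rcases hc with hc | hc
          · exact absurd (Or.inl hc) hc1
          · exact hc
        have hcu : c ∉ u := fun h3 => hc1 (Or.inr h3)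
        rw [hχN c hcN]
        by_cases hcd : c = d
        · rw [hcd, hSd, hTd, hχN e heN]
          exact ⟨Or.inr heN, rfl⟩
        · by_cases hce : c = e
          · rw [hce, hSe, hTe', hχN d hd]
            exact ⟨Or.inr hd, rfl⟩
          · rw [hSold c (hnwR c hcN) hcd hce hcu, hTold (θ c) (hnwTR c hcN)
              (fun h3 => hcd (hinjN hcN hd h3)) (fun h3 => hce (hinjN hcN heN h3))
              (fun h3 => hcu (hθu c hcN h3)), hχN _ (h.a c hcN).1]
            exact ⟨Or.inr (h.a c hcN).1, (h.a c hcN).2⟩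
    · intro c hc hcN
      rw [hNS] at hcN
      have hcN' : c ∉ NW S S₁ x W := fun h3 => hcN (Or.inr h3)
      rw [hSold c (h.sub.R_sub (B_sub_R _ hc)) (fun h3 => hcN' (by rw [h3]; exact hd))
        (fun h3 => hcN' (by rw [h3]; exact heN)) (fun h3 => hcN' (huN c h3))]
      exact h.off c hc hcN'
    · intro c hc hcN
      rw [hNT] at hcN
      have hcN' : c ∉ NW T T₁ y W := fun h3 => hcN (Or.inr h3)
      rw [hTold c (h.sub'.R_sub (B_sub_R _ hc)) (fun h3 => hcN' (by rw [h3]; exact hnwT d hd))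
        (fun h3 => hcN' (by rw [h3]; exact hnwT e heN)) (fun h3 => ?_)]
      · exact h.off' c hc hcN'
      · obtain ⟨c', hc', rfl⟩ := List.mem_map.1 h3
        exact hcN' (hnwT c' (huN c' hc'))
  · rw [hNS]
    exact Or.inr hzN
  · rw [← hχ, hχN z hzN]

end Part
end SYS
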