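import Pool.Agent.SYS.Reg.LSt

/-!
# SYS-Reg-SimT: transport of a step `T`
-/

namespace SYS
namespace Part

open Classical SST

variable {D E : Type} [Finite D] [Finite E] {S S₁ S₂ : Part D} {x d z : D} {T T₁ : Part E} {y : E} {W : ℕ} {θ ψ : D → E}

section
variable {A : Type} {P : Part A} {v t0 t1 t2 : A} (hx : v ∈ P.B) (h0 : t0 ∉ P.R) (h1 : t1 ∉ P.R) (h2 : t2 ∉ P.R)
  (h01 : t0 ≠ t1) (h12 : t1 ≠ t2) (h20 : t2 ≠ t0)

private theorem fa_x : (P.face v t0 t1 t2 hx h0 h1 h2 h01 h12 h20).a v = t0 := by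
  have ha : P.a t0 = t0 := P.af t0 (not_not.1 h0)
  show (P.a * Equiv.swap v t0) v = t0
  rw [Equiv.Perm.mul_apply, Equiv.swap_apply_left, ha]

private theorem fa_0 : (P.face v t0 t1 t2 hx h0 h1 h2 h01 h12 h20).a t0 = v := by
  show (P.a * Equiv.swap v t0) t0 = v
  rw [Equiv.Perm.mul_apply, Equiv.swap_apply_right, hx.2]

private theorem fa_n {e : A} (he : e ≠ v) (he0 : e ≠ t0) :
    (P.face v t0 t1 t2 hx h0 h1 h2 h01 h12 h20).a e = P.a e := by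
  show (P.a * Equiv.swap v t0) e = P.a e
  rw [Equiv.Perm.mul_apply, Equiv.swap_apply_of_ne_of_ne he he0]

private theorem fa_1 : (P.face v t0 t1 t2 hx h0 h1 h2 h01 h12 h20).a t1 = t1 := by
  rw [fa_n hx h0 h1 h2 h01 h12 h20 (fun h => h1 (by rw [h]; exact hx.1)) h01.symm]
  exact P.af t1 (not_not.1 h1)

private theorem fa_2 : (P.face v t0 t1 t2 hx h0 h1 h2 h01 h12 h20).a t2 = t2 := by
  rw [fa_n hx h0 h1 h2 h01 h12 h20 (fun h => h2 (by rw [h]; exact hx.1)) h20]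
  exact P.af t2 (not_not.1 h2)

private theorem ff_0 : (P.face v t0 t1 t2 hx h0 h1 h2 h01 h12 h20).f t0 = t1 := by
  have hf : P.f t1 = t1 := not_not.1 h1
  show (P.f * cyc3 t0 t1 t2) t0 = t1
  rw [Equiv.Perm.mul_apply, cyc3, Equiv.Perm.mul_apply, Equiv.swap_apply_of_ne_of_ne h01 h20.symm, Equiv.swap_apply_left, hf]

private theorem ff_1 : (P.face v t0 t1 t2 hx h0 h1 h2 h01 h12 h20).f t1 = t2 := by
  have hf : P.f t2 = t2 := not_not.1 h2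
  show (P.f * cyc3 t0 t1 t2) t1 = t2
  rw [Equiv.Perm.mul_apply, cyc3, Equiv.Perm.mul_apply, Equiv.swap_apply_left, Equiv.swap_apply_of_ne_of_ne h20 h12.symm, hf]

private theorem ff_2 : (P.face v t0 t1 t2 hx h0 h1 h2 h01 h12 h20).f t2 = t0 := by
  have hf : P.f t0 = t0 := not_not.1 h0
  show (P.f * cyc3 t0 t1 t2) t2 = t0
  rw [Equiv.Perm.mul_apply, cyc3, Equiv.Perm.mul_apply, Equiv.swap_apply_right, Equiv.swap_apply_right, hf]

private theorem ff_n {e : A} (he0 : e ≠ t0) (he1 : e ≠ t1) (he2 : e ≠ t2) :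
    (P.face v t0 t1 t2 hx h0 h1 h2 h01 h12 h20).f e = P.f e := by
  show (P.f * cyc3 t0 t1 t2) e = P.f e
  rw [Equiv.Perm.mul_apply, cyc3, Equiv.Perm.mul_apply, Equiv.swap_apply_of_ne_of_ne he1 he2,
    Equiv.swap_apply_of_ne_of_ne he0 he1]

private theorem f_sub : P.Sub (P.face v t0 t1 t2 hx h0 h1 h2 h01 h12 h20) := by
  refine ⟨fun e he => ff_n hx h0 h1 h2 h01 h12 h20 ?_ ?_ ?_, fun e he => fa_n hx h0 h1 h2 h01 h12 h20 ?_ ?_⟩
  · rintro rfl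
    exact h0 he
  · rintro rfl
    exact h1 he
  · rintro rfl
    exact h2 he
  · rintro rfl
    exact he hx.2
  · rintro rfl
    exact he (P.af _ (not_not.1 h0))

private theorem f_new (e : A) : e ∈ (P.face v t0 t1 t2 hx h0 h1 h2 h01 h12 h20).R \ P.R ↔
    e = t0 ∨ e = t1 ∨ e = t2 := by
  rw [face_R]
  constructor
  · rintro ⟨h | h, h'⟩
    · exact absurd h h'
    · exact h
  · intro h
    refine ⟨Or.inr h, ?_⟩
    rcases h with h | h | h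
    · rw [h]; exact h0
    · rw [h]; exact h1
    · rw [h]; exact h2

end

theorem sim_T (h : Sim S S₁ x T T₁ y W θ) (hd : d ∈ NW S S₁ x W) (hst : LSt S S₁ x W d .T S₂ z)
    (hψ : Set.InjOn ψ (S₂.R \ S₁.R)) (hn : ∀ e ∈ S₂.R \ S₁.R, ψ e ∉ T₁.R) :
    ∃ (T₂ : Part E) (z' : E), LSt T T₁ y W (θ d) .T T₂ z' ∧ T₂.R \ T₁.R = ψ '' (S₂.R \ S₁.R) ∧
      Sim S S₂ x T T₂ y W (pc S₁ S₂ θ ψ) ∧ z ∈ NW S S₂ x W ∧ z' = pc S₁ S₂ θ ψ z := by
  obtain ⟨⟨t0, t1, t2, hx, h0, h1, h2, h01, h12, h20, hS₂, hz⟩, -⟩ := hst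
  have hN : ∀ e, e ∈ S₂.R \ S₁.R ↔ e = t0 ∨ e = t1 ∨ e = t2 := by
    intro e
    rw [hS₂]
    exact f_new hx h0 h1 h2 h01 h12 h20 e
  have m0 : t0 ∈ S₂.R \ S₁.R := (hN _).2 (Or.inl rfl)
  have m1 : t1 ∈ S₂.R \ S₁.R := (hN _).2 (Or.inr (Or.inl rfl))
  have m2 : t2 ∈ S₂.R \ S₁.R := (hN _).2 (Or.inr (Or.inr rfl))
  have k01 : ψ t0 ≠ ψ t1 := fun hc => h01 (hψ m0 m1 hc)
  have k12 : ψ t1 ≠ ψ t2 := fun hc => h12 (hψ m1 m2 hc)
  have k20 : ψ t2 ≠ ψ t0 := fun hc => h20 (hψ m2 m0 hc)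
  have hxT : θ d ∈ T₁.B := (sim_B h hd).2 hx
  obtain ⟨T₂, hT₂⟩ : ∃ T₂, T₂ = T₁.face (θ d) (ψ t0) (ψ t1) (ψ t2) hxT (hn _ m0) (hn _ m1) (hn _ m2) k01 k12 k20 :=
    ⟨_, rfl⟩
  have hM : ∀ e, e ∈ T₂.R \ T₁.R ↔ e = ψ t0 ∨ e = ψ t1 ∨ e = ψ t2 := by
    intro e
    rw [hT₂]
    exact f_new hxT (hn _ m0) (hn _ m1) (hn _ m2) k01 k12 k20 e
  have hsub : S₁.Sub S₂ := by rw [hS₂]; exact f_sub hx h0 h1 h2 h01 h12 h20
  have hsubT : T₁.Sub T₂ := by rw [hT₂]; exact f_sub hxT (hn _ m0) (hn _ m1) (hn _ m2) k01 k12 k20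
  have hR1 : ∀ e ∈ NW S S₁ x W, e ∈ S₁.R := by
    rintro e (he | ⟨m, -, he⟩)
    · exact he.1
    · rw [he]
      exact h.sub.R_sub (B_sub_R S (bs_mem h.hx m))
  have hRT : ∀ e ∈ NW S S₁ x W, θ e ∈ T₁.R := by
    intro e he
    have h3 : θ e ∈ NW T T₁ y W := by rw [← sim_image h]; exact ⟨e, he, rfl⟩
    rcases h3 with h3 | ⟨m, -, h3⟩
    · exact h3.1
    · rw [h3]
      exact h.sub'.R_sub (B_sub_R T (bs_mem h.hy m))
  have hNW : ∀ e, e ∈ NW S S₂ x W ↔ e ∈ NW S S₁ x W ∨ e ∈ S₂.R \ S₁.R := by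
    intro e
    constructor
    · rintro (he | he)
      · by_cases h3 : e ∈ S₁.R
        · exact Or.inl (Or.inl ⟨h3, he.2⟩)
        · exact Or.inr ⟨he.1, h3⟩
      · exact Or.inl (Or.inr he)
    · rintro ((he | he) | he)
      · exact Or.inl ⟨hsub.R_sub he.1, he.2⟩
      · exact Or.inr he
      · exact Or.inl ⟨he.1, fun h3 => he.2 (h.sub.R_sub h3)⟩
  have hNWT : ∀ e, e ∈ NW T T₁ y W → e ∈ NW T T₂ y W := by
    rintro e (he | he)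
    · exact Or.inl ⟨hsubT.R_sub he.1, he.2⟩
    · exact Or.inr he
  have po : ∀ e ∈ S₁.R, pc S₁ S₂ θ ψ e = θ e := by
    intro e he
    unfold pc
    rw [if_neg (fun h3 => h3.2 he)]
  have pn : ∀ e ∈ S₂.R \ S₁.R, pc S₁ S₂ θ ψ e = ψ e := by
    intro e he
    unfold pc
    rw [if_pos he]
  -- values of the new regions
  have aS : S₂.a d = t0 ∧ S₂.a t0 = d ∧ S₂.a t1 = t1 ∧ S₂.a t2 = t2 ∧ (∀ e, e ≠ d → e ≠ t0 → S₂.a e = S₁.a e) := by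
    rw [hS₂]
    exact ⟨fa_x hx h0 h1 h2 h01 h12 h20, fa_0 hx h0 h1 h2 h01 h12 h20, fa_1 hx h0 h1 h2 h01 h12 h20,
      fa_2 hx h0 h1 h2 h01 h12 h20, fun e he he0 => fa_n hx h0 h1 h2 h01 h12 h20 he he0⟩
  have fS : S₂.f t0 = t1 ∧ S₂.f t1 = t2 ∧ S₂.f t2 = t0 ∧ (∀ e ∈ S₁.R, S₂.f e = S₁.f e) := by
    refine ⟨?_, ?_, ?_, hsub.1⟩
    · rw [hS₂]; exact ff_0 hx h0 h1 h2 h01 h12 h20
    · rw [hS₂]; exact ff_1 hx h0 h1 h2 h01 h12 h20
    · rw [hS₂]; exact ff_2 hx h0 h1 h2 h01 h12 h20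
  have aT : T₂.a (θ d) = ψ t0 ∧ T₂.a (ψ t0) = θ d ∧ T₂.a (ψ t1) = ψ t1 ∧ T₂.a (ψ t2) = ψ t2 ∧
      (∀ e, e ≠ θ d → e ≠ ψ t0 → T₂.a e = T₁.a e) := by
    rw [hT₂]
    exact ⟨fa_x _ _ _ _ _ _ _, fa_0 _ _ _ _ _ _ _, fa_1 _ _ _ _ _ _ _,
      fa_2 _ _ _ _ _ _ _, fun e he he0 => fa_n _ _ _ _ _ _ _ he he0⟩
  have fT : T₂.f (ψ t0) = ψ t1 ∧ T₂.f (ψ t1) = ψ t2 ∧ T₂.f (ψ t2) = ψ t0 ∧ (∀ e ∈ T₁.R, T₂.f e = T₁.f e) := by
    refine ⟨?_, ?_, ?_, hsubT.1⟩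
    · rw [hT₂]; exact ff_0 _ _ _ _ _ _ _
    · rw [hT₂]; exact ff_1 _ _ _ _ _ _ _
    · rw [hT₂]; exact ff_2 _ _ _ _ _ _ _
  refine ⟨T₂, ψ t1, ⟨⟨ψ t0, ψ t1, ψ t2, hxT, hn _ m0, hn _ m1, hn _ m2, k01, k12, k20, hT₂, rfl⟩, trivial⟩,
    ?_, ?_, ?_, ?_⟩
  · ext e
    rw [hM]
    constructor
    · rintro (he | he | he)
      · exact ⟨t0, m0, he.symm⟩
      · exact ⟨t1, m1, he.symm⟩
      · exact ⟨t2, m2, he.symm⟩
    · rintro ⟨e', he', rfl⟩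
      rcases (hN e').1 he' with he | he | he
      · rw [he]; exact Or.inl rfl
      · rw [he]; exact Or.inr (Or.inl rfl)
      · rw [he]; exact Or.inr (Or.inr rfl)
  · refine ⟨sub_trans h.sub hsub, sub_trans h.sub' hsubT, h.hx, h.hy, h.per, h.per', ?_, ?_, ?_, ?_, ?_, ?_, ?_⟩
    · -- inj
      intro e he e' he' hee
      rcases (hNW e).1 he with h3 | h3 <;> rcases (hNW e').1 he' with h4 | h4
      · rw [po e (hR1 e h3), po e' (hR1 e' h4)] at hee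
        exact h.inj h3 h4 hee
      · rw [po e (hR1 e h3), pn e' h4] at hee
        exact absurd (hRT e h3) (by rw [hee]; exact hn e' h4)
      · rw [pn e h3, po e' (hR1 e' h4)] at hee
        exact absurd (hRT e' h4) (by rw [← hee]; exact hn e h3)
      · rw [pn e h3, pn e' h4] at hee
        exact hψ h3 h4 hee
    · -- new
      ext e
      constructor
      · rintro ⟨e', he', rfl⟩
        by_cases h3 : e' ∈ S₁.R
        · rw [po e' h3]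
          have h4 : θ e' ∈ T₁.R \ T.R := by rw [← h.new]; exact ⟨e', ⟨h3, he'.2⟩, rfl⟩
          exact ⟨hsubT.R_sub h4.1, h4.2⟩
        · rw [pn e' ⟨he'.1, h3⟩]
          have h4 : ψ e' ∈ T₂.R \ T₁.R := by
            rw [hM]
            rcases (hN e').1 ⟨he'.1, h3⟩ with he | he | he
            · rw [he]; exact Or.inl rfl
            · rw [he]; exact Or.inr (Or.inl rfl)
            · rw [he]; exact Or.inr (Or.inr rfl)
          exact ⟨h4.1, fun h5 => h4.2 (h.sub'.R_sub h5)⟩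
      · intro he
        by_cases h3 : e ∈ T₁.R
        · have h4 : e ∈ θ '' (S₁.R \ S.R) := by rw [h.new]; exact ⟨h3, he.2⟩
          obtain ⟨e', he', rfl⟩ := h4
          exact ⟨e', ⟨hsub.R_sub he'.1, he'.2⟩, po e' he'.1⟩
        · have hin : ∀ t ∈ S₂.R \ S₁.R, t ∈ S₂.R \ S.R := fun t ht => ⟨ht.1, fun h5 => ht.2 (h.sub.R_sub h5)⟩
          rcases (hM e).1 ⟨he.1, h3⟩ with h4 | h4 | h4
          · exact ⟨t0, hin _ m0, by rw [pn _ m0, h4]⟩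
          · exact ⟨t1, hin _ m1, by rw [pn _ m1, h4]⟩
          · exact ⟨t2, hin _ m2, by rw [pn _ m2, h4]⟩
    · -- base
      intro m hm
      rw [po _ (hR1 _ (Or.inr ⟨m, hm, rfl⟩))]
      exact h.base m hm
    · -- f
      intro e he
      by_cases h3 : e ∈ S₁.R
      · rw [fS.2.2.2 e h3, po _ ((mem_R_f S₁ e).2 h3), po e h3, h.f e ⟨h3, he.2⟩]
        exact (fT.2.2.2 _ (hRT e (Or.inl ⟨h3, he.2⟩))).symm
      · rcases (hN e).1 ⟨he.1, h3⟩ with h4 | h4 | h4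
        · rw [h4, fS.1, pn _ m1, pn _ m0, fT.1]
        · rw [h4, fS.2.1, pn _ m2, pn _ m1, fT.2.1]
        · rw [h4, fS.2.2.1, pn _ m0, pn _ m2, fT.2.2.1]
    · -- a
      intro e he
      rcases (hNW e).1 he with h3 | h3
      · by_cases h4 : e = d
        · rw [h4, aS.1, pn _ m0, po _ (hR1 _ hd), aT.1]
          exact ⟨(hNW _).2 (Or.inr m0), rfl⟩
        · have h5 : e ≠ t0 := fun h5 => m0.2 (by rw [← h5]; exact hR1 e h3)
          have h6 : θ e ≠ θ d := fun h6 => h4 (h.inj h3 hd h6)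
          have h7 : θ e ≠ ψ t0 := fun h7 => hn _ m0 (by rw [← h7]; exact hRT e h3)
          obtain ⟨h8, h9⟩ := h.a e h3
          rw [aS.2.2.2.2 e h4 h5, po _ (hR1 _ h8), po _ (hR1 _ h3), aT.2.2.2.2 _ h6 h7]
          exact ⟨(hNW _).2 (Or.inl h8), h9⟩
      · rcases (hN e).1 h3 with h4 | h4 | h4
        · rw [h4, aS.2.1, pn _ m0, po _ (hR1 _ hd), aT.2.1]
          exact ⟨(hNW _).2 (Or.inl hd), rfl⟩
        · rw [h4, aS.2.2.1, pn _ m1, aT.2.2.1]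
          exact ⟨(hNW _).2 (Or.inr m1), rfl⟩
        · rw [h4, aS.2.2.2.1, pn _ m2, aT.2.2.2.1]
          exact ⟨(hNW _).2 (Or.inr m2), rfl⟩
    · -- off
      intro e he hne
      have h3 : e ∉ NW S S₁ x W := fun h3 => hne ((hNW e).2 (Or.inl h3))
      have h4 : e ≠ d := by
        rintro rfl
        exact h3 hd
      have h5 : e ≠ t0 := fun h5 => m0.2 (h.sub.R_sub (B_sub_R S (by rw [← h5]; exact he)))
      rw [aS.2.2.2.2 e h4 h5]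
      exact h.off e he h3
    · -- off'
      intro e he hne
      have h3 : e ∉ NW T T₁ y W := fun h3 => hne (hNWT e h3)
      have h4 : e ≠ θ d := by
        rintro rfl
        exact h3 (by rw [← sim_image h]; exact ⟨d, hd, rfl⟩)
      have h5 : e ≠ ψ t0 := fun h5 => hn _ m0 (h.sub'.R_sub (B_sub_R T (by rw [← h5]; exact he)))
      rw [aT.2.2.2.2 e h4 h5]
      exact h.off' e he h3
  · rw [hz]
    exact (hNW _).2 (Or.inr m1)
  · rw [hz, pn _ m1]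

end Part
end SYS
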