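import Pool.Agent.SYS.Reg.LSt

/-!
# SYS-Reg-SimX: the new part and `θ` determine the other extension

PLAN.  `T'.R = T.R ∪ θ '' (S'.R \ S.R)` (`new`, `sub'.R_sub`).  `T'.f`: on `T.R` it is `T.f` (`sub'`), on the new darts by the field `f` (every new dart is `θ d`), identity elsewhere (definition of `R`).  `T'.a`: on
`T.R \ T.B` it is `T.a`, on `NW T T' y W` by the field `a` (`sim_image`), on `T.B` outside the window the identity (`off'`), identity off `T'.R` (`Part.af`).  `Part.ext'`.
-/

namespace SYS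
namespace Part

open Classical SST

variable {D E : Type} [Finite D] [Finite E] {S S' : Part D} {x : D} {T T' T'' : Part E} {y : E} {W : ℕ} {θ θ' : D → E}

private theorem sx_img {X : Set D} (hX : X ⊆ NW S S' x W) (he : ∀ d ∈ NW S S' x W, θ d = θ' d) : θ '' X = θ' '' X :=
  Set.image_congr fun d hd => he d (hX hd)

theorem sim_ext (h : Sim S S' x T T' y W θ) (h' : Sim S S' x T T'' y W θ') (he : ∀ d ∈ NW S S' x W, θ d = θ' d) :
    T' = T'' := by
  have hX : S'.R \ S.R ⊆ NW S S' x W := fun d hd => Or.inl hd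
  have hnew : T'.R \ T.R = T''.R \ T.R := by
    rw [← h.new, ← h'.new]
    exact sx_img hX he
  have hnw : NW T T' y W = NW T T'' y W := by
    rw [← sim_image h, ← sim_image h']
    exact sx_img (fun _ hd => hd) he
  refine Part.ext' (Equiv.ext fun e => ?_) (Equiv.ext fun e => ?_)
  · by_cases h1 : T.a e = e
    · by_cases h2 : e ∈ NW T T' y W
      · rw [← sim_image h] at h2
        obtain ⟨d, hd, rfl⟩ := h2
        rw [← (h.a d hd).2, he _ (h.a d hd).1, (h'.a d hd).2, he d hd]
      · have h2' : e ∉ NW T T'' y W := by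
          rw [← hnw]
          exact h2
        by_cases h3 : e ∈ T.R
        · rw [h.off' e ⟨h3, h1⟩ h2, h'.off' e ⟨h3, h1⟩ h2']
        · have h4 : T'.f e = e := by
            by_contra h5
            exact h2 (Or.inl ⟨h5, h3⟩)
          have h4' : T''.f e = e := by
            by_contra h5
            exact h2' (Or.inl ⟨h5, h3⟩)
          rw [T'.af e h4, T''.af e h4']
    · rw [h.sub'.2 e h1, h'.sub'.2 e h1]
  · by_cases h1 : T.f e = e
    · by_cases h2 : T'.f e = e
      · have h2' : T''.f e = e := by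
          by_contra h3
          have h4 : e ∈ T''.R \ T.R := ⟨h3, fun h5 => h5 h1⟩
          rw [← hnew] at h4
          exact h4.1 h2
        rw [h2, h2']
      · have h4 : e ∈ T'.R \ T.R := ⟨h2, fun h5 => h5 h1⟩
        rw [← h.new] at h4
        obtain ⟨d, hd, rfl⟩ := h4
        rw [← h.f d hd, he _ (hX (nb_f h.sub hd)), h'.f d hd, he d (hX hd)]
    · rw [h.sub'.1 e h1, h'.sub'.1 e h1]

theorem sim_congr (h : Sim S S' x T T' y W θ) (he : ∀ d ∈ NW S S' x W, θ d = θ' d) : Sim S S' x T T' y W θ' := by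
  have hX : S'.R \ S.R ⊆ NW S S' x W := fun d hd => Or.inl hd
  refine ⟨h.sub, h.sub', h.hx, h.hy, h.per, h.per', ?_, ?_, ?_, ?_, ?_, h.off, h.off'⟩
  · intro d hd e hee hde
    rw [← he d hd, ← he e hee] at hde
    exact h.inj hd hee hde
  · rw [← sx_img hX he]
    exact h.new
  · intro m hm
    rw [← he _ (Or.inr ⟨m, hm, rfl⟩)]
    exact h.base m hm
  · intro d hd
    rw [← he _ (hX (nb_f h.sub hd)), ← he d (hX hd)]
    exact h.f d hd
  · intro d hd
    refine ⟨(h.a d hd).1, ?_⟩
    rw [← he _ (h.a d hd).1, ← he d hd]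
    exact (h.a d hd).2

end Part
end SYS
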