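import Pool.Agent.SYS.Lib.CntA

/-!
# SYS-Reg-PrT: transport of a pair of permutations by a partial bijection

PLAN.  Let `Y = W ∪ H`, `Y' = χ '' Y`, `e : ↥Y ≃ ↥Y'` the equivalence given by `χ` (`Equiv.Set.imageOfInjOn` or `Set.BijOn.equiv`).  `f` maps `W` to itself and `α` maps `Y` to itself (a permutation which moves
exactly the points of a set maps the set to itself); put `f' d = χ (f (e⁻¹ d))` on `Y'`, identity off `Y'` (a permutation: conjugate `f` restricted to `Y` by `e` and extend by the identity: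
`Equiv.Perm.extendDomain`, `Equiv.Perm.ofSubtype`), same for `α'`.  The fields are immediate; `conn`: pull `Z` back to `Y`; `V`: `f' * η' * α'` on `Y'` is the conjugate of `f * η * α` on `Y` (as in `ncycOn_emb`
of `Lib/CntA.lean`, which is private: copy it; here with `E := ↥Y` and the two embeddings `Subtype.val`, `χ`).
-/

namespace SYS
namespace Part

open Classical SST

section
variable {D : Type}

private theorem emb_pow {E : Type} (j : E → D) (σ : Equiv.Perm E) (τ : Equiv.Perm D)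
    (h : ∀ z, τ (j z) = j (σ z)) (n : ℕ) (z : E) : (τ ^ n) (j z) = j ((σ ^ n) z) := by
  induction n with
  | zero => rfl
  | succ n ih => rw [pow_succ', pow_succ', Equiv.Perm.mul_apply, Equiv.Perm.mul_apply, ih, h]

private theorem ncycOn_emb {E : Type} [Finite E] [Finite D] (j : E → D) (hj : Function.Injective j)
    (σ : Equiv.Perm E) (τ : Equiv.Perm D) (h : ∀ z, τ (j z) = j (σ z)) :
    ncycOn τ (Set.range j) = ncyc σ := by
  have hsame : ∀ y z, σ.SameCycle y z ↔ τ.SameCycle (j y) (j z) := by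
    intro y z
    constructor
    · intro h1
      obtain ⟨n, hn⟩ := h1.exists_pow_eq'
      refine ⟨(n : ℤ), ?_⟩
      rw [zpow_natCast, emb_pow j σ τ h, hn.2]
    · intro h1
      obtain ⟨n, hn⟩ := h1.exists_pow_eq'
      refine ⟨(n : ℤ), ?_⟩
      rw [zpow_natCast]
      have h2 := hn.2
      rw [emb_pow j σ τ h] at h2
      exact hj h2
  let G : Quotient (Equiv.Perm.SameCycle.setoid σ) → Quotient (Equiv.Perm.SameCycle.setoid τ) :=
    Quotient.lift (fun z => Quotient.mk (Equiv.Perm.SameCycle.setoid τ) (j z))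
      (fun y z hyz => Quotient.sound ((hsame y z).1 hyz))
  have hG : Function.Injective G := by
    intro q r
    refine Quotient.inductionOn₂ q r fun y z hyz => ?_
    exact Quotient.sound ((hsame y z).2 (Quotient.exact hyz))
  have hset : {q : Quotient (Equiv.Perm.SameCycle.setoid τ) | ∃ d ∈ Set.range j, Quotient.mk _ d = q} =
      Set.range G := by
    ext q
    constructor
    · rintro ⟨d, ⟨z, rfl⟩, rfl⟩
      exact ⟨Quotient.mk _ z, rfl⟩
    · rintro ⟨r, rfl⟩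
      refine Quotient.inductionOn r fun z => ?_
      exact ⟨j z, ⟨z, rfl⟩, rfl⟩
  unfold ncycOn ncyc
  rw [hset, ← Nat.card_coe_set_eq, Nat.card_range_of_injective hG]

end

private theorem pm_mem {D : Type} {W : Set D} {f : Equiv.Perm D} (h1 : ∀ d ∉ W, f d = d) (h2 : ∀ d ∈ W, f d ≠ d) (d : D) :
    f d ∈ W ↔ d ∈ W := by
  constructor
  · intro h
    by_contra hc
    rw [h1 d hc] at h
    exact hc h
  · intro hd
    by_contra hc
    exact h2 d hd (f.injective (h1 _ hc))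

theorem pair_tr {D E : Type} [Finite D] [Finite E] {W H : Set D} (hWH : Disjoint W H) (χ : D → E) (hχ : Set.InjOn χ (W ∪ H))
    {η : Equiv.Perm D} {η' : Equiv.Perm E} (hη : ∀ d ∉ H, η d = d) (hη' : ∀ d ∉ χ '' H, η' d = d)
    (hη1 : ∀ d ∈ H, η d ∈ H ∧ η' (χ d) = χ (η d)) {V : ℕ} {f α : Equiv.Perm D} (h : PairOn W H η V f α) :
    ∃ f' α' : Equiv.Perm E, PairOn (χ '' W) (χ '' H) η' V f' α' ∧ (∀ d ∈ W, f' (χ d) = χ (f d)) ∧
      ∀ d ∈ W ∪ H, α' (χ d) = χ (α d) := by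
  have hnH : ∀ d ∈ W, d ∉ H := fun d hd => Set.disjoint_left.1 hWH hd
  have hnW : ∀ d ∈ H, d ∉ W := fun d hd hd' => Set.disjoint_left.1 hWH hd' hd
  have hfW := pm_mem h.f_off h.f_on
  have hfY : ∀ d, f d ∈ W ∪ H ↔ d ∈ W ∪ H := by
    intro d
    by_cases hd : d ∈ W
    · exact ⟨fun _ => Or.inl hd, fun _ => Or.inl ((hfW d).2 hd)⟩
    · rw [h.f_off d hd]
  have hαY := pm_mem h.a_off h.a_on
  have hηY : ∀ d, η d ∈ W ∪ H ↔ d ∈ W ∪ H := by
    intro d
    by_cases hd : d ∈ H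
    · exact ⟨fun _ => Or.inr hd, fun _ => Or.inr (hη1 d hd).1⟩
    · rw [hη d hd]
  have hinj : Function.Injective (fun y : ↥(W ∪ H) => χ (y : D)) := fun y z hyz => Subtype.ext (hχ y.2 z.2 hyz)
  obtain ⟨j, hj⟩ : ∃ j : ↥(W ∪ H) ↪ E, j = ⟨fun y : ↥(W ∪ H) => χ (y : D), hinj⟩ := ⟨_, rfl⟩
  have hjv : ∀ y : ↥(W ∪ H), j y = χ (y : D) := by
    intro y
    rw [hj]
    rfl
  have hran : ∀ d, d ∈ Set.range j ↔ d ∈ χ '' (W ∪ H) := by
    intro d
    constructor
    · rintro ⟨y, rfl⟩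
      exact ⟨y, y.2, (hjv y).symm⟩
    · rintro ⟨y, hy, rfl⟩
      exact ⟨⟨y, hy⟩, hjv _⟩
  obtain ⟨fY, hfYv⟩ : ∃ fY : Equiv.Perm ↥(W ∪ H), ∀ y, ((fY y : ↥(W ∪ H)) : D) = f y :=
    ⟨f.subtypePerm hfY, fun y => rfl⟩
  obtain ⟨aY, haYv⟩ : ∃ aY : Equiv.Perm ↥(W ∪ H), ∀ y, ((aY y : ↥(W ∪ H)) : D) = α y :=
    ⟨α.subtypePerm hαY, fun y => rfl⟩
  have f1 : ∀ d ∈ W ∪ H, (fY.viaEmbedding j) (χ d) = χ (f d) := by
    intro d hd
    have e := Equiv.Perm.viaEmbedding_apply fY j ⟨d, hd⟩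
    rw [hjv, hjv, hfYv] at e
    exact e
  have a1 : ∀ d ∈ W ∪ H, (aY.viaEmbedding j) (χ d) = χ (α d) := by
    intro d hd
    have e := Equiv.Perm.viaEmbedding_apply aY j ⟨d, hd⟩
    rw [hjv, hjv, haYv] at e
    exact e
  have f2 : ∀ d ∉ χ '' (W ∪ H), (fY.viaEmbedding j) d = d := by
    intro d hd
    exact Equiv.Perm.viaEmbedding_apply_of_notMem fY j d (fun hh => hd ((hran d).1 hh))
  have a2 : ∀ d ∉ χ '' (W ∪ H), (aY.viaEmbedding j) d = d := by
    intro d hd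
    exact Equiv.Perm.viaEmbedding_apply_of_notMem aY j d (fun hh => hd ((hran d).1 hh))
  generalize fY.viaEmbedding j = f' at f1 f2
  generalize aY.viaEmbedding j = α' at a1 a2
  have hη2 : ∀ d ∈ W ∪ H, η' (χ d) = χ (η d) := by
    rintro d (hd | hd)
    · rw [hη d (hnH d hd)]
      refine hη' _ ?_
      rintro ⟨z, hz, hzd⟩
      have h3 := hχ (Or.inr hz) (Or.inl hd) hzd
      rw [h3] at hz
      exact hnH d hd hz
    · exact (hη1 d hd).2
  refine ⟨f', α', ⟨?_, ?_, ?_, ?_, ?_, ?_, ?_, ?_⟩, fun d hd => f1 d (Or.inl hd), a1⟩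
  · intro d hd
    by_cases hd' : d ∈ χ '' (W ∪ H)
    · obtain ⟨y, hy, rfl⟩ := hd'
      have hyW : y ∉ W := fun hh => hd ⟨y, hh, rfl⟩
      rw [f1 y hy, h.f_off y hyW]
    · exact f2 d hd'
  · rintro _ ⟨y, hy, rfl⟩ h3
    rw [f1 y (Or.inl hy)] at h3
    exact h.f_on y hy (hχ ((hfY y).2 (Or.inl hy)) (Or.inl hy) h3)
  · intro d
    by_cases hd' : d ∈ χ '' (W ∪ H)
    · obtain ⟨y, hy, rfl⟩ := hd'
      have hy1 := (hfY y).2 hy
      have hy2 := (hfY _).2 hy1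
      rw [f1 y hy, f1 _ hy1, f1 _ hy2, h.fff]
    · rw [f2 d hd', f2 d hd', f2 d hd']
  · intro d hd
    refine a2 d ?_
    rw [Set.image_union]
    exact hd
  · intro d hd h3
    rw [← Set.image_union] at hd
    obtain ⟨y, hy, rfl⟩ := hd
    rw [a1 y hy] at h3
    exact h.a_on y hy (hχ ((hαY y).2 hy) hy h3)
  · intro d
    by_cases hd' : d ∈ χ '' (W ∪ H)
    · obtain ⟨y, hy, rfl⟩ := hd'
      rw [a1 y hy, a1 _ ((hαY y).2 hy), h.aa]
    · rw [a2 d hd', a2 d hd']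
  · intro Z hZ hne hcl
    rw [← Set.image_union] at hZ ⊢
    have h3 : {d | d ∈ W ∪ H ∧ χ d ∈ Z} = W ∪ H := by
      refine h.conn _ (fun d hd => hd.1) ?_ ?_
      · obtain ⟨z, hz⟩ := hne
        obtain ⟨y, hy, hyz⟩ := hZ hz
        exact ⟨y, hy, by rw [hyz]; exact hz⟩
      · rintro d ⟨hd, hdZ⟩
        obtain ⟨h4, h5, h6⟩ := hcl _ hdZ
        rw [a1 d hd] at h4
        rw [f1 d hd] at h5
        rw [hη2 d hd] at h6
        exact ⟨⟨(hαY d).2 hd, h4⟩, ⟨(hfY d).2 hd, h5⟩, ⟨(hηY d).2 hd, h6⟩⟩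
    apply Set.Subset.antisymm hZ
    rintro _ ⟨y, hy, rfl⟩
    rw [← h3] at hy
    exact hy.2
  · have hV := h.V
    have hfull : ∀ d, (f * η * α) d ∈ W ∪ H ↔ d ∈ W ∪ H := by
      intro d
      rw [Equiv.Perm.mul_apply, Equiv.Perm.mul_apply, hfY, hηY, hαY]
    obtain ⟨σ, hσ⟩ : ∃ σ : Equiv.Perm ↥(W ∪ H), ∀ y, ((σ y : ↥(W ∪ H)) : D) = (f * η * α) y :=
      ⟨(f * η * α).subtypePerm hfull, fun y => rfl⟩
    have e1 : ncycOn (f * η * α) (Set.range (fun y : ↥(W ∪ H) => (y : D))) = ncyc σ :=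
      ncycOn_emb _ Subtype.val_injective σ _ (fun y => (hσ y).symm)
    have e2 : ncycOn (f' * η' * α') (Set.range j) = ncyc σ := by
      refine ncycOn_emb j j.injective σ _ (fun y => ?_)
      rw [hjv, hjv, hσ]
      simp only [Equiv.Perm.mul_apply]
      rw [a1 y y.2, hη2 _ ((hαY y).2 y.2), f1 _ ((hηY _).2 ((hαY y).2 y.2))]
    have e3 : Set.range (fun y : ↥(W ∪ H) => (y : D)) = W ∪ H := Subtype.range_coe
    have e4 : Set.range j = χ '' W ∪ χ '' H := by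
      rw [← Set.image_union]
      ext d
      exact hran d
    rw [e3, hV] at e1
    rw [e4, ← e1] at e2
    exact e2

end Part
end SYS
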