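import Pool.Agent.SYS.Reg.FilP
import Pool.Agent.SYS.Reg.PrT
import Pool.Agent.SYS.Lib.St

/-!
# SYS-Reg-FilT: transport of a filling

PLAN.  `W := S'.R \ S.R`, `fil_pair` gives `PairOn W H ..` (new darts are not in `S.R`); `pair_tr` with `χ`, `η = restr S.nx H`, `η' = restr T.nx (χ '' H)` (`restr_mem`, `restr_not_mem`, `hun_nx`); `pair_fil` for `T`
(`(χ '' W).ncard = W.ncard = 3 F` by `hf.R`).  `disc_tr`: `DiscFill` with `u = []`: `T' = T`, no new darts.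
-/

namespace SYS
namespace Part

open Classical SST

variable {D E : Type} [Finite D] [Finite E]

theorem fil_tr {S S' : Part D} {T : Part E} {H : Set D} {F V : ℕ} (hH : S.HUn H) (hf : S.FillBy S' H F V) (χ : D → E)
    (hχ : Set.InjOn χ ((S'.R \ S.R) ∪ H)) (hn : ∀ d ∈ S'.R \ S.R, χ d ∉ T.R) (hH' : T.HUn (χ '' H))
    (hx : ∀ d ∈ H, T.nx (χ d) = χ (S.nx d)) :
    ∃ T' : Part E, T.FillBy T' (χ '' H) F V ∧ T'.R \ T.R = χ '' (S'.R \ S.R) ∧
      (∀ d ∈ S'.R \ S.R, T'.f (χ d) = χ (S'.f d)) ∧ ∀ d ∈ (S'.R \ S.R) ∪ H, T'.a (χ d) = χ (S'.a d) := by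
  have hW : ∀ d ∈ S'.R \ S.R, d ∉ S.R := fun d hd => hd.2
  obtain ⟨hp, hpf, hpa⟩ := fil_pair hH hW hf rfl
  have hWH : Disjoint (S'.R \ S.R) H := by
    rw [Set.disjoint_left]
    intro d h1 h2
    exact h1.2 (B_sub_R S (hH.1 h2))
  obtain ⟨f', α', hp', h1, h2⟩ := pair_tr hWH χ hχ (η' := restr T.nx (χ '' H) (hun_nx hH'))
    (fun d hd => restr_not_mem S.nx (hun_nx hH) hd) (fun d hd => restr_not_mem T.nx (hun_nx hH') hd)
    (fun d hd => by
      rw [restr_mem S.nx (hun_nx hH) hd, restr_mem T.nx (hun_nx hH') ⟨d, hd, rfl⟩]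
      exact ⟨(hun_nx hH d).2 hd, hx d hd⟩) hp
  have hc : (χ '' (S'.R \ S.R)).ncard = 3 * F := by
    rw [Set.InjOn.ncard_image (fun d hd e he hde => hχ (Or.inl hd) (Or.inl he) hde)]
    have h3 := Set.ncard_sdiff_add_ncard_of_subset hf.sub.R_sub (Set.toFinite _)
    rw [hf.R] at h3
    omega
  obtain ⟨T', h3, h4, h5, h6⟩ := pair_fil hH' (W := χ '' (S'.R \ S.R)) (F := F)
    (by rintro _ ⟨d, hd, rfl⟩; exact hn d hd) hc hp'
  refine ⟨T', h3, h4, ?_, ?_⟩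
  · intro d hd
    rw [h5 _ ⟨d, hd, rfl⟩, h1 d hd, hpf d hd]
  · intro d hd
    rw [h6 _ (by rw [← Set.image_union]; exact ⟨d, hd, rfl⟩), h2 d hd, hpa d hd]

private theorem ft_inj (S : Part D) {x : D} (hx : x ∈ S.B) {i j : ℕ} (hi : i < S.per x) (hj : j < S.per x)
    (h : (S.nx ^ i) x = (S.nx ^ j) x) : i = j := by
  have h1 := hw_nodup S hx
  unfold hw at h1
  exact List.inj_on_of_nodup_map h1 (List.mem_range.2 hi) (List.mem_range.2 hj) h

private theorem ft_ex (S : Part D) {x d : D} (hx : x ∈ S.B) (hd : d ∈ S.B) (h : S.s.SameCycle x d) :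
    ∃ k < S.per x, (S.nx ^ k) x = d := by
  have h1 : d ∈ S.hw x := (mem_hw S hx).2 ⟨hd, h⟩
  unfold hw at h1
  obtain ⟨k, hk, h2⟩ := List.mem_map.1 h1
  exact ⟨k, List.mem_range.1 hk, h2⟩

private theorem ft_per (S : Part D) {x : D} (hx : x ∈ S.B) : (S.nx ^ S.per x) x = x := by
  obtain ⟨h1, h2⟩ := nx_pow_same S hx (S.per x)
  obtain ⟨k, hk, h3⟩ := ft_ex S hx h1 h2
  have hp := S.per_pos hx
  rcases Nat.eq_zero_or_pos k with h0 | h0
  · rw [h0] at h3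
    exact h3.symm
  · exfalso
    obtain ⟨m, hm⟩ : ∃ m, S.per x = m + 1 := ⟨S.per x - 1, by omega⟩
    obtain ⟨l, hl⟩ : ∃ l, k = l + 1 := ⟨k - 1, by omega⟩
    rw [hm, hl, pow_succ', pow_succ', Equiv.Perm.mul_apply, Equiv.Perm.mul_apply] at h3
    have h4 := S.nx.injective h3
    have h5 := ft_inj S hx (i := l) (j := m) (by omega) (by omega) h4
    omega

omit [Finite D] in
private theorem ft_hun [Finite D] {S : Part D} {z : D} (hz : z ∈ S.B) {u : List D} (hu : S.hw z = u) :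
    S.HUn {d | d ∈ u} := by
  subst hu
  refine ⟨fun d hd => ((mem_hw S hz).1 hd).1, fun d hd e he hde => ?_⟩
  exact (mem_hw S hz).2 ⟨he, ((mem_hw S hz).1 hd).2.trans hde⟩

private theorem ft_nx {S : Part D} {T : Part E} {z : D} {u : List D} (χ : D → E) (hz : z ∈ S.B) (hu : S.hw z = u)
    (hz' : χ z ∈ T.B) (hu' : T.hw (χ z) = u.map χ) {d : D} (hd : d ∈ u) : T.nx (χ d) = χ (S.nx d) := by
  have hp : T.per (χ z) = S.per z := by
    rw [← hw_length T hz', ← hw_length S hz, hu', hu, List.length_map]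
  have hi : ∀ i < S.per z, (T.nx ^ i) (χ z) = χ ((S.nx ^ i) z) := by
    intro i hi
    rw [← hu] at hu'
    unfold hw at hu'
    rw [hp, List.map_map] at hu'
    exact List.map_inj_left.1 hu' i (List.mem_range.2 hi)
  have hi' : (T.nx ^ S.per z) (χ z) = χ ((S.nx ^ S.per z) z) := by
    rw [ft_per S hz, ← hp, ft_per T hz']
  rw [← hu] at hd
  obtain ⟨h1, h2⟩ := (mem_hw S hz).1 hd
  obtain ⟨k, hk, rfl⟩ := ft_ex S hz h1 h2
  rw [← hi k hk, ← Equiv.Perm.mul_apply, ← pow_succ', ← Equiv.Perm.mul_apply, ← pow_succ']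
  rcases Nat.lt_or_ge (k + 1) (S.per z) with h3 | h3
  · exact hi _ h3
  · have h4 : k + 1 = S.per z := by omega
    rw [h4]
    exact hi'

/-- The same for one hole, given by its word. -/
theorem disc_tr {S S' : Part D} {T : Part E} {u : List D} {a : ℕ} (hu : ∀ z w, u = z :: w → z ∈ S.B ∧ S.hw z = z :: w)
    (hf : S.DiscFill S' u a) (χ : D → E) (hχ : Set.InjOn χ ((S'.R \ S.R) ∪ {d | d ∈ u}))
    (hn : ∀ d ∈ S'.R \ S.R, χ d ∉ T.R) (hu' : ∀ z w, u = z :: w → χ z ∈ T.B ∧ T.hw (χ z) = χ z :: w.map χ) :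
    ∃ T' : Part E, T.DiscFill T' (u.map χ) a ∧ T'.R \ T.R = χ '' (S'.R \ S.R) ∧
      (∀ d ∈ S'.R \ S.R, T'.f (χ d) = χ (S'.f d)) ∧ ∀ d ∈ (S'.R \ S.R) ∪ {d | d ∈ u}, T'.a (χ d) = χ (S'.a d) := by
  rcases hf with ⟨h1, h2, h3⟩ | ⟨h1, V, h2, h3⟩
  · subst h1 h2 h3
    refine ⟨T, Or.inl ⟨rfl, rfl, rfl⟩, ?_, ?_, ?_⟩
    · rw [Set.sdiff_self, Set.sdiff_self, Set.image_empty]
    · rintro d ⟨hd, hd'⟩
      exact absurd hd hd'
    · rintro d (⟨hd, hd'⟩ | hd)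
      · exact absurd hd hd'
      · exact absurd hd List.not_mem_nil
  · obtain ⟨z, w, hzw⟩ : ∃ z w, u = z :: w := by
      cases u with
      | nil => exact absurd rfl h1
      | cons z w => exact ⟨z, w, rfl⟩
    obtain ⟨k1, k2⟩ := hu z w hzw
    obtain ⟨k3, k4⟩ := hu' z w hzw
    rw [← hzw] at k2
    have k5 : T.hw (χ z) = u.map χ := by rw [k4, hzw, List.map_cons]
    have hH := ft_hun k1 k2
    have hset : χ '' {d | d ∈ u} = {d | d ∈ u.map χ} := by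
      ext d
      constructor
      · rintro ⟨y, hy, rfl⟩
        exact List.mem_map.2 ⟨y, hy, rfl⟩
      · intro hd
        obtain ⟨y, hy, hyd⟩ := List.mem_map.1 hd
        exact ⟨y, hy, hyd⟩
    have hH' : T.HUn (χ '' {d | d ∈ u}) := by
      rw [hset]
      exact ft_hun k3 k5
    obtain ⟨T', m1, m2, m3, m4⟩ := fil_tr hH h3 χ hχ hn hH' (fun d hd => ft_nx χ k1 k2 k3 k5 hd)
    refine ⟨T', Or.inr ⟨?_, V, ?_, ?_⟩, m2, m3, m4⟩
    · intro h4
      exact h1 (List.map_eq_nil_iff.1 h4)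
    · rw [List.length_map]
      exact h2
    · rw [← hset]
      exact m1

end Part
end SYS
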