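import Pool.Agent.SYS.Lib.Cyl
import Pool.Agent.SYS.Lib.Alt

/-!
# SYS-Reg-RchG: regions reached under a rule which depends on the region

`Rul σ`: `σ h S z` is a boundary dart of the hole of `z` (`h` = the steps made, `S` = the region, `z` = the first dart of the
outer hole word after the last step).  `RchG σ h S x w S' x'`: the numeric word `w` leads from `S, x` to `S', x'`.
`Rch ρ` is the special case `σ h S z = (S.nx ^ ρ h) z` (`rch_iff`).
-/

namespace SYS
namespace Part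

open Classical SST

section
variable {D : Type} [Finite D]

/-- A rule: the new gate is in the same hole. -/
def Rul (σ : List Stp → Part D → D → D) : Prop :=
  ∀ h S z, z ∈ S.B → σ h S z ∈ S.B ∧ S.s.SameCycle z (σ h S z)

/-- Regions (and gates) reached from `S`, `x` by the word, rule `σ`. -/
def RchG (σ : List Stp → Part D → D → D) : List Stp → Part D → D → List Stp → Part D → D → Prop
  | _, S, x, [], S', x' => S' = S ∧ x' = x
  | h, S, x, s :: w, S', x' => ∃ (S₁ : Part D) (z : D), S.St x s S₁ z ∧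
      RchG σ (h ++ [s]) S₁ (σ (h ++ [s]) S₁ z) w S' x'

theorem rul_loc (ρ : List Stp → ℕ) : Rul fun h (S : Part D) z => (S.nx ^ ρ h) z :=
  fun h S _ hz => nx_pow_same S hz (ρ h)

theorem rch_iff {ρ : List Stp → ℕ} {h w : List Stp} {S S' : Part D} {x x' : D} :
    Rch ρ h S x w S' x' ↔ RchG (fun h S z => (S.nx ^ ρ h) z) h S x w S' x' := by
  induction w generalizing h S x with
  | nil => exact Iff.rfl
  | cons s w ih =>
    constructor
    · rintro ⟨S₁, z, h1, h2⟩
      exact ⟨S₁, z, h1, ih.1 h2⟩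
    · rintro ⟨S₁, z, h1, h2⟩
      exact ⟨S₁, z, h1, ih.2 h2⟩

variable {σ : List Stp → Part D → D → D} {h : List Stp} {S S' : Part D} {x x' : D} {w : List Stp} {l : List D} {p : ℕ}
  {P : List ℕ} {F κ : ℕ}

theorem rchg_typ (hσ : Rul σ) (hS : S.Typ (x :: l) (p :: P) F κ) (hr : RchG σ h S x w S' x') : WOk p w ∧
    ∃ F', F' + wvol w = F ∧ S'.Typ (x' :: l) (wend p w :: P) F' κ := by
  induction w generalizing h S x p F with
  | nil =>
    obtain ⟨rfl, rfl⟩ := hr
    exact ⟨trivial, F, rfl, hS⟩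
  | cons s w ih =>
    obtain ⟨S₁, z, hst, hr⟩ := hr
    obtain ⟨hok, F₁, hF₁, hT⟩ := st_typ hS hst
    have hz := (st_sub hst).2.2
    have hn := hσ (h ++ [s]) S₁ z hz
    obtain ⟨hok', F', hF', hT'⟩ := ih (typ_repl hT hn.1 hn.2) hr
    refine ⟨⟨hok, hok'⟩, F', ?_, hT'⟩
    rw [wvol_cons]
    omega

theorem rchg_sub (hr : RchG σ h S x w S' x') : S.Sub S' := by
  induction w generalizing h S x with
  | nil =>
    obtain ⟨rfl, rfl⟩ := hr
    exact sub_refl _
  | cons s w ih =>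
    obtain ⟨S₁, z, hst, hr⟩ := hr
    exact sub_trans (st_sub hst).1 (ih hr)

theorem rchg_other (hσ : Rul σ) (hr : RchG σ h S x w S' x') {d : D} (hd : d ∈ S.B) (hx : ¬ S.s.SameCycle x d) :
    d ∈ S'.B ∧ S'.hw d = S.hw d ∧ ¬ S'.s.SameCycle x' d := by
  induction w generalizing h S x with
  | nil =>
    obtain ⟨rfl, rfl⟩ := hr
    exact ⟨hd, rfl, hx⟩
  | cons s w ih =>
    obtain ⟨S₁, z, hst, hr⟩ := hr
    obtain ⟨h1, h2, h3⟩ := st_other hst hd hx
    have hz := (st_sub hst).2.2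
    have hn := hσ (h ++ [s]) S₁ z hz
    obtain ⟨h4, h5, h6⟩ := ih hr h1 (fun h' => h3 (hn.2.trans h'))
    exact ⟨h4, h5.trans h2, h6⟩

theorem rchg_append {w' : List Stp} {S'' : Part D} {x'' : D} : RchG σ h S x (w ++ w') S'' x'' ↔
    ∃ S' x', RchG σ h S x w S' x' ∧ RchG σ (h ++ w) S' x' w' S'' x'' := by
  induction w generalizing h S x with
  | nil =>
    rw [List.nil_append, List.append_nil]
    constructor
    · intro hr
      exact ⟨S, x, ⟨rfl, rfl⟩, hr⟩
    · rintro ⟨S', x', ⟨rfl, rfl⟩, hr⟩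
      exact hr
  | cons s w ih =>
    have hass : h ++ s :: w = (h ++ [s]) ++ w := by rw [List.append_assoc, List.singleton_append]
    rw [hass]
    constructor
    · rintro ⟨S₁, z, hst, hr⟩
      obtain ⟨S', x', hr1, hr2⟩ := ih.1 hr
      exact ⟨S', x', ⟨S₁, z, hst, hr1⟩, hr2⟩
    · rintro ⟨S', x', ⟨S₁, z, hst, hr1⟩, hr2⟩
      exact ⟨S₁, z, hst, ih.2 ⟨S', x', hr1, hr2⟩⟩

theorem rchg_unique {S'' U : Part D} {x'' : D} (hr : RchG σ h S x w S' x') (hr' : RchG σ h S x w S'' x'') (hU : S'.Sub U)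
    (hU' : S''.Sub U) : S' = S'' ∧ x' = x'' := by
  induction w generalizing h S x with
  | nil =>
    obtain ⟨rfl, rfl⟩ := hr
    obtain ⟨rfl, rfl⟩ := hr'
    exact ⟨rfl, rfl⟩
  | cons s w ih =>
    obtain ⟨S₁, z, hst, hr⟩ := hr
    obtain ⟨S₂, z', hst', hr'⟩ := hr'
    obtain ⟨rfl, rfl⟩ := st_unique hst hst' (sub_trans (rchg_sub hr) hU) (sub_trans (rchg_sub hr') hU')
    exact ih hr hr'

theorem rchg_hconn {T : Tri D} (hr : RchG σ h S x w S' x') (hT : S'.Le T) (hc : S'.HConn T) : S.HConn T := by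
  induction w generalizing h S x with
  | nil =>
    obtain ⟨rfl, rfl⟩ := hr
    exact hc
  | cons s w ih =>
    obtain ⟨S₁, z, hst, hr⟩ := hr
    exact st_hconn hst (sub_le (rchg_sub hr) hT) (ih hr)

/-- Double counting. -/
theorem fib_card {α β : Type} [Finite α] [Finite β] (A : Set α) (B : Set β)
    (r : α → β → Prop) (hex : ∀ a ∈ A, ∃ b ∈ B, r a b)
    (hun : ∀ a ∈ A, ∀ b ∈ B, ∀ b' ∈ B, r a b → r a b' → b = b') :
    ((A.ncard : ℕ) : ℝ) = ∑ᶠ b ∈ B, ({a | a ∈ A ∧ r a b}.ncard : ℝ) := by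
  have := Fintype.ofFinite B
  have := Fintype.ofFinite β
  let f : (Σ b : B, {a // a ∈ A ∧ r a b.1}) → A := fun x => ⟨x.2.1, x.2.2.1⟩
  have hf : Function.Bijective f := by
    constructor
    · rintro ⟨⟨b, hb⟩, ⟨a, ha⟩⟩ ⟨⟨b', hb'⟩, ⟨a', ha'⟩⟩ h
      have h1 : a = a' := congrArg Subtype.val h
      subst h1
      have h2 : b = b' := hun a ha.1 b hb b' hb' ha.2 ha'.2
      subst h2
      rfl
    · rintro ⟨a, ha⟩
      obtain ⟨b, hb, hr⟩ := hex a ha
      exact ⟨⟨⟨b, hb⟩, ⟨a, ha, hr⟩⟩, rfl⟩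
  have h1 : A.ncard = ∑ b : B, Nat.card {a // a ∈ A ∧ r a b.1} := by
    rw [← Nat.card_coe_set_eq, ← Nat.card_eq_of_bijective f hf, Nat.card_sigma]
  rw [h1, Nat.cast_sum, finsum_mem_eq_finite_toFinset_sum _ (Set.toFinite B),
    Finset.sum_subtype (p := fun b => b ∈ B) _ (fun b => Set.Finite.mem_toFinset _)]
  exact Finset.sum_congr rfl fun b _ => rfl

/-- The number of regions reached by a word does not depend on the rule. -/
theorem rchg_card (hσ : Rul σ) (hS : S.Typ (x :: l) (p :: P) F κ) (hw : WOk p w) :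
    (({q : Part D × D | RchG σ h S x w q.1 q.2}.ncard : ℕ) : ℝ) =
      (((3 * F).descFactorial (3 * wvol w) : ℕ) : ℝ) * wwt 1 Num.W w := by
  induction w generalizing h S x p F with
  | nil =>
    have h1 : {q : Part D × D | RchG σ h S x [] q.1 q.2} = {(S, x)} := by
      ext q
      constructor
      · rintro ⟨h1, h2⟩
        exact Prod.ext h1 h2
      · rintro h1
        rw [Set.mem_singleton_iff] at h1
        rw [h1]
        exact ⟨rfl, rfl⟩
    rw [h1, Set.ncard_singleton, wvol_nil, wwt_nil]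
    simp
  | cons s w ih =>
    rw [WOk_cons] at hw
    have hA := fib_card {q : Part D × D | RchG σ h S x (s :: w) q.1 q.2}
      {b : Part D × D | S.St x s b.1 b.2}
      (fun q b => RchG σ (h ++ [s]) b.1 (σ (h ++ [s]) b.1 b.2) w q.1 q.2) ?_ ?_
    · have hc : ∀ b ∈ {b : Part D × D | S.St x s b.1 b.2},
          (({a | a ∈ {q : Part D × D | RchG σ h S x (s :: w) q.1 q.2} ∧
            RchG σ (h ++ [s]) b.1 (σ (h ++ [s]) b.1 b.2) w a.1 a.2}.ncard : ℕ) : ℝ) =
            (((3 * (F - s.vol)).descFactorial (3 * wvol w) : ℕ) : ℝ) * wwt 1 Num.W w := by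
        rintro ⟨S₁, z⟩ hb
        have hb' : S.St x s S₁ z := hb
        have hset : {a | a ∈ {q : Part D × D | RchG σ h S x (s :: w) q.1 q.2} ∧
            RchG σ (h ++ [s]) S₁ (σ (h ++ [s]) S₁ z) w a.1 a.2} =
            {q : Part D × D | RchG σ (h ++ [s]) S₁ (σ (h ++ [s]) S₁ z) w q.1 q.2} := by
          ext q
          exact ⟨fun hq => hq.2, fun hq => ⟨⟨S₁, z, hb', hq⟩, hq⟩⟩
        obtain ⟨-, F', hF', hT⟩ := st_typ hS hb'
        have hz : z ∈ S₁.B := hT.hl.1 z List.mem_cons_self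
        obtain ⟨h1, h2⟩ := hσ (h ++ [s]) S₁ z hz
        have hT' := typ_repl hT h1 h2
        have h3 := ih (h := h ++ [s]) hT' hw.2
        have h4 : F - s.vol = F' := by omega
        rw [hset, h3, h4]
      rw [hA, finsum_mem_congr rfl hc, finsum_mem_eq_finite_toFinset_sum _ (Set.toFinite _), Finset.sum_const,
        nsmul_eq_mul, ← Set.ncard_eq_toFinset_card _ (Set.toFinite _), st_card hS hw.1, wvol_cons, wwt_cons]
      have h1 : (3 * (F - s.vol)).descFactorial (3 * wvol w) * (3 * F).descFactorial (3 * s.vol) =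
          (3 * F).descFactorial (3 * (s.vol + wvol w)) := by
        have h2 := Nat.descFactorial_mul_descFactorial (k := 3 * s.vol)
          (m := 3 * (s.vol + wvol w)) (n := 3 * F) (by omega)
        rw [← h2]
        congr 2 <;> omega
      rw [← h1]
      push_cast
      ring
    · rintro q ⟨S₁, z, h1, h2⟩
      exact ⟨(S₁, z), h1, h2⟩
    · rintro q - ⟨S₁, z⟩ hb ⟨S₂, z₂⟩ hb' hr hr'
      obtain ⟨h1, h2⟩ := st_unique hb hb' (rchg_sub hr) (rchg_sub hr')
      exact Prod.ext h1 h2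

end

section
variable {n g : ℕ} {σ : List Stp → Part (Fin (6 * n)) → Fin (6 * n) → Fin (6 * n)} {h : List Stp}
  {S : Part (Fin (6 * n))} {x : Fin (6 * n)} {l : List (Fin (6 * n))} {p : ℕ} {P : List ℕ} {F κ : ℕ}

/-- Two words of the same run are comparable. -/
theorem rchg_cmp {w w' : List Stp} {S' S'' : Part (Fin (6 * n))} {x' x'' : Fin (6 * n)} {T : Tri (Fin (6 * n))}
    (hσ : Rul σ) (hS : S.Typ (x :: l) (p :: P) F κ) (hT : T ∈ S.Ext g) (ho : κ < g ∨ l ≠ [])
    (hr : RchG σ h S x w S' x') (hr' : RchG σ h S x w' S'' x'') (hL : S'.Le T) (hL' : S''.Le T) (hc : S'.HConn T)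
    (hc' : S''.HConn T) : w <+: w' ∨ w' <+: w := by
  induction w generalizing S x h w' p F with
  | nil => exact Or.inl (List.nil_prefix)
  | cons s w ih =>
    cases w' with
    | nil => exact Or.inr (List.nil_prefix)
    | cons s' w' =>
      obtain ⟨S₁, z, hs, hr1⟩ := hr
      obtain ⟨S₂, z', hs', hr2⟩ := hr'
      have hl1 := sub_le (rchg_sub hr1) hL
      have hl2 := sub_le (rchg_sub hr2) hL'
      have hc1 := rchg_hconn hr1 hL hc
      have hc2 := rchg_hconn hr2 hL' hc'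
      have hss : s = s' := stt_unique hS hT ho ⟨S₁, z, hs, hl1, hc1⟩ ⟨S₂, z', hs', hl2, hc2⟩
      subst hss
      obtain ⟨rfl, rfl⟩ := st_unique hs hs' (U := ofTri T) ((le_iff_sub _ T).1 hl1) ((le_iff_sub _ T).1 hl2)
      obtain ⟨-, F', -, ht⟩ := st_typ hS hs
      have hz := (st_sub hs).2.2
      obtain ⟨h1, h2⟩ := hσ (h ++ [s]) S₁ z hz
      have ht' := typ_repl ht h1 h2
      have h3 := ih ht' ⟨hT.1, hl1⟩ hr1 hr2
      rcases h3 with h3 | h3
      · exact Or.inl (List.cons_prefix_cons.2 ⟨rfl, h3⟩)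
      · exact Or.inr (List.cons_prefix_cons.2 ⟨rfl, h3⟩)

end

end Part
end SYS
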