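import Pool.Agent.SYS.Reg.Sim
import Pool.Agent.SYS.Reg.FilT
import Pool.Agent.SYS.Reg.RchG

/-!
# SYS-Reg-LSt: local steps, local runs (definitions)

`LSt S S₁ x W d s S₂ z`: the step `St S₁ d s S₂ z` of a run over the base `S, x` uses only new darts and darts of the window.
`LRch`: runs with local steps.  `pc S₁ S₂ θ ψ`: `ψ` on the darts revealed by the step, `θ` elsewhere.
-/

namespace SYS
namespace Part

open Classical SST

variable {D E : Type} [Finite D] [Finite E]

/-- The darts used by the step are in `NW`. -/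
def LocS (S S₁ : Part D) (x : D) (W : ℕ) (d : D) : Stp → Prop
  | .T => True
  | .R k _ => ∀ i : ℕ, i ≤ k + 2 → (S₁.nx ^ i) d ∈ NW S S₁ x W
  | .L k _ => S₁.nx d ∈ NW S S₁ x W ∧ ∀ i : ℕ, i ≤ k + 1 → (S₁.nx⁻¹ ^ i) d ∈ NW S S₁ x W

/-- A local step. -/
def LSt (S S₁ : Part D) (x : D) (W : ℕ) (d : D) (s : Stp) (S₂ : Part D) (z : D) : Prop :=
  S₁.St d s S₂ z ∧ LocS S S₁ x W d s

/-- Local runs over the base `S`, `x`. -/
def LRch (σ : List Stp → Part D → D → D) (S : Part D) (x : D) (W : ℕ) :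
    List Stp → Part D → D → List Stp → Part D → D → Prop
  | _, S₁, d, [], S', x' => S' = S₁ ∧ x' = d
  | h, S₁, d, s :: w, S', x' => ∃ (S₂ : Part D) (z : D), LSt S S₁ x W d s S₂ z ∧
      LRch σ S x W (h ++ [s]) S₂ (σ (h ++ [s]) S₂ z) w S' x'

theorem lrch_rchg {σ : List Stp → Part D → D → D} {S S₁ S' : Part D} {x d x' : D} {W : ℕ} {h w : List Stp}
    (hr : LRch σ S x W h S₁ d w S' x') : RchG σ h S₁ d w S' x' := by
  induction w generalizing h S₁ d with
  | nil => exact hr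
  | cons s w ih =>
    obtain ⟨S₂, z, h1, h2⟩ := hr
    exact ⟨S₂, z, h1.1, ih h2⟩

/-- `ψ` on the new darts of the step, `θ` elsewhere. -/
noncomputable def pc (S₁ S₂ : Part D) (θ ψ : D → E) (e : D) : E := if e ∈ S₂.R \ S₁.R then ψ e else θ e

/-- The rules `σ` over `S, x` and `σ'` over `T, y` agree under isomorphisms of the new parts. -/
def IRul (σ : List Stp → Part D → D → D) (σ' : List Stp → Part E → E → E) (S : Part D) (x : D) (T : Part E) (y : E)
    (W : ℕ) : Prop :=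
  ∀ (h : List Stp) (S₁ : Part D) (T₁ : Part E) (θ : D → E) (z : D), Sim S S₁ x T T₁ y W θ → z ∈ NW S S₁ x W → z ∈ S₁.B →
    σ h S₁ z ∈ NW S S₁ x W ∧ σ' h T₁ (θ z) = θ (σ h S₁ z)

/-- Boundary darts absorbed by a word (at most). -/
def wk (w : List Stp) : ℕ := (w.map fun s => match s with | .T => 0 | .L k _ => k + 2 | .R k _ => k + 2).sum

end Part
end SYS
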