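import Pool.Agent.SYS.Reg.Tree
import Pool.Agent.SYS.GR.Defs
import Pool.Agent.SYS.PL.Gr
import Pool.Agent.SYS.VI.Uu

/-!
# SYS-Reg-TreeU: numeric functionals on the tree of regions

Consequences of `tree_le`, `rchg_card`, `word_UU` and `typ_card`.
-/

namespace SYS
namespace Part

open Classical SST Num

private theorem tu_wt (X : ℝ) (s : Stp) : s.wt 1 W * s.wt (AA X) (q1 X) = s.wt (AA X) (qq X) := by
  cases s with
  | T => exact one_mul _
  | L k a =>
    show W k a * q1 X k a = qq X k a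
    unfold q1 qq
    ring
  | R k a =>
    show W k a * q1 X k a = qq X k a
    unfold q1 qq
    ring

private theorem tu_wwt (X : ℝ) (w : List Stp) : wwt 1 W w * wwt (AA X) (q1 X) w = PRW X w := by
  induction w with
  | nil =>
    unfold PRW
    rw [wwt_nil, wwt_nil, wwt_nil, one_mul]
  | cons s w ih =>
    unfold PRW at ih ⊢
    rw [wwt_cons, wwt_cons, wwt_cons, ← ih, ← tu_wt]
    ring

section
variable {D : Type} [Finite D] {σ : List Stp → Part D → D → D} {h : List Stp} {S S' : Part D} {x x' : D} {l : List D}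
  {p : ℕ} {P : List ℕ} {F κ : ℕ} {w : List Stp}

private theorem tu_ne (hσ : Rul σ) (hS : S.Typ (x :: l) (p :: P) F κ) (hr : RchG σ h S x w S' x') :
    wwt 1 W w ≠ 0 := by
  have h1 := rchg_card (h := h) hσ hS (rchg_typ hσ hS hr).1
  intro h0
  rw [h0, mul_zero] at h1
  have h2 : {q : Part D × D | RchG σ h S x w q.1 q.2}.ncard = 0 := by exact_mod_cast h1
  rw [Set.ncard_eq_zero (Set.toFinite _)] at h2
  have h3 : (S', x') ∈ {q : Part D × D | RchG σ h S x w q.1 q.2} := hr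
  rw [h2] at h3
  exact h3

private theorem tu_vol (hσ : Rul σ) (hS : S.Typ (x :: l) (p :: P) F κ) (hr : RchG σ h S x w S' x') :
    wvol w ≤ F := by
  obtain ⟨-, F', hF', -⟩ := rchg_typ hσ hS hr
  omega

theorem rchg_par (hσ : Rul σ) (hS : S.Typ (x :: l) (p :: P) F κ) (hr : RchG σ h S x w S' x') :
    Even (wvol w + wend p w + p) := by
  exact word_par (rchg_typ hσ hS hr).1 (tu_ne hσ hS hr)

theorem step_le {X : ℝ} (hX : 0 < X) (hS : S.Typ (x :: l) (p :: P) F κ) (C : Finset (Stp × Part D × D))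
    (hC : ∀ c ∈ C, S.St x c.1 c.2.1 c.2.2) (φ : Stp → ℝ) (hφ : ∀ s, 0 ≤ φ s) {B : ℝ}
    (hB : ∀ G : Finset Stp, (∀ s ∈ G, s.Ok p ∧ s.vol ≤ F) → ∑ s ∈ G, s.wt (AA X) (qq X) * φ s ≤ B) :
    ∑ c ∈ C, nwt X F [c.1] * φ c.1 ≤ B := by
  have hok : ∀ s ∈ C.image Prod.fst, s.Ok p ∧ s.vol ≤ F := by
    intro s hs
    rw [Finset.mem_image] at hs
    obtain ⟨c, hc, rfl⟩ := hs
    obtain ⟨h1, F', hF', -⟩ := st_typ hS (hC c hc)
    exact ⟨h1, by omega⟩
  refine le_trans ?_ (hB (C.image Prod.fst) hok)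
  have h1 : ∑ c ∈ C, nwt X F [c.1] * φ c.1 =
      ∑ s ∈ C.image Prod.fst, (C.filter fun c => c.1 = s).card • (nwt X F [s] * φ s) :=
    Finset.sum_comp (fun s => nwt X F [s] * φ s) Prod.fst
  rw [h1]
  refine Finset.sum_le_sum fun s hs => ?_
  obtain ⟨hs1, hs2⟩ := hok s hs
  have h2 := st_card hS hs1
  have h3 : (C.filter fun c => c.1 = s).card ≤ {q : Part D × D | S.St x s q.1 q.2}.ncard := by
    have e1 : (C.filter fun c => c.1 = s).card = ((C.filter fun c => c.1 = s).image Prod.snd).card := by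
      refine (Finset.card_image_of_injOn ?_).symm
      intro c hc c' hc' hcc
      rw [Finset.mem_coe, Finset.mem_filter] at hc hc'
      exact Prod.ext (hc.2.trans hc'.2.symm) hcc
    rw [e1, ← Set.ncard_coe_finset]
    refine Set.ncard_le_ncard ?_ (Set.toFinite _)
    intro q hq
    rw [Finset.mem_coe, Finset.mem_image] at hq
    obtain ⟨c, hc, rfl⟩ := hq
    rw [Finset.mem_filter] at hc
    have := hC c hc.1
    rw [hc.2] at this
    exact this
  have h4 : (((C.filter fun c => c.1 = s).card : ℕ) : ℝ) ≤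
      (((3 * F).descFactorial (3 * s.vol) : ℕ) : ℝ) * s.wt 1 W := by
    rw [← h2]
    exact_mod_cast h3
  have h5 : (0 : ℝ) < (((3 * F).descFactorial (3 * s.vol) : ℕ) : ℝ) := by
    have : 0 < (3 * F).descFactorial (3 * s.vol) := Nat.descFactorial_pos.2 (by omega)
    exact_mod_cast this
  have h6 : nwt X F [s] = s.wt (AA X) (q1 X) / (((3 * F).descFactorial (3 * s.vol) : ℕ) : ℝ) := by
    unfold nwt
    rw [wwt_cons, wwt_nil, mul_one, wvol_cons, wvol_nil, add_zero]
  have h7 : 0 ≤ nwt X F [s] * φ s := mul_nonneg (nwt_nonneg hX F _) (hφ s)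
  rw [nsmul_eq_mul]
  refine (mul_le_mul_of_nonneg_right h4 h7).trans (le_of_eq ?_)
  rw [h6, ← tu_wt]
  field_simp

theorem tree_U {X : ℝ} (hX : 0 < X) (hσ : Rul σ) (hS : S.Typ (x :: l) (p :: P) F κ)
    (Q : Finset (List Stp × Part D × D)) (hQ : ∀ q ∈ Q, RchG σ h S x q.1 q.2.1 q.2.2)
    (hpf : ∀ q ∈ Q, ∀ q' ∈ Q, Anc σ h q q' → q = q') (U : ℕ → ℕ → ℝ) (hU : GR.SM (law hX) U) :
    ∑ q ∈ Q, nwt X F q.1 * U (wend p q.1) (wvol q.1) ≤ U p 0 := by
  have hp : 1 ≤ p := by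
    have h1 := hS.per
    rw [List.map_cons] at h1
    have h2 := (List.cons.inj h1).1
    rw [← h2]
    exact S.per_pos (hS.hl.1 x List.mem_cons_self)
  have key := tree_le (h := h) hX hσ hS Q hQ hpf (fun u _ _ => U (wend p u) (wvol u)) (fun u _ _ => hU.1 _ _) ?_
  · exact key
  · intro u S' x' hr _ _ C hC
    obtain ⟨hok, F', hF', hT⟩ := rchg_typ hσ hS hr
    have hF : F - wvol u = F' := by omega
    rw [hF]
    have e1 : ∀ c ∈ C, nwt X F' [c.1] * U (wend p (u ++ [c.1])) (wvol (u ++ [c.1])) =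
        nwt X F' [c.1] * U (c.1.nx (wend p u)) (wvol u + c.1.vol) := by
      intro c _
      rw [wend_append, wvol_append, wend_cons, wend_nil, wvol_cons, wvol_nil, add_zero]
    show ∑ c ∈ C, nwt X F' [c.1] * U (wend p (u ++ [c.1])) (wvol (u ++ [c.1])) ≤ U (wend p u) (wvol u)
    rw [Finset.sum_congr rfl e1]
    refine step_le hX hT C hC (fun s => U (s.nx (wend p u)) (wvol u + s.vol)) (fun s => hU.1 _ _) fun G hG => ?_
    exact hU.2 (wend p u) (wvol u) G (one_le_wend hp hok) fun s hs => (hG s hs).1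

theorem node_UU {X : ℝ} (hX : 0 < X) (hσ : Rul σ) (hS : S.Typ (x :: l) (p :: P) F κ) (hr : RchG σ h S x w S' x')
    (Q : Multiset ℕ) (g : ℕ) :
    ((3 * (F - wvol w)).factorial : ℝ) * muG (wend p w ::ₘ Q) (F - wvol w) g * (√(yy X) ^ (F + p) / AA X ^ p) =
      ((3 * F).factorial : ℝ) * nwt X F w * UU X Q g (wend p w) (F - wvol w) := by
  have hw := (rchg_typ hσ hS hr).1
  have hv := tu_vol hσ hS hr
  have hne := tu_ne hσ hS hr
  have h1 := word_UU X Q g p F w hw hv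
  rw [← tu_wwt, mul_assoc (wwt 1 W w), mul_assoc (wwt 1 W w)] at h1
  have h2 := mul_left_cancel₀ hne h1
  have h3 : (3 * F - 3 * wvol w).factorial * (3 * F).descFactorial (3 * wvol w) = (3 * F).factorial :=
    Nat.factorial_mul_descFactorial (by omega)
  have h4 : 3 * F - 3 * wvol w = 3 * (F - wvol w) := by omega
  rw [h4] at h3
  have h5 : (0 : ℝ) < (((3 * F).descFactorial (3 * wvol w) : ℕ) : ℝ) := by
    have : 0 < (3 * F).descFactorial (3 * wvol w) := Nat.descFactorial_pos.2 (by omega)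
    exact_mod_cast this
  rw [mul_assoc, h2, ← h3]
  unfold nwt
  push_cast
  field_simp

end

section
variable {n g : ℕ} {σ : List Stp → Part (Fin (6 * n)) → Fin (6 * n) → Fin (6 * n)} {h : List Stp}
  {S S' : Part (Fin (6 * n))} {x x' : Fin (6 * n)} {l : List (Fin (6 * n))} {p : ℕ} {P : List ℕ} {F κ : ℕ} {w : List Stp}

/-- Number of triangulations over a node. -/
theorem ext_UU {X : ℝ} (hX : 0 < X) (hσ : Rul σ) (hS : S.Typ (x :: l) (p :: P) F κ) (hr : RchG σ h S x w S' x') :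
    (({T | T ∈ S'.Ext (g + κ) ∧ S'.HConn T}.ncard : ℕ) : ℝ) * (√(yy X) ^ (F + p) / AA X ^ p) =
      ((3 * F).factorial : ℝ) * nwt X F w * UU X (P : Multiset ℕ) g (wend p w) (F - wvol w) := by
  obtain ⟨-, F', hF', hT⟩ := rchg_typ hσ hS hr
  have hF : F - wvol w = F' := by omega
  have h1 := typ_card (h := g) hT
  have h2 := node_UU hX hσ hS hr (P : Multiset ℕ) g
  rw [hF] at h2 ⊢
  rw [h1, ← h2]
  rfl

end

end Part
end SYS
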