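import Pool.Agent.SYS.Lib.CntB

/-!
# SYS-Reg-FilP: fillings and pairs of permutations (export of the correspondence of `Lib/CntB.lean`)

PLAN.  Copy the private lemmas `fb_*`, `Cor`, `cor_*`, `perm_mem`, `Sf_fix`, `Sa_fix`, `zs_*`, `meets`, `cor_mk` of `Lib/CntB.lean` into this file (rename nothing; they are private there) and read off the two
statements from the proof of `fill_pairs` (both directions are there).
-/

namespace SYS
namespace Part

open Classical SST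

variable {D : Type} [Finite D]

private theorem fb_nat {τ : Equiv.Perm D} {u v : D} (h : τ.SameCycle u v) : ∃ n : ℕ, (τ ^ n) u = v := by
  obtain ⟨n, hn⟩ := h.exists_pow_eq'
  exact ⟨n, hn.2⟩

omit [Finite D] in
private theorem fb_pow {τ : Equiv.Perm D} (u : D) (n : ℕ) : τ.SameCycle u ((τ ^ n) u) :=
  ⟨n, by rw [zpow_natCast]⟩

omit [Finite D] in
private theorem fb_step {τ : Equiv.Perm D} (u : D) : τ.SameCycle u (τ u) :=
  ⟨1, by rw [zpow_one]⟩

private theorem fb_union (σ : Equiv.Perm D) {A B : Set D} (h : ∀ d ∈ A, ∀ e ∈ B, ¬ σ.SameCycle d e) :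
    ncycOn σ (A ∪ B) = ncycOn σ A + ncycOn σ B := by
  show ((Quotient.mk (Equiv.Perm.SameCycle.setoid σ)) '' (A ∪ B)).ncard =
    ((Quotient.mk (Equiv.Perm.SameCycle.setoid σ)) '' A).ncard +
      ((Quotient.mk (Equiv.Perm.SameCycle.setoid σ)) '' B).ncard
  rw [Set.image_union, Set.ncard_union_eq ?_ (Set.toFinite _) (Set.toFinite _)]
  rw [Set.disjoint_left]
  rintro _ ⟨d, hd, rfl⟩ ⟨e, he, h1⟩
  exact h d hd e he (Quotient.exact h1.symm)

private theorem fb_eq (σ : Equiv.Perm D) {A B : Set D} (h1 : ∀ d ∈ A, ∃ e ∈ B, σ.SameCycle d e)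
    (h2 : ∀ d ∈ B, ∃ e ∈ A, σ.SameCycle d e) : ncycOn σ A = ncycOn σ B := by
  unfold ncycOn
  congr 1
  ext q
  constructor
  · rintro ⟨d, hd, rfl⟩
    obtain ⟨e, he, h⟩ := h1 d hd
    exact ⟨e, he, Quotient.sound h.symm⟩
  · rintro ⟨d, hd, rfl⟩
    obtain ⟨e, he, h⟩ := h2 d hd
    exact ⟨e, he, Quotient.sound h.symm⟩

omit [Finite D] in
private theorem fb_ncard {A B : Type} (f : D → A) (g : D → B) (X : Set D)
    (h : ∀ d ∈ X, ∀ e ∈ X, f d = f e ↔ g d = g e) : (f '' X).ncard = (g '' X).ncard := by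
  refine Set.ncard_congr (fun a ha => g ha.choose) ?_ ?_ ?_
  · intro a ha
    exact ⟨ha.choose, ha.choose_spec.1, rfl⟩
  · intro a b ha hb hab
    have h1 := (h _ ha.choose_spec.1 _ hb.choose_spec.1).2 hab
    rw [ha.choose_spec.2, hb.choose_spec.2] at h1
    exact h1
  · rintro _ ⟨d, hd, rfl⟩
    have ha : f d ∈ f '' X := ⟨d, hd, rfl⟩
    exact ⟨f d, ha, (h _ ha.choose_spec.1 _ hd).1 ha.choose_spec.2⟩

private theorem fb_agree {σ τ : Equiv.Perm D} {A : Set D}
    (h : ∀ d ∈ A, ∀ e ∈ A, σ.SameCycle d e ↔ τ.SameCycle d e) : ncycOn σ A = ncycOn τ A := by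
  refine fb_ncard (Quotient.mk (Equiv.Perm.SameCycle.setoid σ))
    (Quotient.mk (Equiv.Perm.SameCycle.setoid τ)) A fun d hd e he => ?_
  constructor
  · intro h1
    exact Quotient.sound ((h d hd e he).1 (Quotient.exact h1))
  · intro h1
    exact Quotient.sound ((h d hd e he).2 (Quotient.exact h1))

/-- the part `S'` and the pair `(f, α)` correspond -/
private structure Cor (S S' : Part D) (W H : Set D) (f α : Equiv.Perm D) : Prop where
  hH : H ⊆ S.B
  hW : ∀ d ∈ W, d ∉ S.R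
  ef : ∀ d, S'.f d = S.f (f d)
  ea : ∀ d, S'.a d = S.a (α d)
  f_off : ∀ d ∉ W, f d = d
  f_on : ∀ d ∈ W, f d ≠ d
  a_off : ∀ d ∉ W ∪ H, α d = d
  a_on : ∀ d ∈ W ∪ H, α d ≠ d
  aa : ∀ d, α (α d) = d

section
variable {S S' : Part D} {W H : Set D} {f α : Equiv.Perm D}

omit [Finite D] in
private theorem perm_mem {W : Set D} {f : Equiv.Perm D} (h1 : ∀ d ∉ W, f d = d) (h2 : ∀ d ∈ W, f d ≠ d) {d : D}
    (hd : d ∈ W) : f d ∈ W := by
  by_contra hc
  exact h2 d hd (f.injective (h1 _ hc))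

omit [Finite D] in
private theorem Sf_fix (hW : ∀ d ∈ W, d ∉ S.R) {d : D} (hd : d ∈ W) : S.f d = d := not_not.1 (hW d hd)

omit [Finite D] in
private theorem Sa_fix (hH : H ⊆ S.B) (hW : ∀ d ∈ W, d ∉ S.R) {d : D} (hd : d ∈ W ∪ H) : S.a d = d := by
  rcases hd with hd | hd
  · exact S.af d (Sf_fix hW hd)
  · exact (hH hd).2

omit [Finite D] in
private theorem cf_W (c : Cor S S' W H f α) {d : D} (hd : d ∈ W) : S'.f d = f d := by
  rw [c.ef, Sf_fix c.hW (perm_mem c.f_off c.f_on hd)]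

omit [Finite D] in
private theorem cf_nW (c : Cor S S' W H f α) {d : D} (hd : d ∉ W) : S'.f d = S.f d := by
  rw [c.ef, c.f_off d hd]

omit [Finite D] in
private theorem ca_Y (c : Cor S S' W H f α) {d : D} (hd : d ∈ W ∪ H) : S'.a d = α d := by
  rw [c.ea, Sa_fix c.hH c.hW (perm_mem c.a_off c.a_on hd)]

omit [Finite D] in
private theorem ca_nY (c : Cor S S' W H f α) {d : D} (hd : d ∉ W ∪ H) : S'.a d = S.a d := by
  rw [c.ea, c.a_off d hd]

omit [Finite D] in
private theorem cor_nW (c : Cor S S' W H f α) {d : D} (hd : d ∈ S.R) : d ∉ W := fun h => c.hW d h hd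

omit [Finite D] in
private theorem cor_R (c : Cor S S' W H f α) : S'.R = S.R ∪ W := by
  ext d
  show S'.f d ≠ d ↔ S.f d ≠ d ∨ d ∈ W
  by_cases hd : d ∈ W
  · rw [cf_W c hd]
    exact ⟨fun _ => Or.inr hd, fun _ => c.f_on d hd⟩
  · rw [cf_nW c hd]
    exact ⟨fun h => Or.inl h, fun h => h.resolve_right hd⟩

omit [Finite D] in
private theorem cor_B (c : Cor S S' W H f α) : S'.B = S.B \ H := by
  ext d
  show (S'.f d ≠ d ∧ S'.a d = d) ↔ (S.f d ≠ d ∧ S.a d = d) ∧ d ∉ H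
  by_cases hd : d ∈ W ∪ H
  · rw [ca_Y c hd]
    constructor
    · intro h
      exact absurd h.2 (c.a_on d hd)
    · intro h
      rcases hd with hd | hd
      · exact absurd h.1.1 (c.hW d hd)
      · exact absurd hd h.2
  · rw [ca_nY c hd, cf_nW c (fun h => hd (Or.inl h))]
    exact ⟨fun h => ⟨h, fun h' => hd (Or.inr h')⟩, fun h => h.1⟩

omit [Finite D] in
private theorem cor_sub (c : Cor S S' W H f α) : S.Sub S' := by
  refine ⟨fun d hd => ?_, fun d hd => ?_⟩
  · exact cf_nW c (cor_nW c hd)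
  · exact ca_nY c (fun h => hd (Sa_fix c.hH c.hW h))

omit [Finite D] in
private theorem cor_s (c : Cor S S' W H f α) {d : D} (hd : d ∈ S.R) (hd' : d ∉ H) : S'.s d = S.s d := by
  rw [s_apply, s_apply, ca_nY c (fun h => h.elim (cor_nW c hd) hd'), cf_nW c (cor_nW c ((mem_R_a S d).2 hd))]

private theorem cor_ret (c : Cor S S' W H f α) (hnx : ∀ d, S.nx d ∈ H ↔ d ∈ H) {d : D} (hd : d ∈ W ∪ H) :
    ret S'.s (W ∪ H) d = (f * restr S.nx H hnx * α) d := by
  rw [Equiv.Perm.mul_apply, Equiv.Perm.mul_apply]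
  have he : α d ∈ W ∪ H := perm_mem c.a_off c.a_on hd
  have h0 : S'.s d = S'.f (α d) := by rw [s_apply, ca_Y c hd]
  rcases he with he | he
  · have hH : α d ∉ H := fun h => c.hW _ he (B_sub_R S (c.hH h))
    rw [restr_not_mem S.nx hnx hH]
    rw [cf_W c he] at h0
    have h1 : (S'.s ^ (0 + 1)) d = f (α d) := by rw [zero_add, pow_one, h0]
    rw [← h1]
    exact ret_eq S'.s hd (by rw [h1]; exact Or.inl (perm_mem c.f_off c.f_on he))
      (fun i hi => absurd hi (Nat.not_lt_zero i))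
  · have hB : α d ∈ S.B := c.hH he
    have hnW : ∀ z ∈ H, z ∉ W := fun z hz hz' => c.hW z hz' (B_sub_R S (c.hH hz))
    rw [restr_mem S.nx hnx he, c.f_off _ (hnW _ ((hnx _).2 he))]
    obtain ⟨j, h1, h2, h3⟩ := ret_spec S.s hB
    have h1' : S.nx (α d) = (S.s ^ (j + 1)) (α d) := h1
    have key : ∀ i ≤ j, (S'.s ^ (i + 1)) d = (S.s ^ (i + 1)) (α d) ∧ (S.s ^ (i + 1)) (α d) ∈ S.R := by
      intro i
      induction i with
      | zero =>
        intro _
        rw [zero_add, pow_one, pow_one, h0, s_apply, hB.2, cf_nW c (hnW _ he)]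
        exact ⟨rfl, (mem_R_f S _).2 hB.1⟩
      | succ i ih =>
        intro hi
        obtain ⟨h4, h5⟩ := ih (by omega)
        have h6 := h3 i (by omega)
        rw [pow_succ', pow_succ' S.s, Equiv.Perm.mul_apply, Equiv.Perm.mul_apply, h4]
        refine ⟨cor_s c h5 (fun h => h6 (c.hH h)), (mem_R_s S _).2 h5⟩
    rw [h1', ← (key j le_rfl).1]
    refine ret_eq S'.s hd ?_ ?_
    · rw [(key j le_rfl).1, ← h1']
      exact Or.inr ((hnx _).2 he)
    · intro i hi
      obtain ⟨h4, h5⟩ := key i (by omega)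
      rw [h4]
      rintro (h | h)
      · exact c.hW _ h h5
      · exact h3 i hi (c.hH h)

/-- the union of the classes in `S.R` which do not meet `H` -/
private def Zs (S : Part D) (H : Set D) : Set D := {d | d ∈ S.R ∧ ∀ z ∈ H, ¬ S.s.SameCycle d z}

omit [Finite D] in
private theorem zs_pow (c : Cor S S' W H f α) {d : D} (hd : d ∈ Zs S H) (n : ℕ) :
    (S'.s ^ n) d = (S.s ^ n) d ∧ (S.s ^ n) d ∈ Zs S H := by
  induction n with
  | zero => exact ⟨rfl, hd⟩
  | succ n ih =>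
    obtain ⟨h1, h2, h3⟩ := ih
    rw [pow_succ', pow_succ', Equiv.Perm.mul_apply, Equiv.Perm.mul_apply, h1]
    refine ⟨cor_s c h2 (fun h => h3 _ h (Equiv.Perm.SameCycle.refl _ _)), (mem_R_s S _).2 h2, ?_⟩
    intro z hz h
    exact h3 z hz ((fb_step _).trans h)

private theorem zs_same (c : Cor S S' W H f α) {d e : D} (hd : d ∈ Zs S H) :
    S'.s.SameCycle d e ↔ S.s.SameCycle d e := by
  constructor
  · intro h
    obtain ⟨n, hn⟩ := fb_nat h
    rw [(zs_pow c hd n).1] at hn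
    rw [← hn]
    exact fb_pow d n
  · intro h
    obtain ⟨n, hn⟩ := fb_nat h
    rw [← (zs_pow c hd n).1] at hn
    rw [← hn]
    exact fb_pow d n

private theorem zs_closed (c : Cor S S' W H f α) {d e : D} (hd : d ∈ Zs S H) (h : S.s.SameCycle d e) :
    e ∈ Zs S H := by
  obtain ⟨n, hn⟩ := fb_nat h
  rw [← hn]
  exact (zs_pow c hd n).2

omit [Finite D] in
private theorem meets (c : Cor S S' W H f α) {z : D} (hz : z ∈ H) :
    ∀ (n : ℕ) (d : D), d ∈ S.R → (S.s ^ n) d = z → ∃ y ∈ W ∪ H, S'.s.SameCycle d y := by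
  intro n
  induction n with
  | zero =>
    intro d _ h
    have h' : d = z := h
    rw [h']
    exact ⟨z, Or.inr hz, Equiv.Perm.SameCycle.refl _ _⟩
  | succ n ih =>
    intro d hd h
    by_cases hH : d ∈ H
    · exact ⟨d, Or.inr hH, Equiv.Perm.SameCycle.refl _ _⟩
    · rw [pow_succ, Equiv.Perm.mul_apply] at h
      obtain ⟨y, hy, h1⟩ := ih (S.s d) ((mem_R_s S d).2 hd) h
      rw [← cor_s c hd hH] at h1
      exact ⟨y, hy, (fb_step d).trans h1⟩

private theorem cor_inn (c : Cor S S' W H f α) (hun : ∀ d ∈ H, ∀ e ∈ S.B, S.s.SameCycle d e → e ∈ H) :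
    S'.inn = S.inn + ncycOn S'.s (W ∪ H) := by
  have h1 := inn_eq S'
  have h2 := inn_eq S
  have hR := cor_R c
  have e1 : ncycOn S'.s S'.R = ncycOn S'.s (Zs S H) + ncycOn S'.s (S'.R \ Zs S H) := by
    rw [← fb_union]
    · congr 1
      ext d
      constructor
      · intro hd
        by_cases hz : d ∈ Zs S H
        · exact Or.inl hz
        · exact Or.inr ⟨hd, hz⟩
      · rintro (hd | hd)
        · rw [hR]
          exact Or.inl hd.1
        · exact hd.1
    · intro d hd e he h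
      exact he.2 (zs_closed c hd ((zs_same c hd).1 h))
  have e2 : ncycOn S'.s (S'.R \ Zs S H) = ncycOn S'.s (W ∪ H) := by
    apply fb_eq
    · rintro d ⟨hd, hz⟩
      rw [hR] at hd
      rcases hd with hd | hd
      · have hz' : ∃ z ∈ H, S.s.SameCycle d z := by
          by_contra hcon
          push Not at hcon
          exact hz ⟨hd, hcon⟩
        obtain ⟨z, hzH, h3⟩ := hz'
        obtain ⟨n, hn⟩ := fb_nat h3
        exact meets c hzH n d hd hn
      · exact ⟨d, Or.inl hd, Equiv.Perm.SameCycle.refl _ _⟩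
    · intro d hd
      refine ⟨d, ⟨?_, ?_⟩, Equiv.Perm.SameCycle.refl _ _⟩
      · rw [hR]
        rcases hd with hd | hd
        · exact Or.inr hd
        · exact Or.inl (B_sub_R S (c.hH hd))
      · rintro ⟨h3, h4⟩
        rcases hd with hd | hd
        · exact c.hW d hd h3
        · exact h4 d hd (Equiv.Perm.SameCycle.refl _ _)
  have e3 : ncycOn S'.s (Zs S H) = ncycOn S.s (Zs S H) := fb_agree fun d hd e _ => zs_same c hd
  have e4 : ncycOn S.s S.R = ncycOn S.s (Zs S H) + ncycOn S.s (S.R \ Zs S H) := by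
    rw [← fb_union]
    · congr 1
      ext d
      constructor
      · intro hd
        by_cases hz : d ∈ Zs S H
        · exact Or.inl hz
        · exact Or.inr ⟨hd, hz⟩
      · rintro (hd | hd)
        · exact hd.1
        · exact hd.1
    · intro d hd e he h
      exact he.2 (zs_closed c hd h)
  have e5 : ncycOn S.s (S.R \ Zs S H) = ncycOn S.s H := by
    apply fb_eq
    · rintro d ⟨hd, hz⟩
      by_contra hcon
      push Not at hcon
      exact hz ⟨hd, hcon⟩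
    · intro d hd
      refine ⟨d, ⟨B_sub_R S (c.hH hd), ?_⟩, Equiv.Perm.SameCycle.refl _ _⟩
      rintro ⟨h3, h4⟩
      exact h4 d hd (Equiv.Perm.SameCycle.refl _ _)
  have e6 : ncycOn S.s S.B = ncycOn S.s (S.B \ H) + ncycOn S.s H := by
    rw [← fb_union]
    · congr 1
      ext d
      constructor
      · intro hd
        by_cases hz : d ∈ H
        · exact Or.inr hz
        · exact Or.inl ⟨hd, hz⟩
      · rintro (hd | hd)
        · exact hd.1
        · exact c.hH hd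
    · intro d hd e he h
      exact hd.2 (hun e he d hd.1 h.symm)
  have hBZ : ∀ d ∈ S.B \ H, d ∈ Zs S H := by
    rintro d ⟨hd, hH⟩
    refine ⟨B_sub_R S hd, fun z hz h => hH (hun z hz d hd h.symm)⟩
  have e7 : ncycOn S'.s S'.B = ncycOn S.s (S.B \ H) := by
    rw [cor_B c]
    exact fb_agree fun d hd e _ => zs_same c (hBZ d hd)
  omega

private theorem cor_V (c : Cor S S' W H f α) (hnx : ∀ d, S.nx d ∈ H ↔ d ∈ H) :
    ncycOn S'.s (W ∪ H) = ncycOn (f * restr S.nx H hnx * α) (W ∪ H) := by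
  rw [← ncycOn_ret]
  symm
  apply ncycOn_congr
  · intro d
    by_cases hd : d ∈ W ∪ H
    · obtain ⟨j, h1, h2, h3⟩ := ret_spec S'.s hd
      exact ⟨fun _ => hd, fun _ => h2⟩
    · rw [ret_not_mem S'.s hd]
  · intro d hd
    exact (cor_ret c hnx hd).symm

private theorem cor_conn (c : Cor S S' W H f α) (hnx : ∀ d, S.nx d ∈ H ↔ d ∈ H) {Z : Set D} (hZ : Z ⊆ W ∪ H) :
    (∀ d ∈ Z, S'.a d ∈ Z ∧ (d ∉ S.R → S'.f d ∈ Z) ∧ (d ∈ S.B → S.nx d ∈ Z)) ↔
      ∀ d ∈ Z, α d ∈ Z ∧ f d ∈ Z ∧ restr S.nx H hnx d ∈ Z := by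
  refine forall_congr' fun d => forall_congr' fun hd => ?_
  rw [ca_Y c (hZ hd)]
  refine and_congr_right fun _ => ?_
  rcases hZ hd with h | h
  · have h1 : d ∉ S.R := c.hW d h
    have h2 : d ∉ S.B := fun h' => h1 (B_sub_R S h')
    have h3 : d ∉ H := fun h' => h2 (c.hH h')
    rw [restr_not_mem S.nx hnx h3, cf_W c h]
    exact ⟨fun h' => ⟨h'.1 h1, hd⟩, fun h' => ⟨fun _ => h'.1, fun h4 => absurd h4 h2⟩⟩
  · have h2 : d ∈ S.B := c.hH h
    have h1 : d ∈ S.R := B_sub_R S h2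
    rw [restr_mem S.nx hnx h, c.f_off d (cor_nW c h1)]
    exact ⟨fun h' => ⟨hd, h'.2 h2⟩, fun h' => ⟨fun h4 => absurd h1 h4, fun _ => h'.2⟩⟩

end

/-- from a part to a pair -/
private theorem cor_of {S S' : Part D} {W H : Set D} (hH : H ⊆ S.B) (hW : ∀ d ∈ W, d ∉ S.R) (hs : S.Sub S')
    (hB : S'.B = S.B \ H) (hR : S'.R \ S.R = W) :
    Cor S S' W H (S.f⁻¹ * S'.f) (S.a⁻¹ * S'.a) ∧ ∀ d, (S.f⁻¹ * S'.f) ((S.f⁻¹ * S'.f) ((S.f⁻¹ * S'.f) d)) = d := by
  have hR' : ∀ d, S'.f d ∈ S.R ↔ d ∈ S.R := by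
    intro d
    constructor
    · intro h
      have h1 : S'.f (S'.f d) = S.f (S'.f d) := hs.1 _ h
      have h2 : S'.f d ∈ S.R := h
      have h3 : S.f (S'.f d) ∈ S.R := (mem_R_f S _).2 h2
      have h4 : S'.f (S.f (S'.f d)) = S.f (S.f (S'.f d)) := hs.1 _ h3
      have h5 := S'.fff d
      rw [h1, h4] at h5
      rw [← h5]
      exact (mem_R_f S _).2 h3
    · intro h
      rw [hs.1 d h]
      exact (mem_R_f S d).2 h
  -- values of `f`
  have fR : ∀ d ∈ S.R, (S.f⁻¹ * S'.f) d = d := by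
    intro d hd
    rw [Equiv.Perm.mul_apply, Equiv.Perm.inv_eq_iff_eq]
    exact hs.1 d hd
  have fnR : ∀ d ∉ S.R, (S.f⁻¹ * S'.f) d = S'.f d := by
    intro d hd
    rw [Equiv.Perm.mul_apply, Equiv.Perm.inv_eq_iff_eq]
    exact (not_not.1 (fun h => hd ((hR' d).1 h))).symm
  -- `Y` is invariant under `S'.a` and fixed by `S.a`
  have hYf : ∀ d ∈ W ∪ H, S.a d = d := fun d hd => Sa_fix hH hW hd
  have hYne : ∀ d ∈ W ∪ H, S'.a d ≠ d := by
    intro d hd h
    have hdR : d ∈ S'.R := by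
      rcases hd with hd | hd
      · rw [← hR] at hd
        exact hd.1
      · exact hs.R_sub (B_sub_R S (hH hd))
    have h1 : d ∈ S'.B := ⟨hdR, h⟩
    rw [hB] at h1
    rcases hd with hd | hd
    · exact hW d hd (B_sub_R S h1.1)
    · exact h1.2 hd
  have hnY : ∀ d ∉ W ∪ H, S'.a d = S.a d := by
    intro d hd
    by_cases h1 : S.a d = d
    · by_cases h2 : d ∈ S'.R
      · have h3 : d ∈ S.R := by
          by_contra h4
          exact hd (Or.inl (by rw [← hR]; exact ⟨h2, h4⟩))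
        have h5 : d ∈ S'.B := by
          rw [hB]
          exact ⟨⟨h3, h1⟩, fun h => hd (Or.inr h)⟩
        rw [h5.2, h1]
      · rw [S'.af d (not_not.1 h2), h1]
    · exact hs.2 d h1
  have hYm : ∀ d ∈ W ∪ H, S'.a d ∈ W ∪ H := by
    intro d hd
    by_contra h
    have h1 := hnY _ h
    rw [S'.aa] at h1
    have h2 : S.a (S.a (S'.a d)) = S'.a d := S.aa _
    rw [← h1, hYf d hd] at h2
    exact hYne d hd h2.symm
  have aY : ∀ d ∈ W ∪ H, (S.a⁻¹ * S'.a) d = S'.a d := by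
    intro d hd
    rw [Equiv.Perm.mul_apply, Equiv.Perm.inv_eq_iff_eq]
    exact (hYf _ (hYm d hd)).symm
  have anY : ∀ d ∉ W ∪ H, (S.a⁻¹ * S'.a) d = d := by
    intro d hd
    rw [Equiv.Perm.mul_apply, Equiv.Perm.inv_eq_iff_eq]
    exact hnY d hd
  refine ⟨⟨hH, hW, ?_, ?_, ?_, ?_, ?_, ?_, ?_⟩, ?_⟩
  · intro d
    exact (S.f.apply_symm_apply (S'.f d)).symm
  · intro d
    exact (S.a.apply_symm_apply (S'.a d)).symm
  · intro d hd
    by_cases h : d ∈ S.R
    · exact fR d h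
    · rw [fnR d h]
      by_contra h1
      exact hd (by rw [← hR]; exact ⟨h1, h⟩)
  · intro d hd
    rw [fnR d (hW d hd)]
    rw [← hR] at hd
    exact hd.1
  · exact anY
  · intro d hd
    rw [aY d hd]
    exact hYne d hd
  · intro d
    by_cases hd : d ∈ W ∪ H
    · rw [aY d hd, aY _ (hYm d hd), S'.aa]
    · rw [anY d hd, anY d hd]
  · intro d
    by_cases hd : d ∈ S.R
    · rw [fR d hd, fR d hd, fR d hd]
    · have h1 : S'.f d ∉ S.R := fun h => hd ((hR' d).1 h)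
      have h2 : S'.f (S'.f d) ∉ S.R := fun h => h1 ((hR' _).1 h)
      rw [fnR d hd, fnR _ h1, fnR _ h2, S'.fff]

/-- from a pair to a part -/
private theorem cor_mk {S : Part D} {W H : Set D} (hH : H ⊆ S.B) (hW : ∀ d ∈ W, d ∉ S.R) {f α : Equiv.Perm D}
    (f_off : ∀ d ∉ W, f d = d) (f_on : ∀ d ∈ W, f d ≠ d) (fff : ∀ d, f (f (f d)) = d)
    (a_off : ∀ d ∉ W ∪ H, α d = d) (a_on : ∀ d ∈ W ∪ H, α d ≠ d) (aa : ∀ d, α (α d) = d) :
    ∃ S' : Part D, S'.f = S.f * f ∧ S'.a = S.a * α ∧ Cor S S' W H f α := by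
  have haa : ∀ d, (S.a * α) ((S.a * α) d) = d := by
    intro d
    simp only [Equiv.Perm.mul_apply]
    by_cases hd : d ∈ W ∪ H
    · rw [Sa_fix hH hW (perm_mem a_off a_on hd), aa, Sa_fix hH hW hd]
    · have h1 : S.a d ∉ W ∪ H := by
        intro h
        have h2 := Sa_fix hH hW h
        rw [S.aa] at h2
        rw [← h2] at h
        exact hd h
      rw [a_off d hd, a_off _ h1, S.aa]
  have hf1 : ∀ d ∈ W, (S.f * f) d = f d := by
    intro d hd
    rw [Equiv.Perm.mul_apply, Sf_fix hW (perm_mem f_off f_on hd)]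
  have hf2 : ∀ d ∉ W, (S.f * f) d = S.f d := by
    intro d hd
    rw [Equiv.Perm.mul_apply, f_off d hd]
  have hf3 : ∀ d ∉ W, S.f d ∉ W := by
    intro d hd h
    have h1 : d ∉ S.R := fun h' => hW _ h ((mem_R_f S d).2 h')
    have h2 : S.f d = d := not_not.1 h1
    rw [h2] at h
    exact hd h
  have hfff : ∀ d, (S.f * f) ((S.f * f) ((S.f * f) d)) = d := by
    intro d
    by_cases hd : d ∈ W
    · have h1 := perm_mem f_off f_on hd
      have h2 := perm_mem f_off f_on h1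
      rw [hf1 d hd, hf1 _ h1, hf1 _ h2, fff]
    · have h1 := hf3 d hd
      have h2 := hf3 _ h1
      rw [hf2 d hd, hf2 _ h1, hf2 _ h2, S.fff]
  have haf : ∀ d, (S.f * f) d = d → (S.a * α) d = d := by
    intro d hd
    by_cases h : d ∈ W
    · rw [hf1 d h] at hd
      exact absurd hd (f_on d h)
    · rw [hf2 d h] at hd
      have h1 : d ∉ S.R := fun h' => h' hd
      have h2 : d ∉ W ∪ H := by
        rintro (h' | h')
        · exact h h'
        · exact h1 (B_sub_R S (hH h'))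
      rw [Equiv.Perm.mul_apply, a_off d h2, S.af d hd]
  exact ⟨⟨S.a * α, S.f * f, haa, hfff, haf⟩, rfl, rfl, hH, hW, fun _ => rfl, fun _ => rfl, f_off, f_on, a_off, a_on, aa⟩

theorem hun_nx {S : Part D} {H : Set D} (hH : S.HUn H) (d : D) : S.nx d ∈ H ↔ d ∈ H := by
  have nx_same : ∀ {d : D}, d ∈ S.B → S.nx d ∈ S.B ∧ S.s.SameCycle d (S.nx d) := by
    intro d hd
    have h := nx_pow_same S hd 1
    rw [pow_one] at h
    exact h
  constructor
  · intro h1
    have h2 : d ∈ S.B := (nx_mem S).1 (hH.1 h1)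
    exact hH.2 _ h1 d h2 (nx_same h2).2.symm
  · intro h1
    have h2 := nx_same (hH.1 h1)
    exact hH.2 _ h1 _ h2.1 h2.2

theorem fil_pair {S S' : Part D} {W H : Set D} (hH : S.HUn H) (hW : ∀ d ∈ W, d ∉ S.R) {F V : ℕ} (hf : S.FillBy S' H F V)
    (hR : S'.R \ S.R = W) :
    PairOn W H (restr S.nx H (hun_nx hH)) V (S.f⁻¹ * S'.f) (S.a⁻¹ * S'.a) ∧ (∀ d ∈ W, (S.f⁻¹ * S'.f) d = S'.f d) ∧
      ∀ d ∈ W ∪ H, (S.a⁻¹ * S'.a) d = S'.a d := by
  have hnx := hun_nx hH
  obtain ⟨c, hfff⟩ := cor_of hH.1 hW hf.sub hf.B hR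
  refine ⟨⟨c.f_off, c.f_on, hfff, c.a_off, c.a_on, c.aa, ?_, ?_⟩, fun d hd => (cf_W c hd).symm, fun d hd => (ca_Y c hd).symm⟩
  · intro Z hZ hne h
    have h1 := hf.conn Z (by rw [hR]; exact hZ) hne ((cor_conn c hnx hZ).2 h)
    rw [hR] at h1
    exact h1
  · rw [← cor_V c hnx]
    have h1 := hf.inn
    rw [cor_inn c hH.2] at h1
    exact Nat.add_left_cancel h1

theorem pair_fil {S : Part D} {W H : Set D} (hH : S.HUn H) (hW : ∀ d ∈ W, d ∉ S.R) {F V : ℕ} (hF : W.ncard = 3 * F)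
    {f α : Equiv.Perm D} (hp : PairOn W H (restr S.nx H (hun_nx hH)) V f α) :
    ∃ S' : Part D, S.FillBy S' H F V ∧ S'.R \ S.R = W ∧ (∀ d ∈ W, S'.f d = f d) ∧ ∀ d ∈ W ∪ H, S'.a d = α d := by
  have hnx := hun_nx hH
  obtain ⟨S', e1, e2, c⟩ := cor_mk hH.1 hW hp.f_off hp.f_on hp.fff hp.a_off hp.a_on hp.aa
  have hR := cor_R c
  have hRW : S'.R \ S.R = W := by
    rw [hR]
    ext d
    constructor
    · rintro ⟨h1, h2⟩
      exact h1.resolve_left h2
    · intro h
      exact ⟨Or.inr h, hW d h⟩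
  refine ⟨S', ⟨cor_sub c, cor_B c, ?_, ?_, ?_⟩, hRW, fun d hd => cf_W c hd, fun d hd => ca_Y c hd⟩
  · rw [hR, Set.ncard_union_eq ?_ (Set.toFinite _) (Set.toFinite _), hF]
    rw [Set.disjoint_left]
    intro d h1 h2
    exact hW d h2 h1
  · rw [cor_inn c hH.2, cor_V c hnx, hp.V]
  · intro Z hZ hne h
    rw [hRW] at hZ ⊢
    exact hp.conn Z hZ hne ((cor_conn c hnx hZ).1 h)

/-- A filling is determined by its new darts and by `f`, `a` on them and on `H`. -/
theorem fil_ext {S S' S'' : Part D} {H : Set D} {F V F' V' : ℕ} (hf : S.FillBy S' H F V) (hf' : S.FillBy S'' H F' V')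
    (hR : S''.R \ S.R = S'.R \ S.R) (h1 : ∀ d ∈ S'.R \ S.R, S''.f d = S'.f d)
    (h2 : ∀ d ∈ (S'.R \ S.R) ∪ H, S''.a d = S'.a d) : S'' = S' := by
  have key : ∀ {P : Part D} {F₀ V₀ : ℕ}, S.FillBy P H F₀ V₀ → ∀ d, d ∉ (P.R \ S.R) ∪ H → P.a d = S.a d := by
    intro P F₀ V₀ hP d hd
    by_cases h3 : S.a d = d
    · by_cases h4 : d ∈ P.R
      · have h5 : d ∈ S.R := by
          by_contra h6
          exact hd (Or.inl ⟨h4, h6⟩)
        have h7 : d ∈ P.B := by
          rw [hP.B]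
          exact ⟨⟨h5, h3⟩, fun h8 => hd (Or.inr h8)⟩
        rw [h7.2, h3]
      · rw [P.af d (not_not.1 h4), h3]
    · exact hP.sub.2 d h3
  refine Part.ext' ?_ ?_
  · apply Equiv.ext
    intro d
    by_cases hd : d ∈ (S'.R \ S.R) ∪ H
    · exact h2 d hd
    · rw [key hf d hd]
      exact key hf' d (by rw [hR]; exact hd)
  · apply Equiv.ext
    intro d
    by_cases hd : d ∈ S.R
    · rw [hf.sub.1 d hd, hf'.sub.1 d hd]
    · by_cases hd' : d ∈ S'.R
      · exact h1 d ⟨hd', hd⟩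
      · have h3 : d ∉ S''.R := by
          intro h4
          have h5 : d ∈ S''.R \ S.R := ⟨h4, hd⟩
          rw [hR] at h5
          exact hd' h5.1
        rw [not_not.1 hd', not_not.1 h3]

end Part
end SYS
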