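import Pool.Agent.SYS.Lib.Inn

/-!
# SYS-Reg-Hv: the new part of an extension `S ⊆ S'` seen from the hidden side

`NB S S'` = new darts and boundary darts of `S`; `hv S S'` = the vertex permutation of the hidden side of `S`, as far as it is
revealed in `S'` (the holes of `S` are faces: face permutation `S.nx` on `S.B`, `S'.f` on the new darts; edges `S'.a`).

PLAN.
* `nb_a`: if `d ∈ NB`, `S'.a d ∈ S.R \ S.B`, then `S.a (S'.a d) ≠ S'.a d`, so (`hs.2`) `S'.a (S'.a d) = S.a (S'.a d)`, i.e. `d = S.a (S'.a d) ∈ S.R`, `S.a d = S'.a d ≠ d`, so `d ∉ S.B`,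
  contradiction.  If `d ∈ S'.R` then `S'.a d ∈ S'.R` (`mem_R_a`; `hs.R_sub`).  See `cor_of` in `Lib/CntB.lean` for the same computations.
* `nb_f`: on the new darts `S.f d = d`; `S'.f d ∈ S.R ↔ d ∈ S.R` (as in `cor_of`).
* `hv_apply`: `S.a⁻¹ * S'.a = S'.a` on `NB` (`S.a` fixes `NB`), `S.f⁻¹ * S'.f` is the identity on `S.R` and `S'.f` on the new darts, `S.nx` is the identity off `S.B` (`ret_not_mem`).
* `ret_hv`: for `d ∈ NB`, `e := S'.a d ∈ NB`: if `e` is new: `S'.s d = S'.f e` is new: first return (`ret_eq` with `j = 0`).  If `e ∈ S.B`: `S'.s d = S'.f e = S.f e = S.s e` (`S.a e = e`), and on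
  `S.R \ S.B` `S'.s = S.s` (`le_s`-type: `S'.a = S.a`, `S'.f = S.f` there), so the first return is `S.nx e` (`ret_spec` for `S.s`, `S.B`).  This is `cor_ret` in `Lib/CntB.lean`.
* `nx_hv`: first return of a first return: `S'.B ⊆ NB` (`sub_B`), `ret (ret σ Y) X = ret σ X` on `X ⊆ Y`.
-/

namespace SYS
namespace Part

open Classical SST

variable {D : Type} [Finite D] {S S' : Part D}

/-- New darts and boundary darts of `S`. -/
def NB (S S' : Part D) : Set D := (S'.R \ S.R) ∪ S.B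

/-- Vertex permutation of the new part. -/
noncomputable def hv (S S' : Part D) : Equiv.Perm D := S.nx * (S.f⁻¹ * S'.f) * (S.a⁻¹ * S'.a)

omit [Finite D] in
private theorem hv_fm (hs : S.Sub S') (d : D) : S'.f d ∈ S.R ↔ d ∈ S.R := by
  constructor
  · intro h
    have h1 : S'.f (S'.f d) = S.f (S'.f d) := hs.1 _ h
    have h2 : S'.f d ∈ S.R := h
    have h3 : S.f (S'.f d) ∈ S.R := (mem_R_f S _).2 h2
    have h4 : S'.f (S.f (S'.f d)) = S.f (S.f (S'.f d)) := hs.1 _ h3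
    have h5 := S'.fff d
    rw [h1, h4] at h5
    rw [← h5]
    exact (mem_R_f S _).2 h3
  · intro h
    rw [hs.1 d h]
    exact (mem_R_f S d).2 h

omit [Finite D] in
theorem sub_B (hs : S.Sub S') : S'.B ⊆ NB S S' := by
  rintro d ⟨h1, h2⟩
  by_cases h : d ∈ S.R
  · right
    refine ⟨h, ?_⟩
    by_contra h3
    rw [hs.2 d h3] at h2
    exact h3 h2
  · left
    exact ⟨h1, h⟩

omit [Finite D] in
private theorem nb_R (hs : S.Sub S') {d : D} (hd : d ∈ NB S S') : d ∈ S'.R := by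
  rcases hd with hd | hd
  · exact hd.1
  · exact hs.R_sub (B_sub_R S hd)

omit [Finite D] in
private theorem nb_sa {d : D} (hd : d ∈ NB S S') : S.a d = d := by
  rcases hd with hd | hd
  · exact S.af d (not_not.1 hd.2)
  · exact hd.2

omit [Finite D] in
theorem nb_a (hs : S.Sub S') {d : D} (hd : d ∈ NB S S') : S'.a d ∈ NB S S' := by
  have h1 : S'.a d ∈ S'.R := (mem_R_a S' d).2 (nb_R hs hd)
  by_cases h2 : S'.a d ∈ S.R
  · right
    refine ⟨h2, ?_⟩
    by_contra h3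
    have h4 := hs.2 _ h3
    rw [S'.aa] at h4
    have h5 : S.a d = S'.a d := by
      rw [h4, S.aa, ← h4]
    rw [nb_sa hd] at h5
    apply h3
    rw [← h5]
    exact nb_sa hd
  · left
    exact ⟨h1, h2⟩

omit [Finite D] in
theorem nb_f (hs : S.Sub S') {d : D} (hd : d ∈ S'.R \ S.R) : S'.f d ∈ S'.R \ S.R :=
  ⟨(mem_R_f S' d).2 hd.1, fun h => hd.2 ((hv_fm hs d).1 h)⟩

omit [Finite D] in
private theorem hv_sa {e : D} (he : e ∈ NB S S') : S.a⁻¹ e = e := by
  rw [Equiv.Perm.inv_eq_iff_eq]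
  exact (nb_sa he).symm

theorem hv_new (hs : S.Sub S') {d : D} (hd : d ∈ NB S S') (h : S'.a d ∈ S'.R \ S.R) : hv S S' d = S'.f (S'.a d) := by
  have h1 : S.a⁻¹ (S'.a d) = S'.a d := hv_sa (nb_a hs hd)
  have h2 := nb_f hs h
  have h3 : S.f⁻¹ (S'.f (S'.a d)) = S'.f (S'.a d) := by
    rw [Equiv.Perm.inv_eq_iff_eq]
    exact (not_not.1 h2.2).symm
  have h4 : S.nx (S'.f (S'.a d)) = S'.f (S'.a d) := ret_not_mem S.s (fun h5 => h2.2 (B_sub_R S h5))
  show S.nx (S.f⁻¹ (S'.f (S.a⁻¹ (S'.a d)))) = S'.f (S'.a d)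
  rw [h1, h3, h4]

theorem hv_old (hs : S.Sub S') {d : D} (hd : d ∈ NB S S') (h : S'.a d ∈ S.B) : hv S S' d = S.nx (S'.a d) := by
  have h1 : S.a⁻¹ (S'.a d) = S'.a d := hv_sa (nb_a hs hd)
  have h3 : S.f⁻¹ (S'.f (S'.a d)) = S'.a d := by
    rw [Equiv.Perm.inv_eq_iff_eq]
    exact hs.1 _ h.1
  show S.nx (S.f⁻¹ (S'.f (S.a⁻¹ (S'.a d)))) = S.nx (S'.a d)
  rw [h1, h3]

theorem hv_mem (hs : S.Sub S') {d : D} (hd : d ∈ NB S S') : hv S S' d ∈ NB S S' := by
  rcases nb_a hs hd with h | h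
  · rw [hv_new hs hd h]
    exact Or.inl (nb_f hs h)
  · rw [hv_old hs hd h]
    exact Or.inr (S.nx_mem.2 h)

theorem ret_hv (hs : S.Sub S') {d : D} (hd : d ∈ NB S S') : ret S'.s (NB S S') d = hv S S' d := by
  rcases nb_a hs hd with h | h
  · rw [hv_new hs hd h]
    have h1 : (S'.s ^ (0 + 1)) d = S'.f (S'.a d) := by rw [zero_add, pow_one, s_apply]
    rw [← h1]
    exact ret_eq S'.s hd (by rw [h1]; exact Or.inl (nb_f hs h)) (fun i hi => absurd hi (Nat.not_lt_zero i))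
  · rw [hv_old hs hd h]
    obtain ⟨j, h1, h2, h3⟩ := ret_spec S.s h
    have h1' : S.nx (S'.a d) = (S.s ^ (j + 1)) (S'.a d) := h1
    have hs' : ∀ e : D, e ∈ S.R → e ∉ S.B → S'.s e = S.s e := by
      intro e he he'
      have h4 : S.a e ≠ e := fun h5 => he' ⟨he, h5⟩
      rw [s_apply, s_apply, hs.2 e h4]
      exact hs.1 _ ((mem_R_a S e).2 he)
    have key : ∀ i ≤ j, (S'.s ^ (i + 1)) d = (S.s ^ (i + 1)) (S'.a d) ∧ (S.s ^ (i + 1)) (S'.a d) ∈ S.R := by
      intro i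
      induction i with
      | zero =>
        intro _
        rw [zero_add, pow_one, pow_one, s_apply, s_apply, h.2]
        exact ⟨hs.1 _ h.1, (mem_R_f S _).2 h.1⟩
      | succ i ih =>
        intro hi
        obtain ⟨h4, h5⟩ := ih (by omega)
        have h6 := h3 i (by omega)
        rw [pow_succ', pow_succ' S.s, Equiv.Perm.mul_apply, Equiv.Perm.mul_apply, h4]
        exact ⟨hs' _ h5 h6, (mem_R_s S _).2 h5⟩
    rw [h1', ← (key j le_rfl).1]
    refine ret_eq S'.s hd ?_ ?_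
    · rw [(key j le_rfl).1, ← h1']
      exact Or.inr (S.nx_mem.2 h)
    · intro i hi
      obtain ⟨h4, h5⟩ := key i (by omega)
      rw [h4]
      rintro (h6 | h6)
      · exact h6.2 h5
      · exact h3 i hi h6

private theorem ret_tower (σ τ : Equiv.Perm D) {X Y : Set D} (hXY : X ⊆ Y) (hτ : ∀ d ∈ Y, ret σ Y d = τ d) (n : ℕ) :
    ∀ u ∈ Y, (σ ^ (n + 1)) u ∈ X → (∀ i < n, (σ ^ (i + 1)) u ∉ X) →
      ∃ k : ℕ, (τ ^ (k + 1)) u = (σ ^ (n + 1)) u ∧ ∀ i < k, (τ ^ (i + 1)) u ∉ X := by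
  induction n using Nat.strong_induction_on with
  | _ n ih =>
    intro u hu h1 h2
    obtain ⟨j, h3, h4, h5⟩ := ret_spec σ hu
    rw [hτ u hu] at h3 h4
    have hj : j ≤ n := by
      by_contra hc
      exact h5 n (by omega) (hXY h1)
    rcases Nat.eq_or_lt_of_le hj with hj | hj
    · refine ⟨0, ?_, fun i hi => absurd hi (Nat.not_lt_zero i)⟩
      rw [zero_add, pow_one, h3, hj]
    · have hp : ∀ m : ℕ, (σ ^ m) (τ u) = (σ ^ (m + (j + 1))) u := by
        intro m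
        rw [h3, ← Equiv.Perm.mul_apply, ← pow_add]
      obtain ⟨k, h6, h7⟩ := ih (n - (j + 1)) (by omega) (τ u) h4
        (by rw [hp, show n - (j + 1) + 1 + (j + 1) = n + 1 by omega]; exact h1)
        (fun i hi => by rw [hp, show i + 1 + (j + 1) = i + j + 1 + 1 by omega]; exact h2 _ (by omega))
      have hq : ∀ m : ℕ, (τ ^ (m + 1)) u = (τ ^ m) (τ u) := by
        intro m
        rw [pow_succ, Equiv.Perm.mul_apply]
      refine ⟨k + 1, ?_, ?_⟩
      · rw [hq, h6, hp, show n - (j + 1) + 1 + (j + 1) = n + 1 by omega]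
      · intro i hi
        rw [hq]
        cases i with
        | zero =>
          rw [pow_zero, Equiv.Perm.one_apply, h3]
          exact h2 j hj
        | succ i => exact h7 i (by omega)

/-- The boundary successor of `S'` is the first return of `hv S S'` to `S'.B`. -/
theorem nx_hv (hs : S.Sub S') {d : D} (hd : d ∈ S'.B) : ret (hv S S') S'.B d = S'.nx d := by
  obtain ⟨j, h1, h2, h3⟩ := ret_spec S'.s hd
  have h1' : S'.nx d = (S'.s ^ (j + 1)) d := h1
  obtain ⟨k, h4, h5⟩ := ret_tower S'.s (hv S S') (sub_B hs) (fun e he => ret_hv hs he) j d (sub_B hs hd)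
    (by rw [← h1]; exact h2) h3
  rw [h1', ← h4]
  refine ret_eq _ hd ?_ h5
  rw [h4, ← h1]
  exact h2

end Part
end SYS
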