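import Pool.Agent.SYS.Reg.Hv

/-!
# SYS-Reg-Sim: the same new part over two bases

`NW S S' x W` = new darts and the base darts `nx^m x`, `|m| ≤ W`.  `Sim S S' x T T' y W θ`: `θ` is an isomorphism of the new
part of `S ⊆ S'` (with the window around `x`) onto the new part of `T ⊆ T'` (with the window around `y`).
-/

namespace SYS
namespace Part

open Classical SST

variable {D E : Type} [Finite D] [Finite E]

/-- Base darts. -/
noncomputable def bs (S : Part D) (x : D) (m : ℤ) : D := (S.nx ^ m) x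

/-- New darts and the window of the base. -/
def NW (S S' : Part D) (x : D) (W : ℕ) : Set D := (S'.R \ S.R) ∪ {d | ∃ m : ℤ, |m| ≤ W ∧ d = S.bs x m}

structure Sim (S S' : Part D) (x : D) (T T' : Part E) (y : E) (W : ℕ) (θ : D → E) : Prop where
  sub : S.Sub S'
  sub' : T.Sub T'
  hx : x ∈ S.B
  hy : y ∈ T.B
  per : 2 * W + 1 < S.per x
  per' : 2 * W + 1 < T.per y
  inj : Set.InjOn θ (NW S S' x W)
  new : θ '' (S'.R \ S.R) = T'.R \ T.R
  base : ∀ m : ℤ, |m| ≤ W → θ (S.bs x m) = T.bs y m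
  f : ∀ d ∈ S'.R \ S.R, θ (S'.f d) = T'.f (θ d)
  a : ∀ d ∈ NW S S' x W, S'.a d ∈ NW S S' x W ∧ θ (S'.a d) = T'.a (θ d)
  off : ∀ d ∈ S.B, d ∉ NW S S' x W → S'.a d = d
  off' : ∀ d ∈ T.B, d ∉ NW T T' y W → T'.a d = d

variable {S S' : Part D} {x : D} {T T' : Part E} {y : E} {W : ℕ} {θ : D → E}

private theorem sim_zpow {σ : Equiv.Perm D} {X : Set D} (h : ∀ d, σ d ∈ X ↔ d ∈ X) (m : ℤ) (d : D) :
    (σ ^ m) d ∈ X ↔ d ∈ X := by
  have hn : ∀ (n : ℕ) (d : D), (σ ^ n) d ∈ X ↔ d ∈ X := by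
    intro n
    induction n with
    | zero => exact fun d => Iff.rfl
    | succ n ih =>
      intro d
      rw [pow_succ', Equiv.Perm.mul_apply, h]
      exact ih d
  cases m with
  | ofNat n =>
    rw [Int.ofNat_eq_natCast, zpow_natCast]
    exact hn n d
  | negSucc n =>
    have h1 : (σ ^ (n + 1)) ((σ ^ (n + 1))⁻¹ d) = d := Equiv.apply_symm_apply _ _
    rw [zpow_negSucc, ← hn (n + 1) ((σ ^ (n + 1))⁻¹ d), h1]

private theorem sim_pd (S : Part D) {x : D} (hx : x ∈ S.B) {k : ℕ} (hk : k < S.per x)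
    (h : (S.nx ^ k) x = x) : k = 0 := by
  have h1 := S.hw_nodup hx
  unfold hw at h1
  exact List.inj_on_of_nodup_map h1 (List.mem_range.2 hk) (List.mem_range.2 (S.per_pos hx)) h

theorem bs_mem (hx : x ∈ S.B) (m : ℤ) : S.bs x m ∈ S.B := by
  exact (sim_zpow (fun d => S.nx_mem) m x).2 hx

theorem bs_inj (hx : x ∈ S.B) (hp : 2 * W + 1 < S.per x) {m m' : ℤ} (h : |m| ≤ W + 1) (h' : |m'| ≤ W)
    (he : S.bs x m = S.bs x m') : m = m' := by
  unfold bs at he
  have h1 : (S.nx ^ (m - m')) x = x := by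
    rw [sub_eq_neg_add, zpow_add, Equiv.Perm.mul_apply, he, ← Equiv.Perm.mul_apply, ← zpow_add,
      neg_add_cancel, zpow_zero, Equiv.Perm.one_apply]
  have h2 : (S.nx ^ (m - m').natAbs) x = x := by
    rcases Int.natAbs_eq (m - m') with h3 | h3
    · rw [h3, zpow_natCast] at h1
      exact h1
    · rw [h3, zpow_neg, zpow_natCast, Equiv.Perm.inv_eq_iff_eq] at h1
      exact h1.symm
  have h3 : (m - m').natAbs < S.per x := by
    have h4 := abs_le.1 h
    have h5 := abs_le.1 h'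
    omega
  have h4 := sim_pd S hx h3 h2
  omega

theorem sim_refl (hx : x ∈ S.B) (hy : y ∈ T.B) (hp : 2 * W + 1 < S.per x) (hp' : 2 * W + 1 < T.per y) :
    ∃ θ : D → E, Sim S S x T T y W θ := by
  obtain ⟨θ, hθ⟩ : ∃ θ : D → E, ∀ m : ℤ, |m| ≤ W → θ (S.bs x m) = T.bs y m := by
    refine ⟨fun d => if h : ∃ m : ℤ, |m| ≤ W ∧ d = S.bs x m then T.bs y h.choose else y, fun m hm => ?_⟩
    have hex : ∃ m' : ℤ, |m'| ≤ W ∧ S.bs x m = S.bs x m' := ⟨m, hm, rfl⟩
    show (if h : ∃ m' : ℤ, |m'| ≤ W ∧ S.bs x m = S.bs x m' then T.bs y h.choose else y) = T.bs y m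
    rw [dif_pos hex]
    have h1 := hex.choose_spec
    have h2 := bs_inj hx hp (hm.trans (by linarith)) h1.1 h1.2
    rw [← h2]
  have hw : ∀ d ∈ NW S S x W, ∃ m : ℤ, |m| ≤ W ∧ d = S.bs x m := by
    rintro d (hd | hd)
    · exact absurd hd.1 hd.2
    · exact hd
  refine ⟨θ, ⟨sub_refl S, sub_refl T, hx, hy, hp, hp', ?_, ?_, hθ, ?_, ?_, ?_, ?_⟩⟩
  · intro d hd e he hde
    obtain ⟨m, hm, rfl⟩ := hw d hd
    obtain ⟨m', hm', rfl⟩ := hw e he
    rw [hθ m hm, hθ m' hm'] at hde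
    rw [bs_inj hy hp' (hm.trans (by linarith)) hm' hde]
  · rw [Set.diff_self, Set.diff_self, Set.image_empty]
  · intro d hd
    exact absurd hd.1 hd.2
  · intro d hd
    obtain ⟨m, hm, rfl⟩ := hw d hd
    rw [(bs_mem hx m).2]
    refine ⟨hd, ?_⟩
    rw [hθ m hm, (bs_mem hy m).2]
  · exact fun d hd _ => hd.2
  · exact fun d hd _ => hd.2

private theorem nw_R (hs : S.Sub S') (hx : x ∈ S.B) {d : D} (hd : d ∈ NW S S' x W) : d ∈ S'.R := by
  rcases hd with hd | ⟨m, -, rfl⟩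
  · exact hd.1
  · exact hs.R_sub (bs_mem hx m).1

private theorem nw_NB (hx : x ∈ S.B) {d : D} (hd : d ∈ NW S S' x W) : d ∈ NB S S' := by
  rcases hd with hd | ⟨m, -, rfl⟩
  · exact Or.inl hd
  · exact Or.inr (bs_mem hx m)

private theorem sim_mem (h : Sim S S' x T T' y W θ) {d : D} (hd : d ∈ NW S S' x W) :
    θ d ∈ NW T T' y W := by
  rcases hd with hd | ⟨m, hm, rfl⟩
  · left
    rw [← h.new]
    exact Set.mem_image_of_mem _ hd
  · right
    exact ⟨m, hm, h.base m hm⟩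

theorem sim_image (h : Sim S S' x T T' y W θ) : θ '' NW S S' x W = NW T T' y W := by
  apply Set.Subset.antisymm
  · rintro _ ⟨d, hd, rfl⟩
    exact sim_mem h hd
  · rintro e (he | ⟨m, hm, rfl⟩)
    · rw [← h.new] at he
      obtain ⟨d, hd, rfl⟩ := he
      exact ⟨d, Or.inl hd, rfl⟩
    · exact ⟨S.bs x m, Or.inr ⟨m, hm, rfl⟩, h.base m hm⟩

theorem sim_symm (h : Sim S S' x T T' y W θ) : ∃ θ' : E → D, Sim T T' y S S' x W θ' ∧
    (∀ d ∈ NW S S' x W, θ' (θ d) = d) ∧ ∀ d ∈ NW T T' y W, θ (θ' d) = d := by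
  have hne : Nonempty D := ⟨x⟩
  obtain ⟨θ', h1, h2⟩ : ∃ θ' : E → D, (∀ e ∈ NW T T' y W, θ' e ∈ NW S S' x W) ∧
      ∀ e ∈ NW T T' y W, θ (θ' e) = e := by
    refine ⟨Function.invFunOn θ (NW S S' x W), fun e he => ?_, fun e he => ?_⟩
    · rw [← sim_image h] at he
      exact Function.invFunOn_mem he
    · rw [← sim_image h] at he
      exact Function.invFunOn_eq he
  have h3 : ∀ d ∈ NW S S' x W, θ' (θ d) = d := by
    intro d hd
    exact h.inj (h1 _ (sim_mem h hd)) hd (h2 _ (sim_mem h hd))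
  refine ⟨θ', ⟨h.sub', h.sub, h.hy, h.hx, h.per', h.per, ?_, ?_, ?_, ?_, ?_, h.off', h.off⟩, h3, h2⟩
  · intro e he e' he' hee
    rw [← h2 e he, ← h2 e' he', hee]
  · rw [← h.new, Set.image_image]
    have h4 : ∀ d ∈ S'.R \ S.R, θ' (θ d) = d := fun d hd => h3 d (Or.inl hd)
    apply Set.Subset.antisymm
    · rintro _ ⟨d, hd, rfl⟩
      show θ' (θ d) ∈ _
      rw [h4 d hd]
      exact hd
    · intro d hd
      exact ⟨d, hd, h4 d hd⟩
  · intro m hm
    rw [← h.base m hm]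
    exact h3 _ (Or.inr ⟨m, hm, rfl⟩)
  · intro e he
    rw [← h.new] at he
    obtain ⟨d, hd, rfl⟩ := he
    rw [← h.f d hd, h3 _ (Or.inl (nb_f h.sub hd)), h3 d (Or.inl hd)]
  · intro e he
    rw [← sim_image h] at he
    obtain ⟨d, hd, rfl⟩ := he
    obtain ⟨h4, h5⟩ := h.a d hd
    rw [← h5, h3 _ h4, h3 d hd]
    exact ⟨sim_mem h h4, rfl⟩

theorem sim_B (h : Sim S S' x T T' y W θ) {d : D} (hd : d ∈ NW S S' x W) : θ d ∈ T'.B ↔ d ∈ S'.B := by
  obtain ⟨h1, h2⟩ := h.a d hd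
  constructor
  · intro h3
    refine ⟨nw_R h.sub h.hx hd, h.inj h1 hd ?_⟩
    rw [h2]
    exact h3.2
  · intro h3
    refine ⟨nw_R h.sub' h.hy (sim_mem h hd), ?_⟩
    rw [← h2, h3.2]

private theorem sim_hv (h : Sim S S' x T T' y W θ) {e : D} (he : e ∈ NW S S' x W)
    (hn : hv S S' e ∈ NW S S' x W) : hv T T' (θ e) = θ (hv S S' e) := by
  obtain ⟨h1, h2⟩ := h.a e he
  have h3 := nw_NB h.hx he
  have h4 := nw_NB h.hy (sim_mem h he)
  rcases h1 with h1 | ⟨m, hm, hm'⟩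
  · have h5 : T'.a (θ e) ∈ T'.R \ T.R := by
      rw [← h2, ← h.new]
      exact Set.mem_image_of_mem _ h1
    rw [hv_new h.sub h3 h1, hv_new h.sub' h4 h5, ← h2, h.f _ h1]
  · have h5 : S'.a e ∈ S.B := by
      rw [hm']
      exact bs_mem h.hx m
    have h6 : T'.a (θ e) = T.bs y m := by
      rw [← h2, hm', h.base m hm]
    have h7 : T'.a (θ e) ∈ T.B := by
      rw [h6]
      exact bs_mem h.hy m
    have e1 : hv S S' e = S.bs x (m + 1) := by
      rw [hv_old h.sub h3 h5, hm']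
      unfold bs
      rw [add_comm m 1, zpow_add, zpow_one, Equiv.Perm.mul_apply]
    have e2 : hv T T' (θ e) = T.bs y (m + 1) := by
      rw [hv_old h.sub' h4 h7, h6]
      unfold bs
      rw [add_comm m 1, zpow_add, zpow_one, Equiv.Perm.mul_apply]
    rw [e1] at hn ⊢
    rw [e2]
    rcases hn with hn | ⟨m', hm1, hm2⟩
    · exact absurd (bs_mem h.hx (m + 1)).1 hn.2
    · have h8 : |m + 1| ≤ (W : ℤ) + 1 := (abs_add_le m 1).trans (by
        rw [abs_one]
        linarith)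
      have h9 := bs_inj h.hx h.per h8 hm1 hm2
      rw [h9]
      exact (h.base m' hm1).symm

theorem sim_nx (h : Sim S S' x T T' y W θ) {d : D} (hd : d ∈ NW S S' x W) (hB : d ∈ S'.B)
    (hn : S'.nx d ∈ NW S S' x W) : T'.nx (θ d) = θ (S'.nx d) := by
  obtain ⟨j, h1, h2, h3⟩ := ret_spec (hv S S') hB
  rw [nx_hv h.sub hB] at h1 h2
  have hNB : ∀ i : ℕ, ((hv S S') ^ i) d ∈ NB S S' := by
    intro i
    induction i with
    | zero => exact nw_NB h.hx hd
    | succ i ih =>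
      rw [pow_succ', Equiv.Perm.mul_apply]
      exact hv_mem h.sub ih
  have hNW : ∀ i ≤ j + 1, ((hv S S') ^ i) d ∈ NW S S' x W := by
    intro i hi
    rcases Nat.eq_zero_or_pos i with h0 | h0
    · rw [h0, pow_zero]
      exact hd
    · rcases Nat.lt_or_ge i (j + 1) with h4 | h4
      · have h5 := h3 (i - 1) (by omega)
        have h6 : i - 1 + 1 = i := by omega
        rw [h6] at h5
        rcases hNB i with h7 | h7
        · exact Or.inl h7
        · by_contra h8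
          exact h5 ⟨h.sub.R_sub h7.1, h.off _ h7 h8⟩
      · have h5 : i = j + 1 := by omega
        rw [h5, ← h1]
        exact hn
  have key : ∀ i ≤ j + 1, ((hv T T') ^ i) (θ d) = θ (((hv S S') ^ i) d) := by
    intro i
    induction i with
    | zero => exact fun _ => rfl
    | succ i ih =>
      intro hi
      have h4 := hNW (i + 1) hi
      rw [pow_succ', Equiv.Perm.mul_apply] at h4
      rw [pow_succ', pow_succ', Equiv.Perm.mul_apply, Equiv.Perm.mul_apply, ih (by omega)]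
      exact sim_hv h (hNW i (by omega)) h4
  have hB' := (sim_B h hd).2 hB
  rw [← nx_hv h.sub' hB', h1, ← key (j + 1) le_rfl]
  refine ret_eq (hv T T') hB' ?_ ?_
  · rw [key (j + 1) le_rfl]
    refine (sim_B h (hNW (j + 1) le_rfl)).2 ?_
    rw [← h1]
    exact h2
  · intro i hi
    rw [key (i + 1) (by omega)]
    exact fun h4 => h3 i hi ((sim_B h (hNW (i + 1) (by omega))).1 h4)

theorem sim_nx_symm (h : Sim S S' x T T' y W θ) {d : D} (hd : d ∈ NW S S' x W) (hB : d ∈ S'.B)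
    (hn : (S'.nx⁻¹) d ∈ NW S S' x W) : (T'.nx⁻¹) (θ d) = θ ((S'.nx⁻¹) d) := by
  have h1 : S'.nx ((S'.nx⁻¹) d) = d := Equiv.apply_symm_apply _ _
  have h2 : (S'.nx⁻¹) d ∈ S'.B := by
    rw [← S'.nx_mem, h1]
    exact hB
  have h3 := sim_nx h hn h2 (by rw [h1]; exact hd)
  rw [h1] at h3
  rw [Equiv.Perm.inv_eq_iff_eq]
  exact h3.symm

end Part
end SYS
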