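import Pool.Agent.SYS.Reg.SimT
import Pool.Agent.SYS.Reg.SimR
import Pool.Agent.SYS.Reg.SimL
import Pool.Agent.SYS.Reg.SimX

/-!
# SYS-Reg-SimC: children of isomorphic nodes: double counting

The triples (child over `S₁`, child over `T₁`, graph of the isomorphism on the new darts) are counted in two ways.
-/

namespace SYS
namespace Part

open Classical SST

variable {D E : Type} [Finite D] [Finite E] {S S₁ : Part D} {x d : D} {T T₁ : Part E} {y : E} {W : ℕ} {θ : D → E}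

private theorem dc {α β γ : Type} [Finite α] [Finite β] [Finite γ] (A : Set α) (B : Set β) (Y : α → β → γ → Prop)
    (hA : ∀ a b g, Y a b g → a ∈ A) (hB : ∀ a b g, Y a b g → b ∈ B) (c : α → ℝ) (c' : β → ℝ)
    (hc : ∀ a b g, Y a b g → c a = c' b) (n m : ℕ) (h1 : ∀ a ∈ A, {p : β × γ | Y a p.1 p.2}.ncard = n)
    (h2 : ∀ b ∈ B, {p : α × γ | Y p.1 b p.2}.ncard = m) :
    (∑ᶠ a ∈ A, c a) * (n : ℝ) = (∑ᶠ b ∈ B, c' b) * (m : ℝ) := by
  have iα := Fintype.ofFinite α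
  have iβ := Fintype.ofFinite β
  have iγ := Fintype.ofFinite γ
  have e1 : ∀ a, ∑ b : β, ∑ g : γ, (if Y a b g then c a else 0) = A.indicator c a * (n : ℝ) := by
    intro a
    by_cases ha : a ∈ A
    · rw [Set.indicator_of_mem ha, ← h1 a ha, ← Fintype.sum_prod_type'
        (f := fun (b : β) (g : γ) => if Y a b g then c a else 0), ← Finset.sum_filter, Finset.sum_const,
        nsmul_eq_mul, Set.ncard_eq_toFinset_card', mul_comm]
      congr 3
      ext p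
      simp
    · rw [Set.indicator_of_notMem ha, zero_mul]
      refine Finset.sum_eq_zero fun b _ => Finset.sum_eq_zero fun g _ => ?_
      rw [if_neg fun h => ha (hA a b g h)]
  have e2 : ∀ b, ∑ a : α, ∑ g : γ, (if Y a b g then c' b else 0) = B.indicator c' b * (m : ℝ) := by
    intro b
    by_cases hb : b ∈ B
    · rw [Set.indicator_of_mem hb, ← h2 b hb, ← Fintype.sum_prod_type'
        (f := fun (a : α) (g : γ) => if Y a b g then c' b else 0), ← Finset.sum_filter, Finset.sum_const,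
        nsmul_eq_mul, Set.ncard_eq_toFinset_card', mul_comm]
      congr 3
      ext p
      simp
    · rw [Set.indicator_of_notMem hb, zero_mul]
      refine Finset.sum_eq_zero fun a _ => Finset.sum_eq_zero fun g _ => ?_
      rw [if_neg fun h => hb (hB a b g h)]
  rw [finsum_mem_def, finsum_mem_def, finsum_eq_sum_of_fintype, finsum_eq_sum_of_fintype, Finset.sum_mul,
    Finset.sum_mul, ← Finset.sum_congr rfl (fun a _ => e1 a), ← Finset.sum_congr rfl (fun b _ => e2 b),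
    Finset.sum_comm]
  refine Finset.sum_congr rfl fun b _ => Finset.sum_congr rfl fun a _ => Finset.sum_congr rfl fun g _ => ?_
  by_cases h : Y a b g
  · rw [if_pos h, if_pos h, hc a b g h]
  · rw [if_neg h, if_neg h]

private theorem sim_step (h : Sim S S₁ x T T₁ y W θ) (hd : d ∈ NW S S₁ x W) {s : Stp} {S₂ : Part D} {z : D}
    {ψ : D → E} (hst : LSt S S₁ x W d s S₂ z) (hψ : Set.InjOn ψ (S₂.R \ S₁.R)) (hn : ∀ e ∈ S₂.R \ S₁.R, ψ e ∉ T₁.R) :
    ∃ (T₂ : Part E) (z' : E), LSt T T₁ y W (θ d) s T₂ z' ∧ T₂.R \ T₁.R = ψ '' (S₂.R \ S₁.R) ∧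
      Sim S S₂ x T T₂ y W (pc S₁ S₂ θ ψ) ∧ z ∈ NW S S₂ x W ∧ z' = pc S₁ S₂ θ ψ z := by
  cases s with
  | T => exact sim_T h hd hst hψ hn
  | L k a => exact sim_L h hd hst hψ hn
  | R k a => exact sim_R h hd hst hψ hn

private theorem disc_vol {S S' : Part D} {u : List D} {a : ℕ} (h : S.DiscFill S' u a) :
    S'.R.ncard = S.R.ncard + 3 * a := by
  rcases h with ⟨_, h2, h3⟩ | ⟨_, V, _, hf⟩
  · rw [h2, h3, mul_zero, add_zero]
  · exact hf.R

private theorem st_vol {S S' : Part D} {x z : D} {s : Stp} (h : S.St x s S' z) :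
    S'.R.ncard = S.R.ncard + 3 * s.vol := by
  cases s with
  | T =>
    obtain ⟨t0, t1, t2, hx, h0, h1, h2, h01, h12, h20, rfl, rfl⟩ := h
    rw [face_R, Set.ncard_union_eq _ (Set.toFinite _) (Set.toFinite _)]
    · have h3 : ({t0, z, t2} : Set D).ncard = 3 := by
        rw [Set.ncard_eq_three]
        exact ⟨t0, z, t2, h01, h20.symm, h12, rfl⟩
      rw [h3]
      rfl
    · rw [Set.disjoint_right]
      intro w hw
      rcases hw with rfl | rfl | rfl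
      · exact h0
      · exact h1
      · exact h2
  | L k a =>
    obtain ⟨e, u, v, w, hx, hy, _, _, _, hf⟩ := h
    have h3 := disc_vol hf
    rw [glue_R] at h3
    exact h3
  | R k a =>
    obtain ⟨e, u, v, w, hx, hy, _, _, _, hf⟩ := h
    have h3 := disc_vol hf
    rw [glue_R] at h3
    exact h3

private theorem new_card {S S' : Part D} {x z : D} {s : Stp} (h : S.St x s S' z) :
    (S'.R \ S.R).ncard = 3 * s.vol := by
  rw [Set.ncard_sdiff (st_sub h).1.R_sub (Set.toFinite _), st_vol h]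
  omega

private theorem NW_old (hsub : S.Sub S₁) (hx : x ∈ S.B) {e : D} (he : e ∈ NW S S₁ x W) : e ∈ S₁.R := by
  rcases he with he | ⟨m, _, rfl⟩
  · exact he.1
  · exact hsub.R_sub (S.B_sub_R (bs_mem hx m))

private theorem NW_mono {S₂ : Part D} (hsub : S₁.Sub S₂) {e : D} (he : e ∈ NW S S₁ x W) : e ∈ NW S S₂ x W := by
  rcases he with he | he
  · exact Or.inl ⟨hsub.R_sub he.1, he.2⟩
  · exact Or.inr he

private theorem NW_split {S₂ : Part D} {e : D} (he : e ∈ NW S S₂ x W) : e ∈ S₂.R \ S₁.R ∨ e ∈ NW S S₁ x W := by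
  by_cases h : e ∈ S₂.R \ S₁.R
  · exact Or.inl h
  · right
    rcases he with he | he
    · refine Or.inl ⟨?_, he.2⟩
      by_contra hcon
      exact h ⟨he.1, hcon⟩
    · exact Or.inr he

/-- an isomorphism of children which extends `θ`, with its inverse -/
private structure Iso (S S₁ : Part D) (x : D) (T : Part E) (y : E) (W : ℕ) (θ : D → E) (q : Part D × D)
    (q' : Part E × E) (θ' : D → E) (θ'' : E → D) : Prop where
  sim : Sim S q.1 x T q'.1 y W θ'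
  sim' : Sim T q'.1 y S q.1 x W θ''
  li : ∀ d ∈ NW S q.1 x W, θ'' (θ' d) = d
  ri : ∀ e ∈ NW T q'.1 y W, θ' (θ'' e) = e
  z : q.2 ∈ NW S q.1 x W
  z' : q'.2 = θ' q.2
  old : ∀ d ∈ NW S S₁ x W, θ' d = θ d

private def gr (N : Set D) (θ' : D → E) : Set (D × E) := {p | p.1 ∈ N ∧ p.2 = θ' p.1}

private def YY (S S₁ : Part D) (x d : D) (T T₁ : Part E) (y e : E) (W : ℕ) (s : Stp) (θ : D → E) (q : Part D × D)
    (q' : Part E × E) (G : Set (D × E)) : Prop :=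
  LSt S S₁ x W d s q.1 q.2 ∧ LSt T T₁ y W e s q'.1 q'.2 ∧
    ∃ (θ' : D → E) (θ'' : E → D), Iso S S₁ x T y W θ q q' θ' θ'' ∧ G = gr (q.1.R \ S₁.R) θ'

private theorem iso_new (h : Sim S S₁ x T T₁ y W θ) {q : Part D × D} {q' : Part E × E} {θ' : D → E} {θ'' : E → D}
    (hi : Iso S S₁ x T y W θ q q' θ' θ'') (hsub : S₁.Sub q.1) {e : D} (he : e ∈ q.1.R \ S₁.R) :
    θ' e ∈ q'.1.R \ T₁.R := by
  have h1 : e ∈ q.1.R \ S.R := ⟨he.1, fun hh => he.2 (h.sub.R_sub hh)⟩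
  have h2 : θ' e ∈ q'.1.R \ T.R := by
    rw [← hi.sim.new]
    exact ⟨e, h1, rfl⟩
  refine ⟨h2.1, fun h3 => ?_⟩
  have h4 : θ' e ∈ T₁.R \ T.R := ⟨h3, h2.2⟩
  rw [← h.new] at h4
  obtain ⟨e1, he1, h5⟩ := h4
  have h6 : θ' e1 = θ e1 := hi.old e1 (Or.inl he1)
  rw [← h6] at h5
  have h7 : e1 = e := hi.sim.inj (NW_mono hsub (Or.inl he1)) (Or.inl h1) h5
  rw [h7] at he1
  exact he.2 he1.1

private theorem iso_symm {θ₀ : E → D} (h' : Sim T T₁ y S S₁ x W θ₀)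
    (ri0 : ∀ e ∈ NW T T₁ y W, θ (θ₀ e) = e) {q : Part D × D} {q' : Part E × E} {θ' : D → E} {θ'' : E → D}
    (hi : Iso S S₁ x T y W θ q q' θ' θ'') (hsub : S₁.Sub q.1) :
    Iso T T₁ y S x W θ₀ q' q θ'' θ' := by
  refine ⟨hi.sim', hi.sim, hi.ri, hi.li, ?_, ?_, ?_⟩
  · rw [hi.z', ← sim_image hi.sim]
    exact ⟨q.2, hi.z, rfl⟩
  · rw [hi.z', hi.li _ hi.z]
  · intro e he
    have h1 : θ₀ e ∈ NW S S₁ x W := by
      rw [← sim_image h']
      exact ⟨e, he, rfl⟩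
    have h2 := hi.old _ h1
    rw [ri0 e he] at h2
    have h3 := hi.li _ (NW_mono hsub h1)
    rw [h2] at h3
    exact h3

private theorem YY_symm (h : Sim S S₁ x T T₁ y W θ) {θ₀ : E → D} (h' : Sim T T₁ y S S₁ x W θ₀)
    (ri0 : ∀ e ∈ NW T T₁ y W, θ (θ₀ e) = e) {e : E} {s : Stp} {q : Part D × D} {q' : Part E × E} {G : Set (D × E)}
    (hY : YY S S₁ x d T T₁ y e W s θ q q' G) :
    YY T T₁ y e S S₁ x d W s θ₀ q' q (Prod.swap '' G) := by
  obtain ⟨h1, h2, θ', θ'', hi, hG⟩ := hY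
  have hs1 : S₁.Sub q.1 := (st_sub h1.1).1
  have hs2 : T₁.Sub q'.1 := (st_sub h2.1).1
  have hi' := iso_symm h' ri0 hi hs1
  refine ⟨h2, h1, θ'', θ', hi', ?_⟩
  rw [hG]
  ext p
  constructor
  · rintro ⟨⟨a, b⟩, ⟨ha, hb⟩, rfl⟩
    have ha' : a ∈ q.1.R \ S₁.R := ha
    have hb' : b = θ' a := hb
    have ha2 : a ∈ NW S q.1 x W := Or.inl ⟨ha'.1, fun hh => ha'.2 (h.sub.R_sub hh)⟩
    show b ∈ q'.1.R \ T₁.R ∧ a = θ'' b
    rw [hb']
    exact ⟨iso_new h hi hs1 ha', (hi.li a ha2).symm⟩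
  · rintro ⟨ha, hb⟩
    have ha2 : p.1 ∈ NW T q'.1 y W := Or.inl ⟨ha.1, fun hh => ha.2 (h.sub'.R_sub hh)⟩
    refine ⟨(p.2, p.1), ⟨?_, ?_⟩, rfl⟩
    · show p.2 ∈ q.1.R \ S₁.R
      rw [hb]
      exact iso_new h' hi' hs2 ha
    · show p.1 = θ' p.2
      rw [hb]
      exact (hi.ri p.1 ha2).symm

private theorem swap_swap' {A B : Type} (G : Set (A × B)) : Prod.swap '' (Prod.swap '' G) = G := by
  rw [← Set.image_comp]
  have h1 : (Prod.swap ∘ Prod.swap : A × B → A × B) = id := by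
    funext p
    rfl
  rw [h1, Set.image_id]

private theorem count1 (h : Sim S S₁ x T T₁ y W θ) (hd : d ∈ NW S S₁ x W) {s : Stp} {F' : ℕ}
    (hF' : T₁.R.ncard + 3 * F' = Nat.card E) {q : Part D × D} (hq : LSt S S₁ x W d s q.1 q.2) :
    {p : (Part E × E) × Set (D × E) | YY S S₁ x d T T₁ y (θ d) W s θ q p.1 p.2}.ncard =
      (3 * F').descFactorial (3 * s.vol) := by
  obtain ⟨N, hN⟩ : ∃ N, N = q.1.R \ S₁.R := ⟨_, rfl⟩
  have iN := Fintype.ofFinite N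
  have iM := Fintype.ofFinite (T₁.Rᶜ : Set E)
  have cN : Fintype.card N = 3 * s.vol := by
    rw [← Nat.card_eq_fintype_card, Nat.card_coe_set_eq, hN]
    exact new_card hq.1
  have cM : Fintype.card (T₁.Rᶜ : Set E) = 3 * F' := by
    rw [← Nat.card_eq_fintype_card, Nat.card_coe_set_eq]
    have h1 := Set.ncard_add_ncard_compl T₁.R
    omega
  have hsub : S₁.Sub q.1 := (st_sub hq.1).1
  have hold : ∀ e ∈ NW S S₁ x W, e ∉ N := by
    intro e he heN
    rw [hN] at heN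
    exact heN.2 (NW_old h.sub h.hx he)
  let ex : (N ↪ (T₁.Rᶜ : Set E)) → D → E := fun ψ e => if he : e ∈ N then (ψ ⟨e, he⟩ : E) else θ e
  have ex_on : ∀ (ψ : N ↪ (T₁.Rᶜ : Set E)) (e : D) (he : e ∈ N), ex ψ e = (ψ ⟨e, he⟩ : E) :=
    fun ψ e he => dif_pos he
  have ex_off : ∀ (ψ : N ↪ (T₁.Rᶜ : Set E)) (e : D), e ∉ N → ex ψ e = θ e := fun ψ e he => dif_neg he
  have ex_pc : ∀ ψ, pc S₁ q.1 θ (ex ψ) = ex ψ := by
    intro ψ
    funext e
    unfold pc
    split_ifs with he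
    · rfl
    · rw [← hN] at he
      exact (ex_off ψ e he).symm
  have hex : ∀ ψ : N ↪ (T₁.Rᶜ : Set E), ∃ q' : Part E × E, LSt T T₁ y W (θ d) s q'.1 q'.2 ∧
      Sim S q.1 x T q'.1 y W (ex ψ) ∧ q.2 ∈ NW S q.1 x W ∧ q'.2 = ex ψ q.2 := by
    intro ψ
    obtain ⟨T₂, z', h1, _, h3, h4, h5⟩ := sim_step (ψ := ex ψ) h hd hq (by
      rw [← hN]
      intro a ha b hb hab
      rw [ex_on ψ a ha, ex_on ψ b hb] at hab
      have := ψ.injective (Subtype.ext hab)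
      exact congrArg Subtype.val this) (by
      rw [← hN]
      intro e he
      rw [ex_on ψ e he]
      exact (ψ ⟨e, he⟩).2)
    rw [ex_pc] at h3 h5
    exact ⟨(T₂, z'), h1, h3, h4, h5⟩
  have hY : ∀ ψ : N ↪ (T₁.Rᶜ : Set E), YY S S₁ x d T T₁ y (θ d) W s θ q (hex ψ).choose (gr N (ex ψ)) := by
    intro ψ
    obtain ⟨h1, h2, h3, h4⟩ := (hex ψ).choose_spec
    obtain ⟨θ'', h5, h6, h7⟩ := sim_symm h2
    refine ⟨hq, h1, ex ψ, θ'', ⟨h2, h5, h6, h7, h3, h4, fun e he => ex_off ψ e (hold e he)⟩, ?_⟩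
    rw [hN]
  have hcard : Fintype.card (N ↪ (T₁.Rᶜ : Set E)) = (3 * F').descFactorial (3 * s.vol) := by
    rw [Fintype.card_embedding_eq, cN, cM]
  rw [← hcard, ← Nat.card_eq_fintype_card, ← Nat.card_coe_set_eq]
  symm
  refine Nat.card_congr (Equiv.ofBijective (fun ψ => ⟨((hex ψ).choose, gr N (ex ψ)), hY ψ⟩) ⟨?_, ?_⟩)
  · intro ψ ψ' hψ
    have h1 : gr N (ex ψ) = gr N (ex ψ') := congrArg (fun p => p.1.2) hψ
    ext e
    have h2 : ((e : D), ex ψ e) ∈ gr N (ex ψ) := ⟨e.2, rfl⟩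
    rw [h1] at h2
    have h3 : ex ψ e = ex ψ' e := h2.2
    rw [ex_on ψ e e.2, ex_on ψ' e e.2] at h3
    exact h3
  · rintro ⟨⟨q', G⟩, hq', hq'', θ', θ'', hi, hG⟩
    have hi' : Iso S S₁ x T y W θ q q' θ' θ'' := hi
    have hG' : G = gr (q.1.R \ S₁.R) θ' := hG
    have hnew : ∀ e ∈ N, θ' e ∈ (T₁.Rᶜ : Set E) := by
      intro e he
      rw [hN] at he
      exact (iso_new h hi' hsub he).2
    have hNW : ∀ e ∈ N, e ∈ NW S q.1 x W := by
      intro e he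
      rw [hN] at he
      exact Or.inl ⟨he.1, fun hh => he.2 (h.sub.R_sub hh)⟩
    let ψ : N ↪ (T₁.Rᶜ : Set E) := ⟨fun e => ⟨θ' e, hnew e e.2⟩, by
      intro a b hab
      have h1 : θ' a = θ' b := congrArg Subtype.val hab
      exact Subtype.ext (hi'.sim.inj (hNW a a.2) (hNW b b.2) h1)⟩
    have hψN : ∀ e ∈ N, ex ψ e = θ' e := fun e he => ex_on ψ e he
    have hψ : ∀ e ∈ NW S q.1 x W, ex ψ e = θ' e := by
      intro e he
      rcases NW_split (S₁ := S₁) he with h1 | h1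
      · rw [← hN] at h1
        exact hψN e h1
      · rw [ex_off ψ e (hold e h1), hi'.old e h1]
    refine ⟨ψ, ?_⟩
    obtain ⟨h1, h2, h3, h4⟩ := (hex ψ).choose_spec
    have h5 : (hex ψ).choose.1 = q'.1 := sim_ext h2 hi'.sim hψ
    have h6 : (hex ψ).choose.2 = q'.2 := by
      rw [h4, hi'.z', hψ _ h3]
    have h7 : gr N (ex ψ) = G := by
      rw [hG', ← hN]
      ext p
      constructor
      · rintro ⟨ha, hb⟩
        exact ⟨ha, by rw [hb, hψN _ ha]⟩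
      · rintro ⟨ha, hb⟩
        exact ⟨ha, by rw [hb, hψN _ ha]⟩
    apply Subtype.ext
    exact Prod.ext (Prod.ext h5 h6) h7

theorem sim_sum (h : Sim S S₁ x T T₁ y W θ) (hd : d ∈ NW S S₁ x W) (s : Stp) {F F' : ℕ}
    (hF : S₁.R.ncard + 3 * F = Nat.card D) (hF' : T₁.R.ncard + 3 * F' = Nat.card E) (c : Part D × D → ℝ)
    (c' : Part E × E → ℝ)
    (hc : ∀ (S₂ : Part D) (z : D) (T₂ : Part E) (z' : E) (θ' : D → E), LSt S S₁ x W d s S₂ z → LSt T T₁ y W (θ d) s T₂ z' →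
      Sim S S₂ x T T₂ y W θ' → z ∈ NW S S₂ x W → z' = θ' z → c (S₂, z) = c' (T₂, z')) :
    (∑ᶠ q ∈ {q : Part D × D | LSt S S₁ x W d s q.1 q.2}, c q) * (((3 * F').descFactorial (3 * s.vol) : ℕ) : ℝ) =
      (∑ᶠ q ∈ {q : Part E × E | LSt T T₁ y W (θ d) s q.1 q.2}, c' q) * (((3 * F).descFactorial (3 * s.vol) : ℕ) : ℝ) := by
  obtain ⟨θ₀, h', li0, ri0⟩ := sim_symm h
  have hd' : θ d ∈ NW T T₁ y W := by
    rw [← sim_image h]
    exact ⟨d, hd, rfl⟩
  have hdd : θ₀ (θ d) = d := li0 d hd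
  refine dc {q : Part D × D | LSt S S₁ x W d s q.1 q.2} {q : Part E × E | LSt T T₁ y W (θ d) s q.1 q.2}
    (fun q q' G => YY S S₁ x d T T₁ y (θ d) W s θ q q' G) ?_ ?_ c c' ?_ _ _ ?_ ?_
  · intro q q' G hY
    exact hY.1
  · intro q q' G hY
    exact hY.2.1
  · rintro ⟨S₂, z⟩ ⟨T₂, z'⟩ G ⟨h1, h2, θ', θ'', hi, _⟩
    exact hc S₂ z T₂ z' θ' h1 h2 hi.sim hi.z hi.z'
  · intro q hq
    exact count1 h hd hF' hq
  · intro q' hq'
    have h1 := count1 (s := s) h' hd' hF (q := q') hq'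
    rw [hdd] at h1
    rw [← h1]
    have h2 : {p : (Part D × D) × Set (E × D) | YY T T₁ y (θ d) S S₁ x d W s θ₀ q' p.1 p.2} =
        (fun p : (Part D × D) × Set (D × E) => (p.1, (Prod.swap '' p.2 : Set (E × D)))) ''
          {p : (Part D × D) × Set (D × E) | YY S S₁ x d T T₁ y (θ d) W s θ p.1 q' p.2} := by
      ext p
      constructor
      · intro hp
        refine ⟨(p.1, Prod.swap '' p.2), YY_symm h' h li0 hp, ?_⟩
        exact Prod.ext rfl (swap_swap' p.2)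
      · rintro ⟨r, hr, rfl⟩
        exact YY_symm h h' ri0 hr
    rw [h2, Set.ncard_image_of_injective]
    intro p r hpr
    simp only [Prod.mk.injEq] at hpr
    obtain ⟨h3, h4⟩ := hpr
    refine Prod.ext h3 ?_
    rw [← swap_swap' p.2, h4, swap_swap']

end Part
end SYS
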