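import Pool.Agent.SYS.Reg.RchG
import Pool.Agent.SYS.PL.RwA

/-!
# SYS-Reg-Tree: the random walk on regions

`nwt X F w` = weight of one labelled region reached by the word `w` from a region with `F` hidden triangles (the sum over the
regions of a word is `PRW X w`: `nwt_word`).  `Anc σ h q q'`: the run over the node `q'` passes through the node `q`.
`tree_le`: supermartingales on the tree of regions.  `hist_reg`: disjoint extensions.

PLAN.
* `nwt_append`: `wwt_append`, `Nat.descFactorial` of a sum (see `rchg_card`).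
* `nwt_word`: `rchg_card`, `PRW X w = wwt (AA X) (qq X) w = wwt (AA X) (q1 X) w * wwt 1 W w` (induction on `w`; `qq = q1 * W`).
* `tree_le`: induction on the maximal length of the words in `Q`.  If the root `([], S, x)` is in `Q` then `Q = {root}` (`hpf`: the root is an ancestor of every node).  Otherwise group `Q` by the first step and the first child
  `(s, S₁, z)` (unique by `rchg`-uniqueness: `st_unique` with `U = q.2.1`, `rchg_sub`); the induction hypothesis for the child (root `S₁, σ (h ++ [s]) S₁ z`, history `h ++ [s]`, `Φ' w = Φ (s :: w)`, `F - vol s`), `nwt_append`, and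
  `hstep` for the root (`C` = the set of the children which occur).  `vol s ≤ F` for a child: `st_typ`.
* `hist_reg`: the sets `{T | T ∈ q.2.1.Ext g ∧ q.2.1.HConn T}`, `q ∈ Q`, are pairwise disjoint (`rchg_cmp`: the words are comparable, so by `rchg_append` and `rchg_unique` one node is an ancestor of the other) and contained in
  `{T | T ∈ S.Ext g ∧ S.HConn T}` (`rchg_sub`, `rchg_hconn`).
-/

namespace SYS
namespace Part

open Classical SST Num

/-- Weight of a swallowed disc, for one labelled result. -/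
noncomputable def q1 (X : ℝ) (k a : ℕ) : ℝ := yy X ^ (1 + (a + k) / 2) / AA X ^ (k + 2)

/-- Weight of one labelled region reached by `w`. -/
noncomputable def nwt (X : ℝ) (F : ℕ) (w : List Stp) : ℝ :=
  wwt (AA X) (q1 X) w / (((3 * F).descFactorial (3 * wvol w) : ℕ) : ℝ)

section
variable {D : Type} [Finite D]

/-- The node `q` is on the run to the node `q'` (start: any node, `h` = history at the start). -/
def Anc (σ : List Stp → Part D → D → D) (h : List Stp) (q q' : List Stp × Part D × D) : Prop :=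
  ∃ v, q'.1 = q.1 ++ v ∧ RchG σ (h ++ q.1) q.2.1 q.2.2 v q'.2.1 q'.2.2

variable {σ : List Stp → Part D → D → D} {h : List Stp} {S : Part D} {x : D} {l : List D} {p : ℕ} {P : List ℕ} {F κ : ℕ}

private theorem AA_pos' (X : ℝ) : 0 < AA X := by
  have := AA_gt X
  linarith

private theorem q1_nonneg (X : ℝ) (k a : ℕ) : 0 ≤ q1 X k a :=
  div_nonneg (pow_nonneg (yy_pos X).le _) (pow_nonneg (AA_pos' X).le _)

theorem nwt_nonneg {X : ℝ} (hX : 0 < X) (F : ℕ) (w : List Stp) : 0 ≤ nwt X F w :=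
  div_nonneg (wwt_nonneg (AA_pos' X).le (q1_nonneg X) w) (Nat.cast_nonneg _)

private theorem nwt_nil (X : ℝ) (F : ℕ) : nwt X F [] = 1 := by
  unfold nwt
  rw [wwt_nil, wvol_nil, Nat.mul_zero, Nat.descFactorial_zero, Nat.cast_one, div_one]

private theorem wt_mul (X : ℝ) (s : Stp) : s.wt 1 W * s.wt (AA X) (q1 X) = s.wt (AA X) (qq X) := by
  cases s with
  | T => exact one_mul _
  | L k a =>
    show W k a * q1 X k a = qq X k a
    unfold q1 qq
    ring
  | R k a =>
    show W k a * q1 X k a = qq X k a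
    unfold q1 qq
    ring

private theorem wwt_mul (X : ℝ) (w : List Stp) : wwt 1 W w * wwt (AA X) (q1 X) w = PRW X w := by
  unfold PRW
  induction w with
  | nil => rw [wwt_nil, wwt_nil, wwt_nil, one_mul]
  | cons s w ih =>
    rw [wwt_cons, wwt_cons, wwt_cons, ← ih, ← wt_mul]
    ring

theorem nwt_append (X : ℝ) (F : ℕ) (u w : List Stp) (hv : wvol u ≤ F) :
    nwt X F (u ++ w) = nwt X F u * nwt X (F - wvol u) w := by
  unfold nwt
  rw [wwt_append, wvol_append]
  have h1 : (3 * (F - wvol u)).descFactorial (3 * wvol w) * (3 * F).descFactorial (3 * wvol u) =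
      (3 * F).descFactorial (3 * (wvol u + wvol w)) := by
    have h2 := Nat.descFactorial_mul_descFactorial (k := 3 * wvol u)
      (m := 3 * (wvol u + wvol w)) (n := 3 * F) (by omega)
    rw [← h2]
    congr 2 <;> omega
  rw [← h1, Nat.cast_mul, mul_comm (((3 * (F - wvol u)).descFactorial (3 * wvol w) : ℕ) : ℝ), mul_div_mul_comm]

theorem nwt_word (X : ℝ) (hσ : Rul σ) (hS : S.Typ (x :: l) (p :: P) F κ) {w : List Stp} (hw : WOk p w) (hv : wvol w ≤ F) :
    (({q : Part D × D | RchG σ h S x w q.1 q.2}.ncard : ℕ) : ℝ) * nwt X F w = PRW X w := by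
  have hd : (((3 * F).descFactorial (3 * wvol w) : ℕ) : ℝ) ≠ 0 := by
    rw [Nat.cast_ne_zero, Ne, Nat.descFactorial_eq_zero_iff_lt]
    omega
  rw [rchg_card hσ hS hw, ← wwt_mul]
  unfold nwt
  field_simp

/-- Sets which contain at most the root. -/
private theorem tree_root {X : ℝ} (Q : Finset (List Stp × Part D × D)) (hQ : ∀ q ∈ Q, q = ([], S, x))
    (Φ : List Stp → Part D → D → ℝ) (h0 : ∀ w S' x', 0 ≤ Φ w S' x') :
    ∑ q ∈ Q, nwt X F q.1 * Φ q.1 q.2.1 q.2.2 ≤ Φ [] S x := by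
  rcases Q.eq_empty_or_nonempty with h | ⟨q, hq⟩
  · rw [h, Finset.sum_empty]
    exact h0 _ _ _
  · have h1 : Q = {([], S, x)} := by
      refine Finset.eq_singleton_iff_unique_mem.2 ⟨?_, hQ⟩
      rw [← hQ q hq]
      exact hq
    rw [h1, Finset.sum_singleton, nwt_nil, one_mul]

private theorem tree_aux {X : ℝ} (hX : 0 < X) (hσ : Rul σ) : ∀ (N : ℕ) (h : List Stp) (S : Part D) (x : D) (p F : ℕ)
    (Q : Finset (List Stp × Part D × D)) (Φ : List Stp → Part D → D → ℝ), S.Typ (x :: l) (p :: P) F κ →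
    (∀ q ∈ Q, q.1.length ≤ N) → (∀ q ∈ Q, RchG σ h S x q.1 q.2.1 q.2.2) →
    (∀ q ∈ Q, ∀ q' ∈ Q, Anc σ h q q' → q = q') → (∀ w S' x', 0 ≤ Φ w S' x') →
    (∀ (u : List Stp) (S' : Part D) (x' : D), RchG σ h S x u S' x' → (u, S', x') ∉ Q →
      (∃ q ∈ Q, Anc σ h (u, S', x') q) → ∀ C : Finset (Stp × Part D × D), (∀ c ∈ C, S'.St x' c.1 c.2.1 c.2.2) →
      ∑ c ∈ C, nwt X (F - wvol u) [c.1] * Φ (u ++ [c.1]) c.2.1 (σ (h ++ u ++ [c.1]) c.2.1 c.2.2) ≤ Φ u S' x') →
    ∑ q ∈ Q, nwt X F q.1 * Φ q.1 q.2.1 q.2.2 ≤ Φ [] S x := by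
  intro N
  induction N with
  | zero =>
    intro h S x p F Q Φ hS hN hQ hpf h0 hstep
    refine tree_root Q (fun q hq => ?_) Φ h0
    have h1 : q.1 = [] := List.length_eq_zero_iff.1 (Nat.le_zero.1 (hN q hq))
    have h2 := hQ q hq
    rw [h1] at h2
    exact Prod.ext h1 (Prod.ext h2.1 h2.2)
  | succ N ih =>
    intro h S x p F Q Φ hS hN hQ hpf h0 hstep
    by_cases hr : (([], S, x) : List Stp × Part D × D) ∈ Q
    · refine tree_root Q (fun q hq => (hpf _ hr q hq ⟨q.1, rfl, ?_⟩).symm) Φ h0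
      show RchG σ (h ++ []) S x q.1 q.2.1 q.2.2
      rw [List.append_nil]
      exact hQ q hq
    · have hex : ∀ q ∈ Q, ∃ (c : Stp × Part D × D) (w : List Stp), q.1 = c.1 :: w ∧ S.St x c.1 c.2.1 c.2.2 ∧
          RchG σ (h ++ [c.1]) c.2.1 (σ (h ++ [c.1]) c.2.1 c.2.2) w q.2.1 q.2.2 := by
        rintro ⟨w, S', x'⟩ hq
        cases w with
        | nil =>
          exfalso
          have h1 := hQ _ hq
          apply hr
          have h2 : S' = S := h1.1
          have h3 : x' = x := h1.2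
          rw [← h2, ← h3]
          exact hq
        | cons s w =>
          obtain ⟨S₁, z, h1, h2⟩ := hQ _ hq
          exact ⟨(s, S₁, z), w, rfl, h1, h2⟩
      have : Nonempty (Stp × Part D × D) := ⟨(.T, S, x)⟩
      choose! ch tl h1 h2 h3 using hex
      rcases Q.eq_empty_or_nonempty with hemp | ⟨q0, hq0⟩
      · rw [hemp, Finset.sum_empty]
        exact h0 _ _ _
      -- the step at the root
      have hroot := hstep [] S x ⟨rfl, rfl⟩ hr ⟨q0, hq0, q0.1, rfl, by
        show RchG σ (h ++ []) S x q0.1 q0.2.1 q0.2.2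
        rw [List.append_nil]
        exact hQ q0 hq0⟩ (Q.image ch) (by
        intro c hc
        obtain ⟨q, hq, rfl⟩ := Finset.mem_image.1 hc
        exact h2 q hq)
      refine le_trans ?_ hroot
      rw [← Finset.sum_fiberwise_of_maps_to (fun q hq => Finset.mem_image_of_mem ch hq)]
      refine Finset.sum_le_sum fun c hc => ?_
      obtain ⟨q1, hq1, rfl⟩ := Finset.mem_image.1 hc
      obtain ⟨c, hcq⟩ : ∃ c, c = ch q1 := ⟨_, rfl⟩
      rw [← hcq]
      have hst : S.St x c.1 c.2.1 c.2.2 := by rw [hcq]; exact h2 q1 hq1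
      obtain ⟨hok, F', hF', hT⟩ := st_typ hS hst
      have hz := (st_sub hst).2.2
      have hn := hσ (h ++ [c.1]) c.2.1 c.2.2 hz
      have hT' := typ_repl hT hn.1 hn.2
      have hFF : F - c.1.vol = F' := by omega
      -- the subtree
      have hwv : wvol [c.1] = c.1.vol := by rw [wvol_cons, wvol_nil, Nat.add_zero]
      have hQc : ∀ q, q ∈ Q.filter (fun q => ch q = c) → q ∈ Q ∧ q.1 = c.1 :: tl q ∧
          RchG σ (h ++ [c.1]) c.2.1 (σ (h ++ [c.1]) c.2.1 c.2.2) (tl q) q.2.1 q.2.2 := by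
        intro q hq
        obtain ⟨hq, hqc⟩ := Finset.mem_filter.1 hq
        have e1 := h1 q hq
        have e3 := h3 q hq
        rw [hqc] at e1 e3
        exact ⟨hq, e1, e3⟩
      have hsum : ∑ q ∈ Q.filter (fun q => ch q = c), nwt X F q.1 * Φ q.1 q.2.1 q.2.2 =
          nwt X F [c.1] * ∑ q ∈ (Q.filter (fun q => ch q = c)).image (fun q => (tl q, q.2)),
            nwt X F' q.1 * Φ (c.1 :: q.1) q.2.1 q.2.2 := by
        rw [Finset.sum_image, Finset.mul_sum]
        · refine Finset.sum_congr rfl fun q hq => ?_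
          obtain ⟨g1, g2, g3⟩ := hQc q hq
          have g4 := nwt_append X F [c.1] (tl q) (by rw [hwv]; omega)
          rw [hwv, hFF] at g4
          rw [g2, ← mul_assoc, ← g4]
          rfl
        · intro q hq q' hq' hqq
          have e1 := (hQc q hq).2.1
          have e2 := (hQc q' hq').2.1
          have e3 : tl q = tl q' := (Prod.ext_iff.1 hqq).1
          have e4 : q.2 = q'.2 := (Prod.ext_iff.1 hqq).2
          exact Prod.ext (by rw [e1, e2, e3]) e4
      have hrepr : ∀ q', q' ∈ (Q.filter (fun q => ch q = c)).image (fun q => (tl q, q.2)) ↔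
          ((c.1 :: q'.1, q'.2) : List Stp × Part D × D) ∈ Q ∧
          RchG σ (h ++ [c.1]) c.2.1 (σ (h ++ [c.1]) c.2.1 c.2.2) q'.1 q'.2.1 q'.2.2 := by
        rintro ⟨w, S', x'⟩
        rw [Finset.mem_image]
        constructor
        · rintro ⟨q, hq, hqq⟩
          obtain ⟨g1, g2, g3⟩ := hQc q hq
          have e1 : tl q = w := (Prod.ext_iff.1 hqq).1
          have e2 : q.2 = (S', x') := (Prod.ext_iff.1 hqq).2
          have e3 : q = (c.1 :: w, (S', x')) := Prod.ext (by rw [g2, e1]) e2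
          rw [e1, e2] at g3
          rw [e3] at g1
          exact ⟨g1, g3⟩
        · rintro ⟨hq, hrr⟩
          have e1 := h1 _ hq
          have e2 := h2 _ hq
          have e3 := h3 _ hq
          have e4 : (ch (c.1 :: w, S', x')).1 = c.1 := (List.cons_eq_cons.1 e1).1.symm
          have e5 : tl (c.1 :: w, S', x') = w := (List.cons_eq_cons.1 e1).2.symm
          rw [e4] at e2 e3
          obtain ⟨e6, e7⟩ := st_unique e2 hst (rchg_sub e3) (rchg_sub hrr)
          have e8 : ch (c.1 :: w, S', x') = c := Prod.ext e4 (Prod.ext e6 e7)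
          exact ⟨(c.1 :: w, S', x'), Finset.mem_filter.2 ⟨hq, e8⟩, by rw [e5]⟩
      have key := ih (h ++ [c.1]) c.2.1 (σ (h ++ [c.1]) c.2.1 c.2.2) (c.1.nx p) F'
        ((Q.filter (fun q => ch q = c)).image (fun q => (tl q, q.2))) (fun w => Φ (c.1 :: w)) hT' (by
          intro q' hq'
          have g1 := hN _ ((hrepr q').1 hq').1
          rw [List.length_cons] at g1
          omega) (fun q' hq' => ((hrepr q').1 hq').2) (by
          intro q hq q' hq' hA
          have g1 := ((hrepr q).1 hq).1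
          have g2 := ((hrepr q').1 hq').1
          obtain ⟨v, hv, hR⟩ := hA
          have g3 := hpf _ g1 _ g2 ⟨v, by
            show c.1 :: q'.1 = c.1 :: q.1 ++ v
            rw [hv]
            rfl, by
            show RchG σ (h ++ c.1 :: q.1) q.2.1 q.2.2 v q'.2.1 q'.2.2
            have g4 : h ++ c.1 :: q.1 = h ++ [c.1] ++ q.1 := by simp
            rw [g4]
            exact hR⟩
          have g5 : c.1 :: q.1 = c.1 :: q'.1 := (Prod.ext_iff.1 g3).1
          have g6 : q.2 = q'.2 := (Prod.ext_iff.1 g3).2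
          exact Prod.ext (List.cons_eq_cons.1 g5).2 g6) (fun w S' x' => h0 _ _ _) (by
          intro u S' x' hr' hnot hex' C hC
          obtain ⟨q', hq', v, hv, hR⟩ := hex'
          have g1 := ((hrepr q').1 hq').1
          have g4 : h ++ c.1 :: u = h ++ [c.1] ++ u := by simp
          have g5 := hstep (c.1 :: u) S' x' ⟨c.2.1, c.2.2, hst, hr'⟩ (fun hmem => hnot ((hrepr (u, S', x')).2 ⟨hmem, hr'⟩))
            ⟨_, g1, v, by
            show c.1 :: q'.1 = c.1 :: u ++ v
            rw [hv]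
            rfl, by
            show RchG σ (h ++ c.1 :: u) S' x' v q'.2.1 q'.2.2
            rw [g4]
            exact hR⟩ C hC
          have g6 : F - wvol (c.1 :: u) = F' - wvol u := by rw [wvol_cons]; omega
          rw [g6, g4] at g5
          exact g5)
      rw [hsum]
      have hle : nwt X F [c.1] * ∑ q ∈ (Q.filter (fun q => ch q = c)).image (fun q => (tl q, q.2)),
            nwt X F' q.1 * Φ (c.1 :: q.1) q.2.1 q.2.2 ≤
          nwt X F [c.1] * Φ [c.1] c.2.1 (σ (h ++ [c.1]) c.2.1 c.2.2) :=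
        mul_le_mul_of_nonneg_left key (nwt_nonneg hX F _)
      refine hle.trans (le_of_eq ?_)
      rw [wvol_nil, Nat.sub_zero, List.append_nil, List.nil_append]

theorem tree_le {X : ℝ} (hX : 0 < X) (hσ : Rul σ) (hS : S.Typ (x :: l) (p :: P) F κ)
    (Q : Finset (List Stp × Part D × D)) (hQ : ∀ q ∈ Q, RchG σ h S x q.1 q.2.1 q.2.2)
    (hpf : ∀ q ∈ Q, ∀ q' ∈ Q, Anc σ h q q' → q = q') (Φ : List Stp → Part D → D → ℝ) (h0 : ∀ w S' x', 0 ≤ Φ w S' x')
    (hstep : ∀ (u : List Stp) (S' : Part D) (x' : D), RchG σ h S x u S' x' → (u, S', x') ∉ Q →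
      (∃ q ∈ Q, Anc σ h (u, S', x') q) → ∀ C : Finset (Stp × Part D × D), (∀ c ∈ C, S'.St x' c.1 c.2.1 c.2.2) →
      ∑ c ∈ C, nwt X (F - wvol u) [c.1] * Φ (u ++ [c.1]) c.2.1 (σ (h ++ u ++ [c.1]) c.2.1 c.2.2) ≤ Φ u S' x') :
    ∑ q ∈ Q, nwt X F q.1 * Φ q.1 q.2.1 q.2.2 ≤ Φ [] S x :=
  tree_aux hX hσ (Q.sup fun q => q.1.length) h S x p F Q Φ hS
    (fun q hq => Finset.le_sup (f := fun q : List Stp × Part D × D => q.1.length) hq) hQ hpf h0 hstep

/-- Total mass. -/
theorem tree_mass {X : ℝ} (hX : 0 < X) (hσ : Rul σ) (hS : S.Typ (x :: l) (p :: P) F κ)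
    (Q : Finset (List Stp × Part D × D)) (hQ : ∀ q ∈ Q, RchG σ h S x q.1 q.2.1 q.2.2)
    (hpf : ∀ q ∈ Q, ∀ q' ∈ Q, Anc σ h q q' → q = q') : ∑ q ∈ Q, nwt X F q.1 ≤ 1 := by
  have hmain := tree_le hX hσ hS Q hQ hpf (fun _ _ _ => (1 : ℝ)) (fun _ _ _ => zero_le_one) (by
    intro u S' x' hr _ _ C hC
    obtain ⟨hok, F', hF', hT⟩ := rchg_typ hσ hS hr
    have hFF : F - wvol u = F' := by omega
    rw [hFF]
    simp only [mul_one]
    rw [← Finset.sum_fiberwise_of_maps_to (fun c hc => Finset.mem_image_of_mem Prod.fst hc)]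
    refine le_trans ?_ ((tot_pr hX).2 (C.image Prod.fst))
    refine Finset.sum_le_sum fun s hs => ?_
    obtain ⟨c0, hc0, rfl⟩ := Finset.mem_image.1 hs
    obtain ⟨s, hs0⟩ : ∃ s, s = c0.1 := ⟨_, rfl⟩
    rw [← hs0]
    have hst : S'.St x' s c0.2.1 c0.2.2 := by rw [hs0]; exact hC c0 hc0
    obtain ⟨hok', F'', hF'', -⟩ := st_typ hT hst
    have h1 := st_card hT hok'
    have h2 : ∑ c ∈ C.filter (fun c => c.1 = s), nwt X F' [c.1] =
        ((C.filter (fun c => c.1 = s)).card : ℝ) * nwt X F' [s] := by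
      rw [← nsmul_eq_mul, ← Finset.sum_const]
      refine Finset.sum_congr rfl fun c hc => ?_
      rw [(Finset.mem_filter.1 hc).2]
    have h3 : ((C.filter (fun c => c.1 = s)).card : ℝ) ≤
        (({q : Part D × D | S'.St x' s q.1 q.2}.ncard : ℕ) : ℝ) := by
      have h4 : ((C.filter (fun c => c.1 = s)).image Prod.snd).card = (C.filter (fun c => c.1 = s)).card := by
        refine Finset.card_image_of_injOn fun c hc c' hc' hcc => ?_
        have e1 : c.1 = s := (Finset.mem_filter.1 hc).2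
        have e2 : c'.1 = s := (Finset.mem_filter.1 hc').2
        exact Prod.ext (e1.trans e2.symm) hcc
      have h6 : (((C.filter (fun c => c.1 = s)).image Prod.snd : Finset (Part D × D)) : Set (Part D × D)).ncard ≤
          {q : Part D × D | S'.St x' s q.1 q.2}.ncard := by
        refine Set.ncard_le_ncard (fun q hq => ?_) (Set.toFinite _)
        obtain ⟨c, hc, rfl⟩ := Finset.mem_image.1 (Finset.mem_coe.1 hq)
        have e1 := Finset.mem_filter.1 hc
        have e2 := hC c e1.1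
        rw [e1.2] at e2
        exact e2
      rw [← h4, ← Set.ncard_coe_finset]
      exact_mod_cast h6
    have hd : (((3 * F').descFactorial (3 * s.vol) : ℕ) : ℝ) ≠ 0 := by
      rw [Nat.cast_ne_zero, Ne, Nat.descFactorial_eq_zero_iff_lt]
      omega
    have h5 : (({q : Part D × D | S'.St x' s q.1 q.2}.ncard : ℕ) : ℝ) * nwt X F' [s] = s.wt (AA X) (qq X) := by
      rw [h1, ← wt_mul]
      unfold nwt
      rw [wwt_cons, wwt_nil, wvol_cons, wvol_nil, Nat.add_zero]
      field_simp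
    rw [h2]
    refine (mul_le_mul_of_nonneg_right h3 (nwt_nonneg hX F' _)).trans ?_
    rw [h5])
  simpa using hmain

end

section
variable {n g : ℕ} {σ : List Stp → Part (Fin (6 * n)) → Fin (6 * n) → Fin (6 * n)} {h : List Stp}
  {S : Part (Fin (6 * n))} {x : Fin (6 * n)} {l : List (Fin (6 * n))} {p : ℕ} {P : List ℕ} {F κ : ℕ}

theorem hist_reg (hσ : Rul σ) (hS : S.Typ (x :: l) (p :: P) F κ) (ho : κ < g ∨ l ≠ [])
    (Q : Finset (List Stp × Part (Fin (6 * n)) × Fin (6 * n))) (hQ : ∀ q ∈ Q, RchG σ h S x q.1 q.2.1 q.2.2)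
    (hpf : ∀ q ∈ Q, ∀ q' ∈ Q, Anc σ h q q' → q = q') :
    ∑ q ∈ Q, (({T | T ∈ q.2.1.Ext g ∧ q.2.1.HConn T}.ncard : ℕ) : ℝ) ≤
      (({T | T ∈ S.Ext g ∧ S.HConn T}.ncard : ℕ) : ℝ) := by
  have hanc : ∀ (q q' : List Stp × Part (Fin (6 * n)) × Fin (6 * n)) (T : Tri (Fin (6 * n))),
      RchG σ h S x q.1 q.2.1 q.2.2 → RchG σ h S x q'.1 q'.2.1 q'.2.2 → q.2.1.Le T → q'.2.1.Le T → q.1 <+: q'.1 →
      Anc σ h q q' := by
    rintro q q' T hr hr' hL hL' ⟨v, hv⟩
    rw [← hv, rchg_append] at hr'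
    obtain ⟨S₁, x₁, g1, g2⟩ := hr'
    obtain ⟨e1, e2⟩ := rchg_unique hr g1 (U := ofTri T) ((le_iff_sub _ T).1 hL)
      ((le_iff_sub _ T).1 (sub_le (rchg_sub g2) hL'))
    refine ⟨v, hv.symm, ?_⟩
    rw [e1, e2]
    exact g2
  obtain ⟨A, hA⟩ : ∃ A : (List Stp × Part (Fin (6 * n)) × Fin (6 * n)) → Finset (Tri (Fin (6 * n))),
      ∀ q T, T ∈ A q ↔ T ∈ q.2.1.Ext g ∧ q.2.1.HConn T :=
    ⟨fun q => (Set.toFinite {T | T ∈ q.2.1.Ext g ∧ q.2.1.HConn T}).toFinset, fun q T => by
      rw [Set.Finite.mem_toFinset]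
      rfl⟩
  have hc : ∀ q, {T | T ∈ q.2.1.Ext g ∧ q.2.1.HConn T}.ncard = (A q).card := by
    intro q
    rw [← Set.ncard_coe_finset]
    congr 1
    ext T
    rw [Finset.mem_coe, hA]
    rfl
  have hdis : (Q : Set (List Stp × Part (Fin (6 * n)) × Fin (6 * n))).PairwiseDisjoint A := by
    intro q hq q' hq' hne
    rw [Function.onFun, Finset.disjoint_left]
    intro T hT hT'
    rw [hA] at hT hT'
    apply hne
    have hr := hQ q hq
    have hr' := hQ q' hq'
    have hTS : T ∈ S.Ext g := ⟨hT.1.1, sub_le (rchg_sub hr) hT.1.2⟩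
    rcases rchg_cmp hσ hS hTS ho hr hr' hT.1.2 hT'.1.2 hT.2 hT'.2 with h1 | h1
    · exact hpf q hq q' hq' (hanc q q' T hr hr' hT.1.2 hT'.1.2 h1)
    · exact (hpf q' hq' q hq (hanc q' q T hr' hr hT'.1.2 hT.1.2 h1)).symm
  rw [Finset.sum_congr rfl fun q _ => by rw [hc q], ← Nat.cast_sum, ← Finset.card_biUnion hdis, Nat.cast_le,
    ← Set.ncard_coe_finset]
  refine Set.ncard_le_ncard (fun T hT => ?_) (Set.toFinite _)
  obtain ⟨q, hq, hTq⟩ := Finset.mem_biUnion.1 (Finset.mem_coe.1 hT)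
  rw [hA] at hTq
  have hr := hQ q hq
  exact ⟨⟨hTq.1.1, sub_le (rchg_sub hr) hTq.1.2⟩, rchg_hconn hr hTq.1.2 hTq.2⟩

end

end Part
end SYS
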